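import Pool.Agent.V8H17.LP.Virt2
import Pool.Agent.Y648.CW.Stm
import Pool.Agent.Y529.CS.Sub

set_option autoImplicit false

/-!
# The algorithm, and the subspace of its first phase

In the first phase, the coordinates are `y ≥ 0` and `u⁺, u⁻ ≥ 0` with `y A = s (u⁺ - u⁻)`, and the
linear form is the sum of all `u⁺, u⁻`.
-/

namespace Pool.Agent.V8H17.LP

open Pool.Agent.NPC Pool.Agent.H558R2 Pool.Agent.H622R3.SM Pool.Agent.W920.FC
  Pool.Agent.Y648.CS Pool.Agent.Y529.CS

/-! ### The algorithm -/

/-- The columns dropped in the first phase. -/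
def drN (m n : ℕ) : List Bool :=
  (List.range (vM m n + vM m n)).map fun c => !(decide (c < m) || decide (vM m n + m ≤ c))

/-- Only the first `m` columns can be used in the second phase. -/
def cut (m : ℕ) (s : PS) : PS := (s.1, (s.2.1, (s.2.2.1, s.2.2.2.take m)))

/-- The computation on the virtual input. -/
def TN0 (m n : ℕ) : TT Bool :=
  bnd (W.whl (itr (vM m n) n 0 (drN m n)) (st0 (vM m n))) fun s =>
    W.TBW (vM m n) n (cut m s)

/-- The computation. -/
def TN (m n : ℕ) : TT Bool := mapT (vq m n) (TN0 m n)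

/-- The algorithm. -/
def algN : Alg := algOf TN

/-! ### Zero extension -/

/-- The dropped coordinates are replaced by zero. -/
def ze (m : ℕ) (drop : List Bool) (x : ℕ → ℝ) : ℕ → ℝ := fun c =>
  if c < m + m ∧ drop.getD c true ≠ false then 0 else x c

theorem ze_ge {m : ℕ} {drop : List Bool} {x : ℕ → ℝ} {c : ℕ} (h : m + m ≤ c) :
    ze m drop x c = x c := by
  unfold ze
  rw [if_neg (by omega)]

theorem sum_ze {m : ℕ} {drop : List Bool} {x : ℕ → ℝ} (F : ℕ → ℝ) :
    ∑ c ∈ Xc m (dr0 m), F c * ze m drop x c = ∑ c ∈ Xc m drop, F c * x c := by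
  rw [Xc0]
  unfold Xc
  rw [Finset.sum_filter]
  refine Finset.sum_congr rfl fun c hc => ?_
  have hc' := Finset.mem_range.1 hc
  unfold ze
  by_cases h : drop.getD c true = false
  · rw [if_pos h, if_neg (by tauto)]
  · rw [if_neg h, if_pos ⟨hc', h⟩, mul_zero]

theorem mem_Lsp_ze {m n p : ℕ} {g : Reg → ℝ} {drop : List Bool} {x : ℕ → ℝ} :
    x ∈ Lsp m n p g drop ↔ ze m drop x ∈ Lsp m n p g (dr0 m) := by
  have key : ∀ i, ∑ c ∈ Acs m drop, Rb m n p g i c * x c =
      ∑ c ∈ Acs m (dr0 m), Rb m n p g i c * ze m drop x c := by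
    intro i
    rw [sum_Acs m drop (fun c => Rb m n p g i c * x c),
      sum_Acs m (dr0 m) (fun c => Rb m n p g i c * ze m drop x c), ze_ge le_rfl,
      ze_ge (Nat.le_succ _), sum_ze]
  constructor
  · intro h i hi
    rw [← key]
    exact h i hi
  · intro h i hi
    have := h i hi
    rw [← key] at this
    exact this

/-! ### The subspace of the first phase -/

theorem sum_vM {m n : ℕ} (F : ℕ → ℝ) : ∑ c : Fin (vM m n), F c =
    ∑ c : Fin m, F c + ∑ k : Fin n, (F (m + k) + F (m + (n + k))) := by
  show ∑ c : Fin (m + (n + n)), F c = _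
  rw [Fin.sum_univ_add, Fin.sum_univ_add, ← Finset.sum_add_distrib]
  rfl

theorem mem_XcN {m n c : ℕ} : c ∈ Xc (vM m n) (drN m n) ↔
    c < m ∨ (vM m n + m ≤ c ∧ c < vM m n + vM m n) := by
  unfold Xc drN
  rw [Finset.mem_filter, Finset.mem_range]
  constructor
  · rintro ⟨h1, h2⟩
    rw [List.getD_eq_getElem _ _ (by simpa using h1)] at h2
    simp only [List.getElem_map, List.getElem_range, Bool.not_eq_false', Bool.or_eq_true,
      decide_eq_true_eq] at h2
    rcases h2 with h2 | h2
    · exact Or.inl h2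
    · exact Or.inr ⟨h2, h1⟩
  · intro h
    have h1 : c < vM m n + vM m n := by
      rcases h with h | h
      · unfold vM; omega
      · exact h.2
    refine ⟨h1, ?_⟩
    rw [List.getD_eq_getElem _ _ (by simpa using h1)]
    simp only [List.getElem_map, List.getElem_range, Bool.not_eq_false', Bool.or_eq_true,
      decide_eq_true_eq]
    tauto

theorem ze_keep {m n c : ℕ} {x : ℕ → ℝ} (h : c ∈ Xc (vM m n) (drN m n)) :
    ze (vM m n) (drN m n) x c = x c := by
  unfold Xc at h
  rw [Finset.mem_filter] at h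
  unfold ze
  rw [if_neg (by tauto)]

theorem ze_drop {m n c : ℕ} {x : ℕ → ℝ} (h : c ∉ Xc (vM m n) (drN m n))
    (h2 : c < vM m n + vM m n) : ze (vM m n) (drN m n) x c = 0 := by
  unfold Xc at h
  rw [Finset.mem_filter, Finset.mem_range] at h
  unfold ze
  rw [if_pos (by tauto)]

theorem vA_n {m n : ℕ} (A : Fin m → Fin n → ℝ) (c : Fin (vM m n)) (i : Fin n) : vA A c i =
    (fun c : ℕ => if h : c < m then A ⟨c, h⟩ i
      else if c = m + i then sc A else if c = m + (n + i) then - sc A else 0) c := rfl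

theorem mem_LspN {m n : ℕ} (A : Fin m → Fin n → ℝ) (b : Fin m → ℝ) (x : ℕ → ℝ) :
    x ∈ Lsp (vM m n) n 0 (start (vA A) (vb (n := n) b)) (drN m n) ↔
    (∀ i : Fin n, ∑ c : Fin m, A c i * x c =
      sc A * (x (vM m n + (m + i)) - x (vM m n + (m + (n + i))))) ∧
    x (vM m n + vM m n) = ∑ k : Fin n, (x (vM m n + (m + k)) + x (vM m n + (m + (n + k)))) ∧
    x (vM m n + vM m n + 1) = ∑ c : Fin m, x c +
      ∑ k : Fin n, (x (vM m n + (m + k)) + x (vM m n + (m + (n + k)))) := by
  obtain ⟨z, hz⟩ : ∃ z, z = ze (vM m n) (drN m n) x := ⟨_, rfl⟩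
  have hv : vM m n = m + (n + n) := rfl
  have z1 : ∀ c : Fin m, z c = x c := fun c => by
    rw [hz]; exact ze_keep (mem_XcN.2 (Or.inl c.2))
  have z2 : ∀ c : Fin m, z (vM m n + c) = 0 := fun c => by
    rw [hz]
    refine ze_drop (fun h => ?_) (by have := c.2; omega)
    have := c.2
    rcases mem_XcN.1 h with h | h <;> omega
  have z3 : ∀ k : Fin n, z (m + k) = 0 := fun k => by
    rw [hz]
    refine ze_drop (fun h => ?_) (by have := k.2; omega)
    have := k.2
    rcases mem_XcN.1 h with h | h <;> omega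
  have z4 : ∀ k : Fin n, z (m + (n + k)) = 0 := fun k => by
    rw [hz]
    refine ze_drop (fun h => ?_) (by have := k.2; omega)
    have := k.2
    rcases mem_XcN.1 h with h | h <;> omega
  have z5 : ∀ k : Fin n, z (vM m n + (m + k)) = x (vM m n + (m + k)) := fun k => by
    rw [hz]
    exact ze_keep (mem_XcN.2 (Or.inr ⟨by omega, by have := k.2; omega⟩))
  have z6 : ∀ k : Fin n, z (vM m n + (m + (n + k))) = x (vM m n + (m + (n + k))) := fun k => by
    rw [hz]
    exact ze_keep (mem_XcN.2 (Or.inr ⟨by omega, by have := k.2; omega⟩))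
  have z7 : z (vM m n + vM m n) = x (vM m n + vM m n) := by rw [hz]; exact ze_ge le_rfl
  have z8 : z (vM m n + vM m n + 1) = x (vM m n + vM m n + 1) := by
    rw [hz]; exact ze_ge (Nat.le_succ _)
  rw [mem_Lsp_ze, ← hz, mem_Lsp0, z7, z8]
  have e1 : ∀ i : Fin n, ∑ c : Fin (vM m n), vA A c i * (z c - z (vM m n + (c : ℕ))) =
      ∑ c : Fin m, A c i * x c -
        sc A * (x (vM m n + (m + i)) - x (vM m n + (m + (n + i)))) := by
    intro i
    have h := sum_vM (m := m) (n := n) (fun c => (if h : c < m then A ⟨c, h⟩ i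
      else if c = m + i then sc A else if c = m + (n + i) then - sc A else 0) *
        (z c - z (vM m n + c)))
    refine (Eq.trans (Finset.sum_congr rfl fun c _ => ?_) h).trans ?_
    · rw [vA_n]
    rw [sub_eq_add_neg]
    congr 1
    · refine Finset.sum_congr rfl fun c _ => ?_
      simp only [dif_pos c.2]
      rw [z1, z2, sub_zero]
    · rw [Finset.sum_add_distrib, Finset.sum_eq_single i, Finset.sum_eq_single i]
      · have hi := i.2
        simp only [dif_neg (show ¬ m + (i : ℕ) < m by omega),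
          dif_neg (show ¬ m + (n + (i : ℕ)) < m by omega), if_true,
          if_neg (show ¬ m + (n + (i : ℕ)) = m + i by omega)]
        rw [z3, z4, z5, z6]
        ring
      · intro k _ hk
        have hk' : (k : ℕ) ≠ i := fun h => hk (Fin.ext h)
        have hi := i.2
        have hk2 := k.2
        simp only [dif_neg (show ¬ m + (n + (k : ℕ)) < m by omega),
          if_neg (show ¬ m + (n + (k : ℕ)) = m + i by omega),
          if_neg (show ¬ m + (n + (k : ℕ)) = m + (n + i) by omega), zero_mul]
      · intro h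
        exact absurd (Finset.mem_univ i) h
      · intro k _ hk
        have hk' : (k : ℕ) ≠ i := fun h => hk (Fin.ext h)
        have hi := i.2
        have hk2 := k.2
        simp only [dif_neg (show ¬ m + (k : ℕ) < m by omega),
          if_neg (show ¬ m + (k : ℕ) = m + i by omega),
          if_neg (show ¬ m + (k : ℕ) = m + (n + i) by omega), zero_mul]
      · intro h
        exact absurd (Finset.mem_univ i) h
  have e2 : ∑ c : Fin (vM m n), z (vM m n + (c : ℕ)) =
      ∑ k : Fin n, (x (vM m n + (m + k)) + x (vM m n + (m + (n + k)))) := by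
    have h := sum_vM (m := m) (n := n) (fun c => z (vM m n + c))
    rw [h]
    simp only [z2, z5, z6, Finset.sum_const_zero, zero_add]
  have e3 : ∑ c : Fin (vM m n), (z c + z (vM m n + (c : ℕ))) =
      ∑ c : Fin m, x c +
        ∑ k : Fin n, (x (vM m n + (m + k)) + x (vM m n + (m + (n + k)))) := by
    have h := sum_vM (m := m) (n := n) (fun c => z c + z (vM m n + c))
    rw [h]
    simp only [z1, z2, z3, z4, z5, z6, add_zero, zero_add]
  rw [e2, e3]
  refine and_congr (forall_congr' fun i => ?_) Iff.rfl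
  rw [e1 i, sub_eq_zero]

end Pool.Agent.V8H17.LP
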