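import Pool.Agent.V8H17.LP.Alg
import Pool.Agent.Y648.CS.T_BEG

set_option autoImplicit false

/-!
# The beginning and the end of the phases
-/

namespace Pool.Agent.V8H17.LP

open Pool.Agent.NPC Pool.Agent.H558R2 Pool.Agent.H622R3.SM Pool.Agent.W920.FC
  Pool.Agent.Y648.CS Pool.Agent.Y529.CS

/-! ### Vectors of the first phase -/

/-- Vectors on `ℕ` from their parts. -/
noncomputable def mk3 {m n : ℕ} (y : Fin m → ℝ) (u v : Fin n → ℝ) (q nu : ℝ) : ℕ → ℝ := fun c =>
  if h : c < m then y ⟨c, h⟩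
  else if h : c - (vM m n + m) < n then (if c < vM m n + m then 0 else u ⟨c - (vM m n + m), h⟩)
  else if h : c - (vM m n + (m + n)) < n then v ⟨c - (vM m n + (m + n)), h⟩
  else if c = vM m n + vM m n then q else nu

section

variable {m n : ℕ} (y : Fin m → ℝ) (u v : Fin n → ℝ) (q nu : ℝ)

theorem mk3_y (c : Fin m) : mk3 y u v q nu c = y c := by
  unfold mk3
  rw [dif_pos c.2]

theorem mk3_u (k : Fin n) : mk3 y u v q nu (vM m n + (m + k)) = u k := by
  have hk := k.2
  unfold mk3
  rw [dif_neg (by omega), dif_pos (by omega), if_neg (by omega)]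
  congr 1
  apply Fin.ext
  show vM m n + (m + (k : ℕ)) - (vM m n + m) = k
  omega

theorem mk3_v (k : Fin n) : mk3 y u v q nu (vM m n + (m + (n + k))) = v k := by
  have hk := k.2
  unfold mk3
  rw [dif_neg (by omega), dif_neg (by omega), dif_pos (by omega)]
  congr 1
  apply Fin.ext
  show vM m n + (m + (n + (k : ℕ))) - (vM m n + (m + n)) = k
  omega

theorem mk3_q : mk3 y u v q nu (vM m n + vM m n) = q := by
  have hv : vM m n = m + (n + n) := rfl
  unfold mk3
  rw [dif_neg (by omega), dif_neg (by omega), dif_neg (by omega), if_pos rfl]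

theorem mk3_nu : mk3 y u v q nu (vM m n + vM m n + 1) = nu := by
  have hv : vM m n = m + (n + n) := rfl
  unfold mk3
  rw [dif_neg (by omega), dif_neg (by omega), dif_neg (by omega), if_neg (by omega)]

end

theorem XcN_cases {m n c : ℕ} (h : c ∈ Xc (vM m n) (drN m n)) : (∃ d : Fin m, c = d) ∨
    (∃ k : Fin n, c = vM m n + (m + k)) ∨ ∃ k : Fin n, c = vM m n + (m + (n + k)) := by
  have hv : vM m n = m + (n + n) := rfl
  rcases mem_XcN.1 h with h | ⟨h1, h2⟩
  · exact Or.inl ⟨⟨c, h⟩, rfl⟩
  · by_cases h3 : c < vM m n + m + n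
    · exact Or.inr (Or.inl ⟨⟨c - (vM m n + m), by omega⟩, by simp; omega⟩)
    · exact Or.inr (Or.inr ⟨⟨c - (vM m n + m + n), by omega⟩, by simp; omega⟩)

theorem XcN_y {m n : ℕ} (d : Fin m) : (d : ℕ) ∈ Xc (vM m n) (drN m n) :=
  mem_XcN.2 (Or.inl d.2)

theorem XcN_u {m n : ℕ} (k : Fin n) : vM m n + (m + (k : ℕ)) ∈ Xc (vM m n) (drN m n) := by
  have hv : vM m n = m + (n + n) := rfl
  have := k.2
  exact mem_XcN.2 (Or.inr ⟨by omega, by omega⟩)

theorem XcN_v {m n : ℕ} (k : Fin n) : vM m n + (m + (n + (k : ℕ))) ∈ Xc (vM m n) (drN m n) := by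
  have hv : vM m n = m + (n + n) := rfl
  have := k.2
  exact mem_XcN.2 (Or.inr ⟨by omega, by omega⟩)

theorem dlR_le' (m n : ℕ) : dlR (vM m n) n ≤ 1 / (n + 1) := by
  have h1 := dlR_le (vM m n) n
  have h2 : epR (vM m n) n ≤ 1 / (n + 1) := by
    unfold epR
    have h3 : (n : ℝ) + 1 ≤ 2 ^ (2 * cD (vM m n) n) := by
      have h4 : n + 1 ≤ 2 ^ n := Nat.lt_two_pow_self
      have h5 : n ≤ 2 * cD (vM m n) n := by
        unfold cD Pool.Agent.W920.FC.cK
        omega
      have h6 : 2 ^ n ≤ 2 ^ (2 * cD (vM m n) n) := Nat.pow_le_pow_right (by norm_num) h5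
      exact_mod_cast h4.trans h6
    rw [one_div, inv_pow, one_div]
    exact inv_anti₀ (by positivity) h3
  have h7 : 0 < epR (vM m n) n := by unfold epR; positivity
  linarith

/-! ### The beginning of the first phase -/

theorem beg0N (hM : S_MOV) {m n : ℕ} (A : Fin m → Fin n → ℝ) (b : Fin m → ℝ) :
    Inv (vM m n) n 0 (start (vA A) (vb (n := n) b)) (drN m n)
      (64 * (cD (vM m n) n * cD (vM m n) n)) moOne
      (List.replicate (vM m n + vM m n) moOne) ∧
    ∀ x ∈ Lsp (vM m n) n 0 (start (vA A) (vb (n := n) b)) (drN m n),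
      (∀ c ∈ Xc (vM m n) (drN m n), 0 ≤ x c) → 0 ≤ x (vM m n + vM m n) := by
  obtain ⟨hM1, hM2, hM3, hM4, hM5, hM6, hM7, hM8, hM9, hM10, hM11⟩ :=
    hM (vM m n) n (start (vA A) (vb (n := n) b))
  have hG : ∀ E, MoG (vM m n) n (start (vA A) (vb (n := n) b)) E moOne := by
    intro E
    refine ⟨⟨Nat.zero_le _, Nat.zero_le _, Nat.zero_le _, Nat.zero_le _⟩, hM2, ?_⟩
    rw [hM1]
    exact one_pos
  have hrep : ∀ c, (List.replicate (vM m n + vM m n) moOne).getD c moOne = moOne := by
    intro c
    by_cases hc : c < vM m n + vM m n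
    · rw [List.getD_eq_getElem _ _ (by simpa using hc)]
      simp
    · rw [List.getD_eq_default _ _ (by simpa using hc)]
  have hwf : ∀ c, wf (vM m n) n (start (vA A) (vb (n := n) b)) moOne
      (List.replicate (vM m n + vM m n) moOne) c = 1 := by
    intro c
    unfold wf wc
    rw [hrep]
    split_ifs <;> exact hM1
  have hpos : ∀ x ∈ Lsp (vM m n) n 0 (start (vA A) (vb (n := n) b)) (drN m n),
      (∀ c ∈ Xc (vM m n) (drN m n), 0 ≤ x c) → 0 ≤ x (vM m n + vM m n) := by
    intro x hx1 hx2
    rw [mem_LspN] at hx1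
    rw [hx1.2.1]
    exact Finset.sum_nonneg fun k _ => add_nonneg (hx2 _ (XcN_u k)) (hx2 _ (XcN_v k))
  refine ⟨⟨by simp, hG _, fun c _ => ?_, ?_, ?_⟩, hpos⟩
  · rw [hrep]
    exact hG _
  · intro x hx
    obtain ⟨hx1, hx2, hx3, hx4⟩ := hx
    have h0 := hpos x hx1 hx2
    rw [mem_LspN] at hx1
    obtain ⟨hL1, hL2, hL3⟩ := hx1
    have hy0 : ∀ c : Fin m, 0 ≤ x c := fun c => hx2 c (XcN_y c)
    have hu0 : ∀ k : Fin n, 0 ≤ x (vM m n + (m + k)) := fun k => hx2 _ (XcN_u k)
    have hv0 : ∀ k : Fin n, 0 ≤ x (vM m n + (m + (n + k))) := fun k => hx2 _ (XcN_v k)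
    have hs1 : 0 ≤ ∑ c : Fin m, x c := Finset.sum_nonneg fun c _ => hy0 c
    have hs2 : 0 ≤ ∑ k : Fin n, (x (vM m n + (m + k)) + x (vM m n + (m + (n + k)))) :=
      Finset.sum_nonneg fun k _ => add_nonneg (hu0 k) (hv0 k)
    rw [hL3] at hx3
    refine ⟨fun c hc => ?_, ?_, ?_⟩
    · rw [hwf]
      have hk : ∀ k : Fin n, x (vM m n + (m + k)) + x (vM m n + (m + (n + k))) ≤ 1 := fun k => by
        have := Finset.single_le_sum (f := fun k : Fin n =>
          x (vM m n + (m + k)) + x (vM m n + (m + (n + k))))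
          (fun k _ => add_nonneg (hu0 k) (hv0 k)) (Finset.mem_univ k)
        linarith
      rcases XcN_cases hc with ⟨d, rfl⟩ | ⟨k, rfl⟩ | ⟨k, rfl⟩
      · have := Finset.single_le_sum (f := fun c : Fin m => x c) (fun c _ => hy0 c)
          (Finset.mem_univ d)
        linarith
      · have := hk k
        have := hv0 k
        linarith
      · have := hk k
        have := hu0 k
        linarith
    · have h2 := M0R_ge (vM m n) n
      rw [hM1]
      linarith
    · rw [hL3]
      linarith
  · intro c hc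
    rw [hwf, mul_one, hM1]
    have hd1 := dlR_le' m n
    have hn0 : (0 : ℝ) ≤ n := Nat.cast_nonneg n
    have hdh : dlR (vM m n) n ≤ 1 / 2 := by
      have h1 := dlR_le (vM m n) n
      have h2 := epR_le (vM m n) n
      linarith
    have huv : ∀ k : Fin n, ∃ x ∈ Sl (Lsp (vM m n) n 0 (start (vA A) (vb (n := n) b)) (drN m n))
        (Xc (vM m n) (drN m n)) (vM m n + vM m n) (vM m n + vM m n + 1) 1,
        x (vM m n + (m + k)) = 1 / 2 ∧ x (vM m n + (m + (n + k))) = 1 / 2 := by
      intro k
      set u : Fin n → ℝ := fun e => if e = k then 1 / 2 else 0 with hu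
      have hu0 : ∀ e, 0 ≤ u e := by
        intro e
        simp only [hu]
        split_ifs <;> norm_num
      have hus : ∑ e, (u e + u e) = 1 := by
        rw [Finset.sum_add_distrib]
        simp [hu]
        norm_num
      refine ⟨mk3 (0 : Fin m → ℝ) u u (∑ e, (u e + u e)) (∑ e, (u e + u e)), ⟨?_, ?_, ?_, ?_⟩, ?_, ?_⟩
      · rw [mem_LspN]
        refine ⟨fun i => ?_, ?_, ?_⟩
        · rw [mk3_u, mk3_v, sub_self, mul_zero]
          refine Finset.sum_eq_zero fun c _ => ?_
          rw [mk3_y]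
          simp
        · rw [mk3_q]
          refine Finset.sum_congr rfl fun e _ => ?_
          rw [mk3_u, mk3_v]
        · rw [mk3_nu]
          have e1 : ∑ c : Fin m, mk3 (0 : Fin m → ℝ) u u (∑ e, (u e + u e)) (∑ e, (u e + u e)) c
              = 0 := by
            refine Finset.sum_eq_zero fun c _ => ?_
            rw [mk3_y]
            rfl
          rw [e1, zero_add]
          refine Finset.sum_congr rfl fun e _ => ?_
          rw [mk3_u, mk3_v]
      · intro c' hc'
        rcases XcN_cases hc' with ⟨d, rfl⟩ | ⟨k, rfl⟩ | ⟨k, rfl⟩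
        · rw [mk3_y]
          exact le_rfl
        · rw [mk3_u]
          exact hu0 k
        · rw [mk3_v]
          exact hu0 k
      · rw [mk3_nu, hus]
      · rw [mk3_q, hus]
      · rw [mk3_u]
        simp [hu]
      · rw [mk3_v]
        simp [hu]
    rcases XcN_cases hc with ⟨d, rfl⟩ | ⟨k, rfl⟩ | ⟨k, rfl⟩
    · have hs := sc_pos A
      set τ : ℝ := 1 / (n + 1) with hτ
      have hτ0 : 0 < τ := by rw [hτ]; positivity
      set yy : Fin m → ℝ := fun e => if e = d then τ else 0 with hyy
      set u : Fin n → ℝ := fun i => max (A d i) 0 * (τ / sc A) with hu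
      set v : Fin n → ℝ := fun i => max (- A d i) 0 * (τ / sc A) with hv
      have hts : 0 < τ / sc A := div_pos hτ0 hs
      have hu0 : ∀ e, 0 ≤ u e := fun e => mul_nonneg (le_max_right _ _) hts.le
      have hv0 : ∀ e, 0 ≤ v e := fun e => mul_nonneg (le_max_right _ _) hts.le
      have hdiff : ∀ i, sc A * (u i - v i) = A d i * τ := by
        intro i
        simp only [hu, hv]
        rw [← sub_mul, max_zero_sub_max_neg_zero_eq_self]
        field_simp
      have hsum : ∀ i, u i + v i ≤ τ := by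
        intro i
        simp only [hu, hv]
        rw [← add_mul, max_zero_add_max_neg_zero_eq_abs_self]
        calc |A d i| * (τ / sc A) ≤ sc A * (τ / sc A) :=
              mul_le_mul_of_nonneg_right (abs_le_sc A d i) hts.le
          _ = τ := by field_simp
      have hsum2 : ∑ i, (u i + v i) ≤ n * τ := by
        calc ∑ i, (u i + v i) ≤ ∑ _i : Fin n, τ := Finset.sum_le_sum fun i _ => hsum i
          _ = n * τ := by simp
      have hntau : n * τ + τ = 1 := by
        rw [hτ]
        field_simp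
      have hyys : ∑ e, yy e = τ := by simp [hyy]
      refine ⟨mk3 yy u v (∑ e, (u e + v e)) (τ + ∑ e, (u e + v e)), ⟨?_, ?_, ?_, ?_⟩, ?_⟩
      · rw [mem_LspN]
        refine ⟨fun i => ?_, ?_, ?_⟩
        · rw [mk3_u, mk3_v, hdiff]
          rw [Finset.sum_eq_single d]
          · rw [mk3_y]
            simp [hyy]
          · intro e _ he
            rw [mk3_y]
            simp [hyy, he]
          · intro h
            exact absurd (Finset.mem_univ d) h
        · rw [mk3_q]
          refine Finset.sum_congr rfl fun e _ => ?_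
          rw [mk3_u, mk3_v]
        · rw [mk3_nu]
          congr 1
          · rw [← hyys]
            refine Finset.sum_congr rfl fun e _ => ?_
            rw [mk3_y]
          · refine Finset.sum_congr rfl fun e _ => ?_
            rw [mk3_u, mk3_v]
      · intro c' hc'
        rcases XcN_cases hc' with ⟨d', rfl⟩ | ⟨k, rfl⟩ | ⟨k, rfl⟩
        · rw [mk3_y]
          simp only [hyy]
          split_ifs
          · exact hτ0.le
          · exact le_rfl
        · rw [mk3_u]
          exact hu0 k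
        · rw [mk3_v]
          exact hv0 k
      · rw [mk3_nu]
        linarith
      · rw [mk3_q]
        linarith
      · rw [mk3_y]
        simp only [hyy, if_true]
        exact hd1
    · obtain ⟨x, hx, hx1, -⟩ := huv k
      exact ⟨x, hx, by rw [hx1]; exact hdh⟩
    · obtain ⟨x, hx, -, hx1⟩ := huv k
      exact ⟨x, hx, by rw [hx1]; exact hdh⟩

end Pool.Agent.V8H17.LP
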