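import Pool.Agent.V8H17.LP.Beg

set_option autoImplicit false

/-!
# The beginning and the end of the second phase
-/

namespace Pool.Agent.V8H17.LP

open Pool.Agent.NPC Pool.Agent.H558R2 Pool.Agent.H622R3.SM Pool.Agent.W920.FC
  Pool.Agent.Y648.CS Pool.Agent.Y529.CS

/-- The restriction to the support `B`. -/
def rsN {m : ℕ} (B : List Bool) (x : ℕ → ℝ) : Fin m → ℝ := fun c =>
  if B.getD c false = true then x c else 0

/-- Only the first `m` entries are true. -/
def Short (m : ℕ) (B : List Bool) : Prop := ∀ c, m ≤ c → B.getD c false = false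

theorem short_take (m : ℕ) (B : List Bool) : Short m (B.take m) := by
  intro c hc
  rw [List.getD_eq_default]
  rw [List.length_take]
  omega

theorem take_getD {m c : ℕ} (B : List Bool) (hc : c < m) :
    (B.take m).getD c false = B.getD c false := by
  rw [List.getD_eq_getElem?_getD, List.getD_eq_getElem?_getD, List.getElem?_take_of_lt hc]

section

variable {m n : ℕ} (A : Fin m → Fin n → ℝ) (b : Fin m → ℝ) {B : List Bool} (hB : Short m B)

include hB

theorem sum_short (F : ℕ → ℝ) (x : ℕ → ℝ) : ∑ c : Fin (vM m n), F c * rs B x c =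
    ∑ c : Fin m, F c * rsN B x c := by
  have h := sum_vM (m := m) (n := n) (fun c => F c * (if B.getD c false = true then x c else 0))
  refine Eq.trans ?_ (h.trans ?_)
  · rfl
  rw [Finset.sum_eq_zero (s := (Finset.univ : Finset (Fin n)))]
  · rw [add_zero]
    rfl
  · intro k _
    rw [hB _ (by omega), hB (m + (n + (k : ℕ))) (by omega)]
    simp

theorem mem_LspB (x : ℕ → ℝ) :
    x ∈ Lsp (vM m n) n 1 (start (vA A) (vb (n := n) b)) (dr1 (vM m n) B) ↔
    (∀ i : Fin n, ∑ c : Fin m, A c i * rsN B x c = 0) ∧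
    x (vM m n + vM m n) = - ∑ c : Fin m, b c * rsN B x c ∧
    x (vM m n + vM m n + 1) = ∑ c : Fin m, rsN B x c := by
  rw [mem_Lsp1]
  have e1 : ∀ i : Fin n, ∑ c : Fin (vM m n), vA A c i * rs B x c =
      ∑ c : Fin m, A c i * rsN B x c := by
    intro i
    have h := sum_short (m := m) (n := n) hB (fun c : ℕ => if h : c < m then A ⟨c, h⟩ i
      else if c = m + i then sc A else if c = m + (n + i) then - sc A else 0) x
    refine Eq.trans ?_ (h.trans ?_)
    · rfl
    · refine Finset.sum_congr rfl fun c _ => ?_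
      simp only [dif_pos c.2]
  have e2 : ∑ c : Fin (vM m n), vb (n := n) b c * rs B x c = ∑ c : Fin m, b c * rsN B x c := by
    have h := sum_short (m := m) (n := n) hB (fun c : ℕ => if h : c < m then b ⟨c, h⟩ else 0) x
    refine Eq.trans ?_ (h.trans ?_)
    · rfl
    · refine Finset.sum_congr rfl fun c _ => ?_
      simp only [dif_pos c.2]
  have e3 : ∑ c : Fin (vM m n), rs B x c = ∑ c : Fin m, rsN B x c := by
    have h := sum_short (m := m) (n := n) hB (fun _ : ℕ => 1) x
    simpa using h
  rw [e2, e3]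
  simp only [e1]

theorem mem_XcB {c : ℕ} : c ∈ Xc (vM m n) (dr1 (vM m n) B) ↔ c < m ∧ B.getD c false = true := by
  rw [mem_Xc1]
  constructor
  · rintro ⟨h1, h2⟩
    refine ⟨?_, h2⟩
    by_contra h
    rw [hB c (by omega)] at h2
    exact absurd h2 (by simp)
  · rintro ⟨h1, h2⟩
    exact ⟨by unfold vM; omega, h2⟩

end

theorem mem_SlN {m n : ℕ} (A : Fin m → Fin n → ℝ) (b : Fin m → ℝ) (u : Fin m → ℝ)
    (hu : ∀ c, 0 ≤ u c) (h1 : ∑ c, u c ≤ 1) (hA : ∀ i, ∑ c, A c i * u c = 0) :
    mk3 (n := n) u 0 0 0 (∑ c, u c) ∈ Sl (Lsp (vM m n) n 0 (start (vA A) (vb (n := n) b)) (drN m n))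
      (Xc (vM m n) (drN m n)) (vM m n + vM m n) (vM m n + vM m n + 1) 0 := by
  refine ⟨?_, ?_, ?_, ?_⟩
  · rw [mem_LspN]
    refine ⟨fun i => ?_, ?_, ?_⟩
    · rw [mk3_u, mk3_v]
      simp only [Pi.zero_apply, sub_self, mul_zero]
      rw [← hA i]
      exact Finset.sum_congr rfl fun c _ => by rw [mk3_y]
    · rw [mk3_q]
      symm
      refine Finset.sum_eq_zero fun k _ => ?_
      rw [mk3_u, mk3_v]
      simp
    · rw [mk3_nu]
      have e : ∑ k : Fin n, (mk3 (n := n) u 0 0 0 (∑ c, u c) (vM m n + (m + k)) +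
          mk3 (n := n) u 0 0 0 (∑ c, u c) (vM m n + (m + (n + k)))) = 0 := by
        refine Finset.sum_eq_zero fun k _ => ?_
        rw [mk3_u, mk3_v]
        simp
      rw [e, add_zero]
      exact Finset.sum_congr rfl fun c _ => by rw [mk3_y]
  · intro c hc
    rcases XcN_cases hc with ⟨d, rfl⟩ | ⟨k, rfl⟩ | ⟨k, rfl⟩
    · rw [mk3_y]
      exact hu d
    · rw [mk3_u]
      exact le_rfl
    · rw [mk3_v]
      exact le_rfl
  · rw [mk3_nu]
    exact h1
  · rw [mk3_q]

/-- The minor giving the entry of `b`, for the virtual input. -/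
theorem beg1N (hM : S_MOV) {m n E j : ℕ} (A : Fin m → Fin n → ℝ) (b : Fin m → ℝ)
    (W : List Mo) (B₀ B : List Bool) (hB : B = B₀.take m)
    (hT : Trm (vM m n) n 0 (start (vA A) (vb (n := n) b)) (drN m n) E W B₀) :
    (j < vM m n → start (vA A) (vb (n := n) b) [1, j] ≠ 0 →
      (∀ i < vM m n, |start (vA A) (vb (n := n) b) [1, i]| ≤
        |start (vA A) (vb (n := n) b) [1, j]|) →
      ∀ o, o = signOut (prV (vM m n) n (start (vA A) (vb (n := n) b)) 0
        ((t1 (vM m n) n j).2.1 ++ (t1 (vM m n) n j).2.2)) →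
      Inv (vM m n) n 1 (start (vA A) (vb (n := n) b)) (dr1 (vM m n) B) E
        (st1 (vM m n) n j o W B).2.1 (st1 (vM m n) n j o W B).2.2.1) ∧
    ((∃ x ∈ Lsp (vM m n) n 1 (start (vA A) (vb (n := n) b)) (dr1 (vM m n) B),
      (∀ c ∈ Xc (vM m n) (dr1 (vM m n) B), 0 ≤ x c) ∧ x (vM m n + vM m n) < 0) →
      ¬ ∃ z : Fin n → ℝ, ∀ c, b c ≤ ∑ i, A c i * z i) ∧
    ((∀ y ∈ Sl (Lsp (vM m n) n 1 (start (vA A) (vb (n := n) b)) (dr1 (vM m n) B))
      (Xc (vM m n) (dr1 (vM m n) B)) (vM m n + vM m n) (vM m n + vM m n + 1) 0,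
      y (vM m n + vM m n) = 0) → ∃ z : Fin n → ℝ, ∀ c, b c ≤ ∑ i, A c i * z i) := by
  obtain ⟨hT1, hT2, y, hyL, hy1, hy2, hyq, hynu⟩ := hT
  obtain ⟨hM1, hM2, hM3, hM4, hM5, hM6, hM7, hM8, hM9, hM10, hM11⟩ :=
    hM (vM m n) n (start (vA A) (vb (n := n) b))
  have hS : Short m B := by rw [hB]; exact short_take m B₀
  have hBB : ∀ c < m, B.getD c false = B₀.getD c false := fun c hc => by
    rw [hB]; exact take_getD B₀ hc
  have hv : vM m n = m + (n + n) := rfl
  have hrs0 : ∀ x : ℕ → ℝ, (∀ c ∈ Xc (vM m n) (dr1 (vM m n) B), 0 ≤ x c) →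
      ∀ c : Fin m, 0 ≤ rsN B x c := by
    intro x hx c
    unfold rsN
    split_ifs with h
    · exact hx c ((mem_XcB hS).2 ⟨c.2, h⟩)
    · exact le_rfl
  refine ⟨?_, ?_, ?_⟩
  · intro hj hbj hmax o ho
    have hG1 : ∀ E, MoG (vM m n) n (start (vA A) (vb (n := n) b)) E moOne := by
      intro E
      refine ⟨⟨Nat.zero_le _, Nat.zero_le _, Nat.zero_le _, Nat.zero_le _⟩, hM2, ?_⟩
      rw [hM1]
      exact one_pos
    have habs : |moV (vM m n) n (start (vA A) (vb (n := n) b)) (t1 (vM m n) n j)| =
        |start (vA A) (vb (n := n) b) [1, j]| := by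
      unfold t1
      rw [(hM9 _).1, mv_t1 _ hj, abs_mul, abs_pow, abs_neg, abs_one, one_pow, one_mul, abs_neg]
    have hne : moV (vM m n) n (start (vA A) (vb (n := n) b)) (t1 (vM m n) n j) ≠ 0 := by
      intro h
      rw [h, abs_zero] at habs
      exact hbj (abs_eq_zero.1 habs.symm)
    have hok : MoOK (vM m n) n (start (vA A) (vb (n := n) b)) (t1 (vM m n) n j) := (hM9 _).2
    obtain ⟨hf1, hf2, hf3⟩ := hM11 _ hok hne
    rw [← ho] at hf1 hf2
    set T := |start (vA A) (vb (n := n) b) [1, j]| with hTdef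
    have hTpos : 0 < T := abs_pos.2 hbj
    rw [habs] at hf2
    set W' := (List.range (vM m n + vM m n)).map fun c =>
      if (dr1 (vM m n) B).getD c true then moOne else W.getD c moOne with hW'
    have hW'get : ∀ c < vM m n + vM m n, W'.getD c moOne =
        if (dr1 (vM m n) B).getD c true = true then moOne else W.getD c moOne := by
      intro c hc
      rw [hW', List.getD_eq_getElem _ _ (by simpa using hc)]
      simp
    have hwf : ∀ c ∈ Xc (vM m n) (dr1 (vM m n) B), wf (vM m n) n
        (start (vA A) (vb (n := n) b)) (fixS (t1 (vM m n) n j) o) W' c =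
        moV (vM m n) n (start (vA A) (vb (n := n) b)) (W.getD c moOne) := by
      intro c hc
      have hc1 := (mem_XcB hS).1 hc
      have hc2 : (dr1 (vM m n) B).getD c true = false := by
        unfold Xc at hc
        exact (Finset.mem_filter.1 hc).2
      unfold wf wc
      rw [if_pos (by omega), hW'get c (by omega), if_neg (by rw [hc2]; simp)]
    have hb : ∀ c : Fin m, |b c| ≤ T := by
      intro c
      have h1 : (c : ℕ) < vM m n := by have := c.2; omega
      have := hmax c h1
      rw [start1 (vA A) (vb (n := n) b) ⟨c, h1⟩] at this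
      unfold vb at this
      rw [dif_pos c.2] at this
      exact this
    have hq : ∀ u : Fin m → ℝ, (∀ c, 0 ≤ u c) → ∑ c, u c ≤ 1 →
        |∑ c, b c * u c| ≤ T := by
      intro u hu0 hu1
      calc |∑ c, b c * u c| ≤ ∑ c, |b c * u c| := Finset.abs_sum_le_sum_abs _ _
        _ ≤ ∑ c, T * u c := by
          refine Finset.sum_le_sum fun c _ => ?_
          rw [abs_mul, abs_of_nonneg (hu0 c)]
          exact mul_le_mul_of_nonneg_right (hb c) (hu0 c)
        _ = T * ∑ c, u c := by rw [Finset.mul_sum]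
        _ ≤ T := by nlinarith
    refine ⟨?_, ?_, ?_, ?_, ?_⟩
    · show W'.length = vM m n + vM m n
      rw [hW']
      simp
    · refine ⟨⟨Nat.zero_le _, Nat.zero_le _, ?_, Nat.zero_le _⟩, hf1, ?_⟩
      · show 1 ≤ 4 * cD (vM m n) n
        have := cD_ge (vM m n) n
        omega
      · show 0 < moV (vM m n) n (start (vA A) (vb (n := n) b)) (fixS (t1 (vM m n) n j) o)
        rw [hf2]
        exact hTpos
    · intro c hc
      show MoG (vM m n) n (start (vA A) (vb (n := n) b)) E (W'.getD c moOne)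
      rw [hW'get c hc]
      split_ifs
      · exact hG1 E
      · exact hT1 c hc
    · show Bds _ _ _ _ (moV (vM m n) n (start (vA A) (vb (n := n) b)) (fixS (t1 (vM m n) n j) o))
        (wf (vM m n) n (start (vA A) (vb (n := n) b)) (fixS (t1 (vM m n) n j) o) W') _
      rw [hf2]
      intro x hx
      obtain ⟨hx1, hx2, hx3, hx4⟩ := hx
      rw [mem_LspB A b hS] at hx1
      obtain ⟨hL1, hL2, hL3⟩ := hx1
      have hr := hrs0 x hx2
      rw [hL3] at hx3
      have h1 := hT2 _ (mem_SlN A b (rsN B x) hr hx3 hL1)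
      refine ⟨?_, ?_, ?_⟩
      · intro c hc
        have hc1 := (mem_XcB hS).1 hc
        rw [hwf c hc]
        have h2 := h1.1 c (mem_XcN.2 (Or.inl hc1.1))
        have h3 : mk3 (n := n) (rsN B x : Fin m → ℝ) 0 0 0 (∑ c : Fin m, rsN B x c) c = x c := by
          have h4 := mk3_y (n := n) (rsN B x : Fin m → ℝ) 0 0 0 (∑ c : Fin m, rsN B x c) ⟨c, hc1.1⟩
          refine h4.trans ?_
          unfold rsN
          rw [if_pos hc1.2]
        rw [h3] at h2
        exact h2
      · rw [hL2]
        have h2 := hq _ hr hx3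
        rw [abs_le] at h2
        have h3 := M0R_ge (vM m n) n
        nlinarith [h2.2]
      · rw [hL3]
        exact Finset.sum_nonneg fun c _ => hr c
    · intro c hc
      show ∃ x ∈ Sl _ _ _ _ (moV (vM m n) n (start (vA A) (vb (n := n) b))
        (fixS (t1 (vM m n) n j) o)),
        dlR (vM m n) n * wf (vM m n) n (start (vA A) (vb (n := n) b))
          (fixS (t1 (vM m n) n j) o) W' c ≤ x c
      rw [hf2]
      rw [mem_LspN] at hyL
      obtain ⟨hL1, hL2, hL3⟩ := hyL
      have hlt : ∀ c ∈ Xc (vM m n) (drN m n), c < vM m n + vM m n := by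
        intro c hc
        unfold Xc at hc
        rw [Finset.mem_filter, Finset.mem_range] at hc
        exact hc.1
      have hy0 : ∀ c ∈ Xc (vM m n) (drN m n), 0 ≤ y c := by
        intro c hc
        by_cases h : B₀.getD c false = true
        · have h1 := hy1 c hc h
          have h2 := (hT1 c (hlt c hc)).2.2
          have h3 : 0 < epR (vM m n) n := by unfold epR; positivity
          have : 0 ≤ epR (vM m n) n / 2 * moV (vM m n) n (start (vA A) (vb (n := n) b))
            (W.getD c moOne) := by positivity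
          linarith
        · rw [hy2 c hc (by simpa using h)]
      have hu0 : ∀ k : Fin n, y (vM m n + (m + k)) + y (vM m n + (m + (n + k))) = 0 := by
        have h1 : ∑ k : Fin n, (y (vM m n + (m + k)) + y (vM m n + (m + (n + k)))) = 0 := by
          rw [← hL2, hyq]
        have h2 := (Finset.sum_eq_zero_iff_of_nonneg (fun k _ =>
          add_nonneg (hy0 _ (XcN_u k)) (hy0 _ (XcN_v k)))).1 h1
        exact fun k => h2 k (Finset.mem_univ k)
      have hyu : ∀ k : Fin n, y (vM m n + (m + k)) = 0 := fun k => by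
        have h1 := hu0 k
        have h2 := hy0 _ (XcN_u (m := m) k)
        have h3 := hy0 _ (XcN_v (m := m) k)
        linarith
      have hyv : ∀ k : Fin n, y (vM m n + (m + (n + k))) = 0 := fun k => by
        have h1 := hu0 k
        have h2 := hy0 _ (XcN_u (m := m) k)
        have h3 := hy0 _ (XcN_v (m := m) k)
        linarith
      have hrsy : ∀ c : Fin m, rsN B y c = y c := by
        intro c
        unfold rsN
        split_ifs with h
        · rfl
        · rw [hBB c c.2] at h
          exact (hy2 c (XcN_y c) (by simpa using h)).symm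
      set yy : ℕ → ℝ := mk3 (n := n) (rsN B y : Fin m → ℝ) 0 0 (- ∑ c, b c * rsN B y c)
        (∑ c : Fin m, rsN B y c) with hyy
      have hrs : (rsN B yy : Fin m → ℝ) = (rsN B y : Fin m → ℝ) := by
        funext c
        unfold rsN
        split_ifs with h
        · rw [hyy, mk3_y]
          unfold rsN
          rw [if_pos h]
        · rfl
      have hr : ∀ c : Fin m, 0 ≤ rsN B y c := by
        intro c
        rw [hrsy]
        exact hy0 c (XcN_y c)
      have hsum : ∑ c : Fin m, rsN B y c ≤ 1 := by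
        refine le_trans (le_of_eq ?_) hynu
        rw [hL3, Finset.sum_eq_zero (s := (Finset.univ : Finset (Fin n))), add_zero]
        · exact Finset.sum_congr rfl fun c _ => hrsy c
        · intro k _
          exact hu0 k
      have hmem : yy ∈ Sl (Lsp (vM m n) n 1 (start (vA A) (vb (n := n) b)) (dr1 (vM m n) B))
          (Xc (vM m n) (dr1 (vM m n) B)) (vM m n + vM m n) (vM m n + vM m n + 1) T := by
       refine ⟨?_, ?_, ?_, ?_⟩
       · rw [mem_LspB A b hS, hrs]
         refine ⟨fun i => ?_, mk3_q _ _ _ _ _, mk3_nu _ _ _ _ _⟩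
         have h1 := hL1 i
         rw [hyu, hyv, sub_self, mul_zero] at h1
         rw [← h1]
         refine Finset.sum_congr rfl fun c _ => ?_
         rw [hrsy]
       · intro c' hc'
         have h1 := (mem_XcB hS).1 hc'
         have h4 := mk3_y (n := n) (rsN B y : Fin m → ℝ) 0 0 (- ∑ c, b c * rsN B y c)
           (∑ c : Fin m, rsN B y c) ⟨c', h1.1⟩
         rw [hyy]
         refine le_trans (hr ⟨c', h1.1⟩) (le_of_eq h4.symm)
       · rw [hyy, mk3_nu]
         exact hsum
       · rw [hyy, mk3_q]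
         have h2 := hq _ hr hsum
         rw [abs_le] at h2
         linarith [h2.1]
      refine ⟨yy, hmem, ?_⟩
      rw [hwf c hc]
      have h1 := (mem_XcB hS).1 hc
      have h4 := mk3_y (n := n) (rsN B y : Fin m → ℝ) 0 0 (- ∑ c, b c * rsN B y c)
           (∑ c : Fin m, rsN B y c) ⟨c, h1.1⟩
      have h5 : yy c = y c := by
        rw [hyy]
        exact h4.trans (hrsy ⟨c, h1.1⟩)
      rw [h5]
      have h6 := hy1 c (mem_XcN.2 (Or.inl h1.1)) (by rw [← hBB c h1.1]; exact h1.2)
      have h7 := (hT1 c (by omega)).2.2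
      have h8 := dlR_le (vM m n) n
      refine le_trans ?_ h6
      exact mul_le_mul_of_nonneg_right h8 h7.le
  · rintro ⟨x, hx1, hx2, hx3⟩ ⟨z, hz⟩
    rw [mem_LspB A b hS] at hx1
    obtain ⟨hL1, hL2, hL3⟩ := hx1
    have hr := hrs0 x hx2
    rw [hL2] at hx3
    have h1 : ∑ c, b c * rsN B x c ≤ 0 := by
      calc ∑ c, b c * rsN B x c ≤ ∑ c : Fin m, (∑ i, A c i * z i) * rsN B x c := by
            refine Finset.sum_le_sum fun c _ => ?_
            exact mul_le_mul_of_nonneg_right (hz c) (hr c)
        _ = ∑ c : Fin m, ∑ i, z i * (A c i * rsN B x c) := by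
            refine Finset.sum_congr rfl fun c _ => ?_
            rw [Finset.sum_mul]
            exact Finset.sum_congr rfl fun i _ => by ring
        _ = ∑ i, z i * ∑ c : Fin m, A c i * rsN B x c := by
            rw [Finset.sum_comm]
            exact Finset.sum_congr rfl fun i _ => by rw [Finset.mul_sum]
        _ = 0 := by
            refine Finset.sum_eq_zero fun i _ => ?_
            rw [hL1 i, mul_zero]
    linarith
  · intro h
    by_contra hno
    have hF := (t_FARKAS m n (A, b)).1 (by
      rintro ⟨z, hz⟩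
      exact hno ⟨z, hz⟩)
    obtain ⟨u, hu0, huA, hub⟩ := hF
    have hs : 0 < ∑ c, u c := by
      by_contra hle
      have h1 : ∑ c, u c = 0 := le_antisymm (not_lt.1 hle) (Finset.sum_nonneg fun c _ => hu0 c)
      have h2 := (Finset.sum_eq_zero_iff_of_nonneg (fun c _ => hu0 c)).1 h1
      have h3 : ∑ i, u i * (A, b).2 i = 0 :=
        Finset.sum_eq_zero fun c hc => by rw [h2 c hc, zero_mul]
      rw [h3] at hub
      exact lt_irrefl _ hub
    set s := ∑ c, u c with hsdef
    set v : Fin m → ℝ := fun c => u c / s with hv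
    have hv0 : ∀ c, 0 ≤ v c := fun c => div_nonneg (hu0 c) hs.le
    have hv1 : ∑ c, v c = 1 := by
      simp only [hv]
      rw [← Finset.sum_div, div_self hs.ne']
    have hvA : ∀ i, ∑ c, A c i * v c = 0 := by
      intro i
      have h1 := huA i
      have h2 : ∑ c, A c i * v c = (∑ c, u c * A c i) / s := by
        rw [Finset.sum_div]
        refine Finset.sum_congr rfl fun c _ => ?_
        simp only [hv]
        ring
      rw [h2, h1, zero_div]
    have hvb : 0 < ∑ c, b c * v c := by
      have h2 : ∑ c, b c * v c = (∑ c, u c * b c) / s := by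
        rw [Finset.sum_div]
        refine Finset.sum_congr rfl fun c _ => ?_
        simp only [hv]
        ring
      rw [h2]
      exact div_pos hub hs
    have h1 := hT2 _ (mem_SlN A b v hv0 hv1.le hvA)
    have hvB : ∀ c : Fin m, B.getD c false ≠ true → v c = 0 := by
      intro c hc
      rw [hBB c c.2] at hc
      have h2 := h1.2.1 c (XcN_y c) (by simpa using hc)
      rwa [mk3_y] at h2
    set yy : ℕ → ℝ := mk3 (n := n) v 0 0 (- ∑ c, b c * v c) (∑ c, v c) with hyy
    have hrs : (rsN B yy : Fin m → ℝ) = v := by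
      funext c
      unfold rsN
      split_ifs with h
      · rw [hyy, mk3_y]
      · exact (hvB c h).symm
    have h2 := h yy (by
      refine ⟨?_, ?_, ?_, ?_⟩
      · rw [mem_LspB A b hS, hrs]
        exact ⟨hvA, mk3_q _ _ _ _ _, mk3_nu _ _ _ _ _⟩
      · intro c hc
        have h3 := (mem_XcB hS).1 hc
        have h4 := mk3_y (n := n) v 0 0 (- ∑ c, b c * v c) (∑ c, v c) ⟨c, h3.1⟩
        rw [hyy]
        exact le_trans (hv0 ⟨c, h3.1⟩) (le_of_eq h4.symm)
      · rw [hyy, mk3_nu, hv1]
      · rw [hyy, mk3_q]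
        linarith)
    rw [hyy, mk3_q] at h2
    linarith

end Pool.Agent.V8H17.LP
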