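import Mathlib.Algebra.Order.BigOperators.Group.Finset
import Mathlib.Algebra.BigOperators.Field
import Mathlib.Data.Real.Basic
import Mathlib.Logic.Relation
import Mathlib.Tactic

set_option autoImplicit false

/-!
# Flows in a substochastic network

The transition probabilities are zero or at least `ε`, the leaks are arbitrary.
-/

namespace Pool.Agent.V8H17.LP

open Finset

variable {S : Type} [Fintype S] [DecidableEq S]

/-- Reachability. -/
def Rch (P : S → S → ℝ) (i j : S) : Prop := Relation.ReflTransGen (fun a b => 0 < P a b) i j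

/-- A flow `f` with the inflow `w`. -/
structure Flw (ε : ℝ) (P : S → S → ℝ) (w f : S → ℝ) : Prop where
  eps : 0 < ε
  eps1 : ε ≤ 1
  zero_or : ∀ i j, P i j = 0 ∨ ε ≤ P i j
  row : ∀ i, ∑ j, P i j ≤ 1
  w0 : ∀ i, 0 ≤ w i
  f0 : ∀ i, 0 ≤ f i
  eq : ∀ j, f j = w j + ∑ i, f i * P i j

namespace Flw

variable {ε : ℝ} {P : S → S → ℝ} {w f : S → ℝ} (h : Flw ε P w f)

include h

theorem P0 (i j : S) : 0 ≤ P i j := by
  rcases h.zero_or i j with h1 | h1
  · exact h1.ge
  · exact h.eps.le.trans h1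

theorem Ppos {i j : S} (hp : 0 < P i j) : ε ≤ P i j :=
  (h.zero_or i j).resolve_left hp.ne'

theorem le_step (i j : S) : f i * P i j ≤ f j := by
  rw [h.eq j]
  have h1 := Finset.single_le_sum (f := fun i => f i * P i j)
    (fun i _ => mul_nonneg (h.f0 i) (h.P0 i j)) (Finset.mem_univ i)
  have h2 := h.w0 j
  linarith

theorem w_le (j : S) : w j ≤ f j := by
  rw [h.eq j]
  have : 0 ≤ ∑ i, f i * P i j := Finset.sum_nonneg fun i _ => mul_nonneg (h.f0 i) (h.P0 i j)
  linarith

/-- Along a path, the flow decreases at most by the factor `ε ^ n`. -/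
theorem reach {i j : S} (hij : Rch P i j) : ε ^ Fintype.card S * f i ≤ f j := by
  classical
  set T : ℕ → Finset S := fun k => Finset.univ.filter fun s => ε ^ k * f i ≤ f s with hT
  have hmono : ∀ k, T k ⊆ T (k + 1) := by
    intro k s hs
    rw [hT, Finset.mem_filter] at hs ⊢
    refine ⟨Finset.mem_univ _, le_trans ?_ hs.2⟩
    apply mul_le_mul_of_nonneg_right _ (h.f0 i)
    rw [pow_succ]
    exact mul_le_of_le_one_right (pow_nonneg h.eps.le _) h.eps1
  have hiT : i ∈ T 0 := by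
    rw [hT, Finset.mem_filter]
    simp
  have hex : ∃ k < Fintype.card S, T k = T (k + 1) := by
    by_contra hno
    push Not at hno
    have key : ∀ k ≤ Fintype.card S, k + 1 ≤ (T k).card := by
      intro k
      induction k with
      | zero =>
        intro _
        exact Finset.card_pos.2 ⟨i, hiT⟩
      | succ k ih =>
        intro hk
        have h1 := ih (by omega)
        have h2 : T k ⊂ T (k + 1) :=
          (Finset.ssubset_iff_subset_ne).2 ⟨hmono k, hno k (by omega)⟩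
        have h3 := Finset.card_lt_card h2
        omega
    have h1 := key _ le_rfl
    have h2 := Finset.card_le_univ (T (Fintype.card S))
    omega
  obtain ⟨k, hk, hTk⟩ := hex
  have hik : i ∈ T k := by
    have : ∀ k, i ∈ T k := fun k => by
      induction k with
      | zero => exact hiT
      | succ k ih => exact hmono k ih
    exact this k
  have hclosed : ∀ a b, a ∈ T k → 0 < P a b → b ∈ T k := by
    intro a b ha hab
    rw [hTk, hT, Finset.mem_filter]
    rw [hT, Finset.mem_filter] at ha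
    refine ⟨Finset.mem_univ _, ?_⟩
    have h1 := h.le_step a b
    have h2 := h.Ppos hab
    calc ε ^ (k + 1) * f i = ε ^ k * f i * ε := by ring
      _ ≤ f a * ε := mul_le_mul_of_nonneg_right ha.2 h.eps.le
      _ ≤ f a * P a b := mul_le_mul_of_nonneg_left h2 (h.f0 a)
      _ ≤ f b := h1
  have hj : j ∈ T k := by
    unfold Rch at hij
    induction hij with
    | refl => exact hik
    | tail _ hbc ih => exact hclosed _ _ ih hbc
  rw [hT, Finset.mem_filter] at hj
  refine le_trans ?_ hj.2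
  apply mul_le_mul_of_nonneg_right _ (h.f0 i)
  exact pow_le_pow_of_le_one h.eps.le h.eps1 hk.le

/-- Balance of a set which is closed under predecessors. -/
theorem bal (U : Finset S) (hU : ∀ i j, j ∈ U → 0 < P i j → i ∈ U) :
    ∑ j ∈ U, w j = ∑ i ∈ U, f i * (1 - ∑ j ∈ U, P i j) := by
  have h1 : ∑ j ∈ U, f j = ∑ j ∈ U, w j + ∑ j ∈ U, ∑ i ∈ U, f i * P i j := by
    rw [← Finset.sum_add_distrib]
    refine Finset.sum_congr rfl fun j hj => ?_
    rw [h.eq j]
    congr 1
    symm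
    refine Finset.sum_subset (Finset.subset_univ _) fun i _ hi => ?_
    have : ¬ 0 < P i j := fun hp => hi (hU i j hj hp)
    rw [le_antisymm (not_lt.1 this) (h.P0 i j), mul_zero]
  have h2 : ∑ j ∈ U, ∑ i ∈ U, f i * P i j = ∑ i ∈ U, f i * ∑ j ∈ U, P i j := by
    rw [Finset.sum_comm]
    exact Finset.sum_congr rfl fun i _ => by rw [Finset.mul_sum]
  rw [h2] at h1
  have h3 : ∑ i ∈ U, f i * (1 - ∑ j ∈ U, P i j) = ∑ i ∈ U, f i - ∑ i ∈ U, f i * ∑ j ∈ U, P i j := by
    rw [← Finset.sum_sub_distrib]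
    exact Finset.sum_congr rfl fun i _ => by ring
  rw [h3]
  linarith

theorem sub_le (i : S) (U : Finset S) : ∑ j ∈ U, P i j ≤ 1 :=
  (Finset.sum_le_sum_of_subset_of_nonneg (Finset.subset_univ U)
    fun j _ _ => h.P0 i j).trans (h.row i)

/-- The size of the flow through `s`, up to a factor, is the maximal inflow at an ancestor, or the
quotient of the latter by a leak. -/
theorem size {s l : S} (hl : Rch P l s) (hwl : 0 < w l) : ∃ (l₀ i₀ : S) (θ : ℝ), 0 < w l₀ ∧
    0 < θ ∧ (θ = 1 ∨ (θ = 1 - ∑ j, P i₀ j ∧ 0 < f i₀)) ∧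
    f s * θ * ε ^ (Fintype.card S + 1) ≤ Fintype.card S * w l₀ ∧
    ε ^ (2 * Fintype.card S + 1) * w l₀ ≤ Fintype.card S * (f s * θ) := by
  classical
  set n := Fintype.card S with hn
  have hε0 := h.eps
  have hεn : 0 < ε ^ n := pow_pos hε0 n
  -- the ancestors and the class of `s`
  set Anc : Finset S := Finset.univ.filter fun i => Rch P i s with hAnc
  set C : Finset S := Finset.univ.filter fun i => Rch P i s ∧ Rch P s i with hC
  set Q : Finset S := Anc \ C with hQ
  have mAnc : ∀ i, i ∈ Anc ↔ Rch P i s := fun i => by simp [hAnc]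
  have mC : ∀ i, i ∈ C ↔ Rch P i s ∧ Rch P s i := fun i => by simp [hC]
  have mQ : ∀ i, i ∈ Q ↔ Rch P i s ∧ ¬ Rch P s i := fun i => by
    rw [hQ, Finset.mem_sdiff, mAnc, mC]
    tauto
  have hsC : s ∈ C := (mC s).2 ⟨Relation.ReflTransGen.refl, Relation.ReflTransGen.refl⟩
  have hpred : ∀ i j, 0 < P i j → Rch P j s → Rch P i s := fun i j hp hj =>
    Relation.ReflTransGen.head hp hj
  have hQcl : ∀ i j, j ∈ Q → 0 < P i j → i ∈ Q := by
    intro i j hj hp
    rw [mQ] at hj ⊢
    exact ⟨hpred i j hp hj.1, fun hsi => hj.2 (Relation.ReflTransGen.tail hsi hp)⟩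
  have hAQ : Anc = C ∪ Q := by
    rw [hQ]
    rw [Finset.union_sdiff_of_subset]
    intro i hi
    rw [mAnc]
    exact ((mC i).1 hi).1
  have hCQ : Disjoint C Q := by
    rw [hQ]
    exact Finset.disjoint_sdiff
  -- the inflow into the class
  set I : ℝ := ∑ i ∈ C, f i * (1 - ∑ k ∈ C, P i k) with hI
  have hI1 : I = ∑ k ∈ C, w k + ∑ k ∈ C, ∑ i ∈ Q, f i * P i k := by
    have h1 : ∀ k ∈ C, ∑ i, f i * P i k = ∑ i ∈ C, f i * P i k + ∑ i ∈ Q, f i * P i k := by
      intro k hk
      rw [← Finset.sum_union hCQ, ← hAQ]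
      symm
      refine Finset.sum_subset (Finset.subset_univ _) fun i _ hi => ?_
      have : ¬ 0 < P i k := fun hp => hi ((mAnc i).2 (hpred i k hp ((mC k).1 hk).1))
      rw [le_antisymm (not_lt.1 this) (h.P0 i k), mul_zero]
    have h2 : ∑ k ∈ C, f k = ∑ k ∈ C, w k + (∑ k ∈ C, ∑ i ∈ C, f i * P i k +
        ∑ k ∈ C, ∑ i ∈ Q, f i * P i k) := by
      rw [← Finset.sum_add_distrib, ← Finset.sum_add_distrib]
      refine Finset.sum_congr rfl fun k hk => ?_
      rw [h.eq k, h1 k hk]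
    have h3 : ∑ k ∈ C, ∑ i ∈ C, f i * P i k = ∑ i ∈ C, f i * ∑ k ∈ C, P i k := by
      rw [Finset.sum_comm]
      exact Finset.sum_congr rfl fun i _ => by rw [Finset.mul_sum]
    have h4 : I = ∑ i ∈ C, f i - ∑ i ∈ C, f i * ∑ k ∈ C, P i k := by
      rw [hI, ← Finset.sum_sub_distrib]
      exact Finset.sum_congr rfl fun i _ => by ring
    rw [h4]
    rw [h3] at h2
    linarith
  have he0 : ∀ i, 0 ≤ 1 - ∑ k ∈ C, P i k := fun i => by
    have := h.sub_le i C
    linarith
  -- the maximal inflow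
  obtain ⟨l₀, hl₀, hmax⟩ := Finset.exists_max_image Anc w ⟨l, (mAnc l).2 hl⟩
  have hwl₀ : 0 < w l₀ := lt_of_lt_of_le hwl (hmax l ((mAnc l).2 hl))
  have hIW : I ≤ n * w l₀ := by
    have h1 : ∑ k ∈ C, ∑ i ∈ Q, f i * P i k ≤ ∑ i ∈ Q, w i := by
      rw [h.bal Q hQcl, Finset.sum_comm]
      refine Finset.sum_le_sum fun i _ => ?_
      rw [← Finset.mul_sum]
      apply mul_le_mul_of_nonneg_left _ (h.f0 i)
      have h2 := h.sub_le i (C ∪ Q)
      rw [Finset.sum_union hCQ] at h2
      linarith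
    have h2 : I ≤ ∑ i ∈ Anc, w i := by
      rw [hI1, hAQ, Finset.sum_union hCQ]
      linarith
    refine h2.trans ?_
    calc ∑ i ∈ Anc, w i ≤ ∑ _i ∈ Anc, w l₀ := Finset.sum_le_sum fun i hi => hmax i hi
      _ = Anc.card * w l₀ := by rw [Finset.sum_const, nsmul_eq_mul]
      _ ≤ n * w l₀ := by
        apply mul_le_mul_of_nonneg_right _ hwl₀.le
        exact_mod_cast Finset.card_le_univ Anc
  have hnn1 : 0 ≤ ∑ k ∈ C, w k := Finset.sum_nonneg fun k _ => h.w0 k
  have hnn2 : 0 ≤ ∑ k ∈ C, ∑ i ∈ Q, f i * P i k :=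
    Finset.sum_nonneg fun k _ => Finset.sum_nonneg fun i _ => mul_nonneg (h.f0 i) (h.P0 i k)
  have hIL : ε ^ (n + 1) * w l₀ ≤ I := by
    have key : ∀ x, Rch P x s → x ∈ C ∨ ∃ i k, Rch P x i ∧ i ∈ Q ∧ k ∈ C ∧ 0 < P i k := by
      intro x hx
      unfold Rch at hx
      induction hx using Relation.ReflTransGen.head_induction_on with
      | refl => exact Or.inl hsC
      | head hab hbs ih =>
        rename_i a b
        by_cases ha : a ∈ C
        · exact Or.inl ha
        · right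
          have haQ : a ∈ Q := by
            rw [hQ, Finset.mem_sdiff, mAnc]
            exact ⟨hpred a b hab hbs, ha⟩
          rcases ih with hb | ⟨i, k, h1, h2, h3, h4⟩
          · exact ⟨a, b, Relation.ReflTransGen.refl, haQ, hb, hab⟩
          · exact ⟨i, k, Relation.ReflTransGen.head hab h1, h2, h3, h4⟩
    have hε1 : ε ^ (n + 1) ≤ 1 := pow_le_one₀ hε0.le h.eps1
    rcases key l₀ ((mAnc l₀).1 hl₀) with h1 | ⟨i, k, h1, h2, h3, h4⟩
    · rw [hI1]
      have h5 := Finset.single_le_sum (f := w) (fun k _ => h.w0 k) h1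
      have h6 : ε ^ (n + 1) * w l₀ ≤ w l₀ := mul_le_of_le_one_left hwl₀.le hε1
      linarith
    · rw [hI1]
      have h5 : f i * P i k ≤ ∑ k ∈ C, ∑ i ∈ Q, f i * P i k := by
        refine le_trans ?_ (Finset.single_le_sum (f := fun k => ∑ i ∈ Q, f i * P i k)
          (fun k _ => Finset.sum_nonneg fun i _ => mul_nonneg (h.f0 i) (h.P0 i k)) h3)
        exact Finset.single_le_sum (f := fun i => f i * P i k)
          (fun i _ => mul_nonneg (h.f0 i) (h.P0 i k)) h2
      have h6 := h.reach h1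
      have h7 := h.Ppos h4
      have h8 := h.w_le l₀
      have h9 : ε ^ (n + 1) * w l₀ ≤ f i * P i k := by
        calc ε ^ (n + 1) * w l₀ = (ε ^ n * w l₀) * ε := by ring
          _ ≤ (ε ^ n * f l₀) * ε := by
            apply mul_le_mul_of_nonneg_right _ hε0.le
            exact mul_le_mul_of_nonneg_left h8 hεn.le
          _ ≤ f i * P i k := mul_le_mul h6 h7 hε0.le (h.f0 i)
      linarith
  have hI0 : 0 < I := lt_of_lt_of_le (mul_pos (pow_pos hε0 _) hwl₀) hIL
  -- the flow in the class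
  have hfC : ∀ i ∈ C, ε ^ n * f i ≤ f s ∧ ε ^ n * f s ≤ f i := fun i hi =>
    ⟨h.reach ((mC i).1 hi).1, h.reach ((mC i).1 hi).2⟩
  have hcard : (C.card : ℝ) ≤ n := by exact_mod_cast Finset.card_le_univ C
  have fin : ∀ θ : ℝ, 0 < θ → ε ^ (n + 1) * (f s * θ) ≤ I → ε ^ n * I ≤ n * (f s * θ) →
      f s * θ * ε ^ (n + 1) ≤ n * w l₀ ∧ ε ^ (2 * n + 1) * w l₀ ≤ n * (f s * θ) := by
    intro θ _ h1 h2
    refine ⟨by linarith, ?_⟩
    calc ε ^ (2 * n + 1) * w l₀ = ε ^ n * (ε ^ (n + 1) * w l₀) := by ring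
      _ ≤ ε ^ n * I := mul_le_mul_of_nonneg_left hIL hεn.le
      _ ≤ _ := h2
  by_cases hcase : ∃ i ∈ C, ∃ k, k ∉ C ∧ 0 < P i k
  · obtain ⟨i, hi, k, hk, hp⟩ := hcase
    refine ⟨l₀, s, 1, hwl₀, one_pos, Or.inl rfl, ?_⟩
    refine fin 1 one_pos ?_ ?_
    · have h1 : ε ≤ 1 - ∑ k ∈ C, P i k := by
        have h2 := h.sub_le i (insert k C)
        rw [Finset.sum_insert hk] at h2
        have := h.Ppos hp
        linarith
      have h2 : f i * (1 - ∑ k ∈ C, P i k) ≤ I := by
        rw [hI]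
        exact Finset.single_le_sum (f := fun i => f i * (1 - ∑ k ∈ C, P i k))
          (fun i _ => mul_nonneg (h.f0 i) (he0 i)) hi
      calc ε ^ (n + 1) * (f s * 1) = (ε ^ n * f s) * ε := by ring
        _ ≤ f i * ε := mul_le_mul_of_nonneg_right (hfC i hi).2 hε0.le
        _ ≤ f i * (1 - ∑ k ∈ C, P i k) := mul_le_mul_of_nonneg_left h1 (h.f0 i)
        _ ≤ I := h2
    · rw [hI, Finset.mul_sum]
      calc ∑ i ∈ C, ε ^ n * (f i * (1 - ∑ k ∈ C, P i k)) ≤ ∑ _i ∈ C, f s := by
            refine Finset.sum_le_sum fun i hi => ?_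
            have h1 := (hfC i hi).1
            have h2 : 1 - ∑ k ∈ C, P i k ≤ 1 := by
              have : 0 ≤ ∑ k ∈ C, P i k := Finset.sum_nonneg fun k _ => h.P0 i k
              linarith
            calc ε ^ n * (f i * (1 - ∑ k ∈ C, P i k)) =
                (ε ^ n * f i) * (1 - ∑ k ∈ C, P i k) := by ring
              _ ≤ (ε ^ n * f i) * 1 :=
                mul_le_mul_of_nonneg_left h2 (mul_nonneg hεn.le (h.f0 i))
              _ ≤ f s := by rw [mul_one]; exact h1
        _ = C.card * f s := by rw [Finset.sum_const, nsmul_eq_mul]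
        _ ≤ n * (f s * 1) := by
            rw [mul_one]
            exact mul_le_mul_of_nonneg_right hcard (h.f0 s)
  · push Not at hcase
    have he : ∀ i ∈ C, ∑ k ∈ C, P i k = ∑ k, P i k := by
      intro i hi
      refine Finset.sum_subset (Finset.subset_univ _) fun k _ hk => ?_
      exact le_antisymm (hcase i hi k hk) (h.P0 i k)
    obtain ⟨i₀, hi₀, hm⟩ := Finset.exists_max_image C (fun i => 1 - ∑ k, P i k) ⟨s, hsC⟩
    set θ := 1 - ∑ k, P i₀ k with hθ
    have hI2 : I = ∑ i ∈ C, f i * (1 - ∑ k, P i k) := by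
      rw [hI]
      exact Finset.sum_congr rfl fun i hi => by rw [he i hi]
    have hd0 : ∀ i, 0 ≤ 1 - ∑ k, P i k := fun i => by
      have := h.row i
      linarith
    have hup : ε ^ n * I ≤ n * (f s * θ) := by
      rw [hI2, Finset.mul_sum]
      calc ∑ i ∈ C, ε ^ n * (f i * (1 - ∑ k, P i k)) ≤ ∑ _i ∈ C, f s * θ := by
            refine Finset.sum_le_sum fun i hi => ?_
            calc ε ^ n * (f i * (1 - ∑ k, P i k)) = (ε ^ n * f i) * (1 - ∑ k, P i k) := by ring
              _ ≤ f s * θ := mul_le_mul (hfC i hi).1 (hm i hi) (hd0 i) (h.f0 s)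
        _ = C.card * (f s * θ) := by rw [Finset.sum_const, nsmul_eq_mul]
        _ ≤ n * (f s * θ) :=
            mul_le_mul_of_nonneg_right hcard (mul_nonneg (h.f0 s) (hd0 i₀))
    have hθ0 : 0 < θ := by
      by_contra hle
      have h1 : θ = 0 := le_antisymm (not_lt.1 hle) (hd0 i₀)
      rw [h1, mul_zero, mul_zero] at hup
      have := mul_pos hεn hI0
      linarith
    have hfs : 0 < f s := by
      by_contra hle
      have h1 : f s = 0 := le_antisymm (not_lt.1 hle) (h.f0 s)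
      rw [h1, zero_mul, mul_zero] at hup
      have := mul_pos hεn hI0
      linarith
    have hfi₀ : 0 < f i₀ := lt_of_lt_of_le (mul_pos hεn hfs) (hfC i₀ hi₀).2
    refine ⟨l₀, i₀, θ, hwl₀, hθ0, Or.inr ⟨rfl, hfi₀⟩, ?_⟩
    refine fin θ hθ0 ?_ hup
    have h2 : f i₀ * (1 - ∑ k, P i₀ k) ≤ I := by
      rw [hI2]
      exact Finset.single_le_sum (f := fun i => f i * (1 - ∑ k, P i k))
        (fun i _ => mul_nonneg (h.f0 i) (hd0 i)) hi₀
    calc ε ^ (n + 1) * (f s * θ) = ε * ((ε ^ n * f s) * θ) := by ring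
      _ ≤ 1 * ((ε ^ n * f s) * θ) := by
          apply mul_le_mul_of_nonneg_right h.eps1
          positivity
      _ = (ε ^ n * f s) * θ := one_mul _
      _ ≤ f i₀ * θ := mul_le_mul_of_nonneg_right (hfC i₀ hi₀).2 hθ0.le
      _ ≤ I := h2

end Flw

end Pool.Agent.V8H17.LP
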