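import Pool.Agent.V8H17.LP.Net

set_option autoImplicit false

/-!
# The sizes of the entries of elementary vectors of a network
-/

namespace Pool.Agent.V8H17.LP

open Finset

variable {R S : Type} [Fintype R] [DecidableEq R] [Fintype S] [DecidableEq S]

/-- The state `j` is active. -/
def Act (σ : R → Option S) (v : R → ℝ) (j : S) : Prop := ∃ r, v r ≠ 0 ∧ σ r = some j

/-- The flow defined by a vector of minimal support. -/
structure FlowOf (ε : ℝ) (σ : R → Option S) (Q : R → S → ℝ) (v : R → ℝ) (c : S → R)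
    (P : S → S → ℝ) (w f : S → ℝ) : Prop where
  c1 : ∀ j, Act σ v j → v (c j) ≠ 0 ∧ σ (c j) = some j
  c2 : ∀ r j, v r ≠ 0 → σ r = some j → r = c j
  P1 : ∀ j, Act σ v j → P j = Q (c j)
  P2 : ∀ j, ¬ Act σ v j → P j = 0
  f1 : ∀ j, Act σ v j → f j = v (c j)
  f2 : ∀ j, ¬ Act σ v j → f j = 0
  w1 : ∀ j, w j = ∑ r, if σ r = none then v r * Q r j else 0

section

variable {ε : ℝ} {σ : R → Option S} {Q : R → S → ℝ} {v : R → ℝ} {c : S → R}
  {P : S → S → ℝ} {w f : S → ℝ}

open Classical in
theorem FlowOf.sum (hF : FlowOf ε σ Q v c P w f) (g : R → ℝ) (hg : ∀ r, v r = 0 → g r = 0) :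
    ∑ r, g r = ∑ r, (if σ r = none then g r else 0) + ∑ j, (if Act σ v j then g (c j) else 0) := by
  have h1 : ∑ r, g r = ∑ r, (if σ r = none then g r else 0) +
      ∑ r, ∑ j, (if σ r = some j then g r else 0) := by
    rw [← Finset.sum_add_distrib]
    refine Finset.sum_congr rfl fun r _ => ?_
    rcases h : σ r with _ | j
    · simp
    · simp
  rw [h1, Finset.sum_comm]
  congr 1
  refine Finset.sum_congr rfl fun j _ => ?_
  by_cases hj : Act σ v j
  · rw [if_pos hj]
    obtain ⟨h2, h3⟩ := hF.c1 j hj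
    rw [Finset.sum_eq_single (c j)]
    · rw [if_pos h3]
    · intro r _ hr
      split_ifs with h
      · by_contra hgr
        exact hr (hF.c2 r j (fun h4 => hgr (hg r h4)) h)
      · rfl
    · intro h
      exact absurd (Finset.mem_univ _) h
  · rw [if_neg hj]
    refine Finset.sum_eq_zero fun r _ => ?_
    split_ifs with h
    · apply hg
      by_contra h4
      exact hj ⟨r, h4, h⟩
    · rfl

theorem FlowOf.sumf (hF : FlowOf ε σ Q v c P w f) (z : R → ℝ) (hz : ∀ r, v r = 0 → z r = 0)
    (fz : S → ℝ) (hfz : ∀ j, Act σ v j → fz j = z (c j)) (hfz0 : ∀ j, ¬ Act σ v j → fz j = 0)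
    (k : S) : ∑ r, z r * nM σ Q r k = - ∑ r, (if σ r = none then z r * Q r k else 0) +
      (fz k - ∑ j, fz j * P j k) := by
  classical
  rw [hF.sum (fun r => z r * nM σ Q r k) (fun r h => by
    show z r * _ = 0
    rw [hz r h, zero_mul])]
  congr 1
  · rw [← Finset.sum_neg_distrib]
    refine Finset.sum_congr rfl fun r _ => ?_
    split_ifs with h
    · unfold nM
      rw [h, if_neg (by simp)]
      ring
    · simp
  · have h1 : ∀ j, (if Act σ v j then z (c j) * nM σ Q (c j) k else 0) =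
        (if j = k then fz j else 0) - fz j * P j k := by
      intro j
      by_cases hj : Act σ v j
      · rw [if_pos hj, hfz j hj, hF.P1 j hj]
        obtain ⟨h2, h3⟩ := hF.c1 j hj
        unfold nM
        rw [h3]
        by_cases hjk : j = k
        · rw [if_pos hjk, if_pos (by rw [hjk])]
          ring
        · rw [if_neg hjk, if_neg (by
            intro h
            exact hjk (Option.some_injective _ h))]
          ring
      · rw [if_neg hj, hfz0 j hj]
        simp
    rw [Finset.sum_congr rfl fun j _ => h1 j, Finset.sum_sub_distrib]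
    simp

theorem Mnl.flowOf (hN : Net ε σ Q) (hv : Mnl σ Q v) : ∃ (c : S → R) (P : S → S → ℝ)
    (w f : S → ℝ), FlowOf ε σ Q v c P w f ∧ Flw ε P w f := by
  classical
  have hinj := hv.inj hN
  obtain ⟨a, ha⟩ : ∃ a, v a ≠ 0 := by
    by_contra h
    push Not at h
    exact hv.ne (funext h)
  set c : S → R := fun j => if h : ∃ r, v r ≠ 0 ∧ σ r = some j then h.choose else a with hc
  have hc1 : ∀ j, Act σ v j → v (c j) ≠ 0 ∧ σ (c j) = some j := by
    intro j hj
    have hj' : ∃ r, v r ≠ 0 ∧ σ r = some j := hj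
    simp only [hc]
    rw [dif_pos hj']
    exact hj'.choose_spec
  have hF : FlowOf ε σ Q v c (fun j => if Act σ v j then Q (c j) else 0)
      (fun j => ∑ r, if σ r = none then v r * Q r j else 0)
      (fun j => if Act σ v j then v (c j) else 0) := by
    refine ⟨hc1, ?_, ?_, ?_, ?_, ?_, fun _ => rfl⟩
    · intro r j hr hj
      have h1 := hc1 j ⟨r, hr, hj⟩
      exact hinj r (c j) hr h1.1 (hj.trans h1.2.symm)
    · intro j hj
      simp only [if_pos hj]
    · intro j hj
      simp only [if_neg hj]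
    · intro j hj
      simp only [if_pos hj]
    · intro j hj
      simp only [if_neg hj]
  refine ⟨c, _, _, _, hF, ?_⟩
  have hcn : ∀ j, Act σ v j → σ (c j) ≠ none := fun j hj => by
    rw [(hc1 j hj).2]
    simp
  refine ⟨hN.eps, hN.eps1, ?_, ?_, ?_, ?_, ?_⟩
  · intro i j
    by_cases hi : Act σ v i
    · simp only [if_pos hi]
      exact hN.zero_or _ j (hcn i hi)
    · left
      simp only [if_neg hi]
      rfl
  · intro i
    by_cases hi : Act σ v i
    · simp only [if_pos hi]
      exact hN.row _ (hcn i hi)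
    · simp only [if_neg hi]
      simp
  · intro j
    refine Finset.sum_nonneg fun r _ => ?_
    split_ifs
    · exact mul_nonneg (hv.nn r) (hN.Q0 r j)
    · exact le_rfl
  · intro j
    by_cases hj : Act σ v j
    · simp only [if_pos hj]
      exact hv.nn _
    · simp only [if_neg hj]
      exact le_rfl
  · intro k
    have h1 := hF.sumf v (fun _ h => h) (fun j => if Act σ v j then v (c j) else 0)
      (fun j hj => by simp only [if_pos hj]) (fun j hj => by simp only [if_neg hj]) k
    rw [hv.sol k] at h1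
    linarith

/-- All active states can be reached from the inflow, or from any active state. -/
theorem Mnl.rch (hv : Mnl σ Q v) (hF : FlowOf ε σ Q v c P w f)
    (hfl : Flw ε P w f) (X : S → Prop) (hX : ∀ j, 0 < w j → X j) (a : R) (ha : v a ≠ 0)
    (haX : σ a = none ∨ ∃ j, σ a = some j ∧ X j) (s : S) (hs : Act σ v s) :
    ∃ l, X l ∧ Rch P l s := by
  classical
  by_contra hno
  set U : Finset S := Finset.univ.filter fun j => Act σ v j ∧ ¬ ∃ l, X l ∧ Rch P l j with hU
  have mU : ∀ j, j ∈ U ↔ Act σ v j ∧ ¬ ∃ l, X l ∧ Rch P l j := fun j => by simp [hU]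
  have hsU : s ∈ U := (mU s).2 ⟨hs, hno⟩
  have hwU : ∀ j ∈ U, w j = 0 := by
    intro j hj
    by_contra h
    exact ((mU j).1 hj).2 ⟨j, hX j (lt_of_le_of_ne (hfl.w0 j) (Ne.symm h)),
      Relation.ReflTransGen.refl⟩
  have hpred : ∀ i j, j ∈ U → 0 < P i j → i ∈ U := by
    intro i j hj hp
    rw [mU] at hj ⊢
    refine ⟨?_, ?_⟩
    · by_contra hi
      have := hF.P2 i hi
      rw [this] at hp
      exact lt_irrefl _ hp
    · rintro ⟨l, hl, hli⟩
      exact hj.2 ⟨l, hl, Relation.ReflTransGen.tail hli hp⟩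
  have hbal := hfl.bal U hpred
  rw [Finset.sum_eq_zero hwU] at hbal
  have hterm : ∀ i ∈ U, f i * (1 - ∑ j ∈ U, P i j) = 0 := by
    refine (Finset.sum_eq_zero_iff_of_nonneg fun i _ => ?_).1 hbal.symm
    have := hfl.sub_le i U
    exact mul_nonneg (hfl.f0 i) (by linarith)
  set z : R → ℝ := fun r => if ∃ j ∈ U, σ r = some j then v r else 0 with hz
  have hzV : ∀ r, v r = 0 → z r = 0 := by
    intro r hr
    simp only [hz]
    split_ifs
    · exact hr
    · rfl
  set fz : S → ℝ := fun j => if j ∈ U then f j else 0 with hfz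
  have hzs : ∀ k, ∑ r, z r * nM σ Q r k = 0 := by
    intro k
    rw [hF.sumf z hzV fz ?_ ?_ k]
    · rw [Finset.sum_eq_zero (s := (Finset.univ : Finset R)), neg_zero, zero_add]
      · by_cases hk : k ∈ U
        · have h1 := hfl.eq k
          rw [hwU k hk, zero_add] at h1
          have h2 : fz k = f k := by simp only [hfz, if_pos hk]
          rw [h2, h1, sub_eq_zero]
          refine Finset.sum_congr rfl fun j _ => ?_
          simp only [hfz]
          split_ifs with hj
          · rfl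
          · have h3 : ¬ 0 < P j k := fun hp => hj (hpred j k hk hp)
            rw [le_antisymm (not_lt.1 h3) (hfl.P0 j k), mul_zero, mul_zero]
        · have h2 : fz k = 0 := by simp only [hfz, if_neg hk]
          rw [h2, zero_sub, neg_eq_zero]
          refine Finset.sum_eq_zero fun j _ => ?_
          simp only [hfz]
          split_ifs with hj
          · rcases mul_eq_zero.1 (hterm j hj) with h3 | h3
            · rw [h3, zero_mul]
            · have h4 := hfl.sub_le j (insert k U)
              rw [Finset.sum_insert hk] at h4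
              have h5 := hfl.P0 j k
              have h6 : P j k = 0 := by linarith
              rw [h6, mul_zero]
          · rw [zero_mul]
      · intro r _
        split_ifs with h
        · simp only [hz]
          rw [if_neg, zero_mul]
          rintro ⟨j, -, hj⟩
          rw [h] at hj
          exact absurd hj (by simp)
        · rfl
    · intro j hj
      obtain ⟨h1, h2⟩ := hF.c1 j hj
      simp only [hfz, hz]
      by_cases hjU : j ∈ U
      · rw [if_pos hjU, if_pos ⟨j, hjU, h2⟩, hF.f1 j hj]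
      · rw [if_neg hjU, if_neg]
        rintro ⟨j', hj', h3⟩
        rw [h2] at h3
        rw [Option.some_injective _ h3] at hjU
        exact hjU hj'
    · intro j hj
      simp only [hfz]
      rw [if_neg]
      intro h
      exact hj ((mU j).1 h).1
  obtain ⟨l, hl⟩ := hv.min z hzV hzs
  have hza : z a = 0 := by
    simp only [hz]
    rw [if_neg]
    rintro ⟨j, hj, hσ⟩
    rcases haX with h | ⟨j', h1, h2⟩
    · rw [h] at hσ
      exact absurd hσ (by simp)
    · rw [hσ] at h1
      rw [Option.some_injective _ h1] at hj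
      exact ((mU j').1 hj).2 ⟨j', h2, Relation.ReflTransGen.refl⟩
  have hl0 : l = 0 := by
    have h1 : z a = l * v a := by rw [hl]; rfl
    rw [hza] at h1
    exact (mul_eq_zero.1 h1.symm).resolve_right ha
  obtain ⟨h1, h2⟩ := hF.c1 s hs
  have h3 : z (c s) = v (c s) := by
    simp only [hz]
    rw [if_pos ⟨s, hsU, h2⟩]
  rw [hl, hl0, zero_smul] at h3
  exact h1 h3.symm

/-- The sizes of the entries of a vector of minimal support. -/
theorem Mnl.size (hN : Net ε σ Q) (hv : Mnl σ Q v) : ∃ τ : ℝ, 0 < τ ∧ ∀ a, v a ≠ 0 →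
    ∃ ω θ : ℝ, 0 < ω ∧ 0 < θ ∧ (ω = 1 ∨ ∃ r j, σ r = none ∧ ω = Q r j) ∧
      (θ = 1 ∨ ∃ r, σ r ≠ none ∧ θ = 1 - ∑ j, Q r j) ∧
      v a * θ * ε ^ (2 * Fintype.card S + 1) ≤ (Fintype.card S + 1) * (τ * ω) ∧
      ε ^ (2 * Fintype.card S + 1) * (τ * ω) ≤ (Fintype.card S + 1) * (v a * θ) := by
  classical
  obtain ⟨c, P, w, f, hF, hfl⟩ := hv.flowOf hN
  have hinj := hv.inj hN
  set n := Fintype.card S with hn
  have hε0 := hN.eps
  have hε1 := hN.eps1
  have hn0 : (0 : ℝ) ≤ n := Nat.cast_nonneg n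
  have hpp : ∀ k, ε ^ k ≤ 1 := fun k => pow_le_one₀ hε0.le hε1
  have hpos : ∀ a, v a ≠ 0 → 0 < v a := fun a ha => lt_of_le_of_ne (hv.nn a) (Ne.symm ha)
  have hself : ∀ x : ℝ, 0 < x → x * 1 * ε ^ (2 * n + 1) ≤ (n + 1) * (x * 1) ∧
      ε ^ (2 * n + 1) * (x * 1) ≤ (n + 1) * (x * 1) := by
    intro x hx
    have h1 := hpp (2 * n + 1)
    have h2 : ε ^ (2 * n + 1) * x ≤ x := mul_le_of_le_one_left hx.le h1
    have h3 : x ≤ (n + 1) * x := by nlinarith
    constructor
    · rw [mul_one, mul_comm]; linarith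
    · rw [mul_one]; linarith
  by_cases hs : ∃ r, v r ≠ 0 ∧ σ r = none
  · obtain ⟨r₀, hr₀, hσ₀⟩ := hs
    refine ⟨v r₀, hpos r₀ hr₀, fun a ha => ?_⟩
    have hw : ∀ j, w j = v r₀ * Q r₀ j := by
      intro j
      rw [hF.w1 j, Finset.sum_eq_single r₀]
      · rw [if_pos hσ₀]
      · intro r _ hr
        split_ifs with h
        · by_cases h2 : v r = 0
          · rw [h2, zero_mul]
          · exact absurd (hinj r r₀ h2 hr₀ (h.trans hσ₀.symm)) hr
        · rfl
      · intro h
        exact absurd (Finset.mem_univ _) h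
    rcases hσ : σ a with _ | s
    · have : a = r₀ := hinj a r₀ ha hr₀ (hσ.trans hσ₀.symm)
      subst this
      exact ⟨1, 1, one_pos, one_pos, Or.inl rfl, Or.inl rfl, hself _ (hpos a ha)⟩
    · have hAs : Act σ v s := ⟨a, ha, hσ⟩
      obtain ⟨l, hl1, hl2⟩ := hv.rch hF hfl (fun j => 0 < w j) (fun _ h => h) r₀ hr₀
        (Or.inl hσ₀) s hAs
      obtain ⟨l₀, i₀, θ, h1, h2, h3, h4, h5⟩ := hfl.size hl2 hl1
      have hfs : f s = v a := by rw [hF.f1 s hAs, ← hF.c2 a s ha hσ]
      rw [hw, hfs] at h4 h5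
      rw [hw] at h1
      have hQ : 0 < Q r₀ l₀ := by
        rcases (mul_pos_iff.1 h1) with h | h
        · exact h.2
        · have := hpos r₀ hr₀
          linarith [h.1]
      rw [← hn] at h4 h5
      have hv0 : 0 < v a * θ := mul_pos (hpos a ha) h2
      refine ⟨Q r₀ l₀, θ, hQ, h2, Or.inr ⟨r₀, l₀, hσ₀, rfl⟩, ?_, ?_, ?_⟩
      · rcases h3 with h | ⟨h, h'⟩
        · exact Or.inl h
        · right
          have hA : Act σ v i₀ := by
            by_contra hA
            rw [hF.f2 i₀ hA] at h'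
            exact lt_irrefl _ h'
          refine ⟨c i₀, ?_, ?_⟩
          · rw [(hF.c1 i₀ hA).2]
            simp
          · rw [h, hF.P1 i₀ hA]
      · have h6 : ε ^ (2 * n + 1) ≤ ε ^ (n + 1) := pow_le_pow_of_le_one hε0.le hε1 (by omega)
        have h7 : v a * θ * ε ^ (2 * n + 1) ≤ v a * θ * ε ^ (n + 1) :=
          mul_le_mul_of_nonneg_left h6 hv0.le
        linarith
      · linarith
  · push Not at hs
    obtain ⟨a₀, ha₀⟩ : ∃ a, v a ≠ 0 := by
      by_contra h
      push Not at h
      exact hv.ne (funext h)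
    obtain ⟨j₀, hj₀⟩ := Option.ne_none_iff_exists'.1 (hs a₀ ha₀)
    refine ⟨v a₀, hpos a₀ ha₀, fun a ha => ⟨1, 1, one_pos, one_pos, Or.inl rfl, Or.inl rfl, ?_⟩⟩
    obtain ⟨s, hσ⟩ := Option.ne_none_iff_exists'.1 (hs a ha)
    have hw : ∀ j, w j = 0 := by
      intro j
      rw [hF.w1 j]
      refine Finset.sum_eq_zero fun r _ => ?_
      split_ifs with h
      · by_cases h2 : v r = 0
        · rw [h2, zero_mul]
        · exact absurd h (hs r h2)
      · rfl
    have hA₀ : Act σ v j₀ := ⟨a₀, ha₀, hj₀⟩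
    have hAs : Act σ v s := ⟨a, ha, hσ⟩
    have hfs : f s = v a := by rw [hF.f1 s hAs, ← hF.c2 a s ha hσ]
    have hf₀ : f j₀ = v a₀ := by rw [hF.f1 j₀ hA₀, ← hF.c2 a₀ j₀ ha₀ hj₀]
    have h1 : Rch P j₀ s := by
      obtain ⟨l, hl1, hl2⟩ := hv.rch hF hfl (fun j => j = j₀) (fun j h => by
        rw [hw] at h; exact absurd h (lt_irrefl _)) a₀ ha₀ (Or.inr ⟨j₀, hj₀, rfl⟩) s hAs
      rwa [hl1] at hl2
    have h2 : Rch P s j₀ := by
      obtain ⟨l, hl1, hl2⟩ := hv.rch hF hfl (fun j => j = s) (fun j h => by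
        rw [hw] at h; exact absurd h (lt_irrefl _)) a ha (Or.inr ⟨s, hσ, rfl⟩) j₀ hA₀
      rwa [hl1] at hl2
    have h3 := hfl.reach h1
    have h4 := hfl.reach h2
    rw [hfs, hf₀, ← hn] at h3 h4
    have h6 : ε ^ (2 * n + 1) ≤ ε ^ n := pow_le_pow_of_le_one hε0.le hε1 (by omega)
    have h7 := hpos a ha
    have h8 := hpos a₀ ha₀
    have h9 : v a ≤ (n + 1) * v a := by nlinarith
    have h10 : v a₀ ≤ (n + 1) * v a₀ := by nlinarith
    have h11 := mul_le_mul_of_nonneg_right h6 h7.le
    have h12 := mul_le_mul_of_nonneg_right h6 h8.le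
    constructor
    · rw [mul_one, mul_one, mul_comm]
      linarith
    · rw [mul_one, mul_one]
      linarith

end

end Pool.Agent.V8H17.LP
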