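import Pool.Agent.V8H17.LP.Sc
import Pool.Agent.V8H17.LP.Net2

set_option autoImplicit false

/-!
# Discounted decision processes have few scales
-/

namespace Pool.Agent.V8H17.LP

open Finset

/-- After the substitution `x j = c j * z j`, each row has nonpositive entries only, or exactly one
positive entry, the sum of all its entries is nonnegative, and the absolute value of each nonzero
entry is at least `2 ^ (-ρ)` times the positive entry. -/
def Leontief (ρ : ℕ) {m n : ℕ} (A : Matrix (Fin m) (Fin n) ℝ) : Prop :=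
  ∃ c : Fin n → ℝ, (∀ j, c j ≠ 0) ∧ ∀ i, (∀ j, A i j * c j ≤ 0) ∨
    ∃ s, 0 < A i s * c s ∧ 0 ≤ ∑ j, A i j * c j ∧
      ∀ j, j ≠ s → A i j ≠ 0 → A i j * c j < 0 ∧ A i s * c s ≤ 2 ^ ρ * (-(A i j * c j))

section

variable {m n : ℕ}

/-- The state of a row. -/
def lσ (s : Fin m → Option (Fin n)) : Fin m ⊕ (Fin n ⊕ Fin n) → Option (Fin n)
  | Sum.inl i => s i
  | Sum.inr (Sum.inl j) => some j
  | Sum.inr (Sum.inr _) => none

/-- The scaling of a row. -/
def ld (N : Fin m → Fin n → ℝ) (s : Fin m → Option (Fin n)) (i : Fin m) : ℝ :=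
  match s i with
  | none => 1
  | some j => N i j

/-- The outputs. -/
noncomputable def lQ (N : Fin m → Fin n → ℝ) (s : Fin m → Option (Fin n)) :
    Fin m ⊕ (Fin n ⊕ Fin n) → Fin n → ℝ
  | Sum.inl i, k => if s i = some k then 0 else -(N i k) / ld N s i
  | Sum.inr (Sum.inl _), _ => 0
  | Sum.inr (Sum.inr j), k => if k = j then 1 else 0

theorem lM_row (N : Fin m → Fin n → ℝ) (s : Fin m → Option (Fin n)) (hd : ∀ i, 0 < ld N s i)
    (i : Fin m) (k : Fin n) : ld N s i * nM (lσ s) (lQ N s) (Sum.inl i) k = N i k := by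
  unfold nM
  show ld N s i * ((if s i = some k then (1 : ℝ) else 0) -
    (if s i = some k then 0 else -(N i k) / ld N s i)) = N i k
  by_cases h : s i = some k
  · rw [if_pos h, if_pos h, sub_zero, mul_one]
    unfold ld
    rw [h]
  · rw [if_neg h, if_neg h]
    have := (hd i).ne'
    field_simp
    ring

theorem lM_stop (N : Fin m → Fin n → ℝ) (s : Fin m → Option (Fin n)) (j k : Fin n) :
    nM (lσ s) (lQ N s) (Sum.inr (Sum.inl j)) k = if j = k then 1 else 0 := by
  unfold nM
  show (if some j = some k then (1 : ℝ) else 0) - 0 = _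
  rw [sub_zero]
  by_cases h : j = k
  · rw [if_pos h, if_pos (by rw [h])]
  · rw [if_neg h, if_neg (fun h' => h (Option.some_injective _ h'))]

theorem lM_src (N : Fin m → Fin n → ℝ) (s : Fin m → Option (Fin n)) (j k : Fin n) :
    nM (lσ s) (lQ N s) (Sum.inr (Sum.inr j)) k = if j = k then -1 else 0 := by
  unfold nM
  show (if (none : Option (Fin n)) = some k then (1 : ℝ) else 0) - (if k = j then 1 else 0) = _
  rw [if_neg (by simp)]
  by_cases h : j = k
  · rw [if_pos h, if_pos h.symm]
    norm_num
  · rw [if_neg h, if_neg (fun h' => h h'.symm)]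
    norm_num

theorem lM_sum (N : Fin m → Fin n → ℝ) (s : Fin m → Option (Fin n)) (hd : ∀ i, 0 < ld N s i)
    (z : Fin m ⊕ (Fin n ⊕ Fin n) → ℝ) (k : Fin n) :
    ∑ r, z r * nM (lσ s) (lQ N s) r k =
      ∑ i, z (Sum.inl i) / ld N s i * N i k + (z (Sum.inr (Sum.inl k)) -
        z (Sum.inr (Sum.inr k))) := by
  rw [Fintype.sum_sum_type, Fintype.sum_sum_type]
  congr 1
  · refine Finset.sum_congr rfl fun i _ => ?_
    rw [← lM_row N s hd i k]
    have := (hd i).ne'
    field_simp
  · rw [sub_eq_add_neg]
    congr 1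
    · rw [Finset.sum_eq_single k]
      · rw [lM_stop, if_pos rfl, mul_one]
      · intro j _ hj
        rw [lM_stop, if_neg hj, mul_zero]
      · intro h
        exact absurd (Finset.mem_univ _) h
    · rw [Finset.sum_eq_single k]
      · rw [lM_src, if_pos rfl]
        ring
      · intro j _ hj
        rw [lM_src, if_neg hj, mul_zero]
      · intro h
        exact absurd (Finset.mem_univ _) h

end

theorem ratio_bd {p X θ ω τ q Y θ' ω' k : ℝ} (hp : 0 < p) (hX : 0 < X) (hθ : 0 < θ) (hω : 0 < ω)
    (hτ : 0 < τ) (hq : 0 < q) (hY : 0 < Y) (hθ' : 0 < θ') (hω' : 0 < ω') (hk : 0 < k)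
    (h1 : p * X * θ ≤ k * (τ * ω)) (h2 : τ * ω ≤ k * (p * X * θ))
    (h1' : q * Y * θ' ≤ k * (τ * ω')) (h2' : τ * ω' ≤ k * (q * Y * θ')) :
    (ω / θ) / (ω' / θ') * (q / p) / k ^ 2 ≤ X / Y ∧
    X / Y ≤ k ^ 4 * ((ω / θ) / (ω' / θ') * (q / p) / k ^ 2) := by
  have e1 : (ω / θ) / (ω' / θ') * (q / p) / k ^ 2 = (ω * θ' * q) / (θ * ω' * p * k ^ 2) := by
    field_simp
  have e2 : k ^ 4 * ((ω / θ) / (ω' / θ') * (q / p) / k ^ 2) =
      (ω * θ' * q * k ^ 2) / (θ * ω' * p) := by
    field_simp
  rw [e2, e1, div_le_div_iff₀ (by positivity) hY, div_le_div_iff₀ hY (by positivity)]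
  constructor
  · have h3 := mul_le_mul h2 h1' (by positivity) (by positivity)
    have h4 : τ * (ω * θ' * q * Y) ≤ τ * (X * (θ * ω' * p * k ^ 2)) := by
      calc τ * (ω * θ' * q * Y) = τ * ω * (q * Y * θ') := by ring
        _ ≤ k * (p * X * θ) * (k * (τ * ω')) := h3
        _ = _ := by ring
    exact le_of_mul_le_mul_left h4 hτ
  · have h3 := mul_le_mul h1 h2' (by positivity) (by positivity)
    have h4 : τ * (X * (θ * ω' * p)) ≤ τ * (ω * θ' * q * k ^ 2 * Y) := by
      calc τ * (X * (θ * ω' * p)) = p * X * θ * (τ * ω') := by ring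
        _ ≤ k * (τ * ω) * (k * (q * Y * θ')) := h3
        _ = _ := by ring
    exact le_of_mul_le_mul_left h4 hτ

theorem scales_leontief {ρ m n : ℕ} (A : Matrix (Fin m) (Fin n) ℝ) (hA : Leontief ρ A) :
    Scales (((m * n + 1) * (m + 1)) ^ 2 + 4 * (n + (2 * n + 1) * ρ)) A := by
  classical
  obtain ⟨c, hc, hrow⟩ := hA
  set N : Fin m → Fin n → ℝ := fun i j => A i j * c j with hN
  -- the state of a row
  have hex : ∀ i, ∃ o : Option (Fin n), (o = none → ∀ j, N i j ≤ 0) ∧
      ∀ s, o = some s → 0 < N i s ∧ 0 ≤ ∑ j, N i j ∧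
        ∀ j, j ≠ s → N i j ≠ 0 → N i j < 0 ∧ N i s ≤ 2 ^ ρ * (-(N i j)) := by
    intro i
    rcases hrow i with h | ⟨s, h1, h2, h3⟩
    · exact ⟨none, fun _ => h, fun s hs => absurd hs (by simp)⟩
    · refine ⟨some s, fun h => absurd h (by simp), fun s' hs' => ?_⟩
      rw [← Option.some_injective _ hs']
      exact ⟨h1, h2, fun j hj hj0 => h3 j hj (left_ne_zero_of_mul hj0)⟩
  choose s hs1 hs2 using hex
  have hd : ∀ i, 0 < ld N s i := by
    intro i
    unfold ld
    rcases h : s i with _ | k
    · exact one_pos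
    · exact (hs2 i k h).1
  have hd1 : ∀ i k, s i = some k → ld N s i = N i k := by
    intro i k h
    unfold ld
    rw [h]
  have hd0 : ∀ i, s i = none → ld N s i = 1 := by
    intro i h
    unfold ld
    rw [h]
  have hNle : ∀ i k, s i ≠ some k → N i k ≤ 0 := by
    intro i k h
    rcases h' : s i with _ | j
    · exact hs1 i h' k
    · by_cases h0 : N i k = 0
      · exact h0.le
      · exact ((hs2 i j h').2.2 k (fun h2 => h (by rw [h', h2])) h0).1.le
  set ε : ℝ := (2 ^ ρ)⁻¹ with hε
  have hε0 : 0 < ε := by positivity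
  have hε1 : ε ≤ 1 := inv_le_one_of_one_le₀ (one_le_pow₀ (by norm_num))
  have hleak : ∀ i k, s i = some k → 1 - ∑ j, lQ N s (Sum.inl i) j = (∑ j, N i j) / ld N s i := by
    intro i k h
    have h1 : ∀ j, lQ N s (Sum.inl i) j = (if j = k then 1 else 0) - N i j / ld N s i := by
      intro j
      show (if s i = some j then 0 else -(N i j) / ld N s i) = _
      by_cases hj : j = k
      · rw [if_pos (by rw [h, hj]), if_pos hj, hd1 i k h, hj, div_self (hs2 i k h).1.ne', sub_self]
      · rw [if_neg (by rw [h]; exact fun h' => hj (Option.some_injective _ h').symm), if_neg hj]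
        ring
    rw [Finset.sum_congr rfl fun j _ => h1 j, Finset.sum_sub_distrib, ← Finset.sum_div]
    simp
  have hNet : Net ε (lσ s) (lQ N s) := by
    refine ⟨hε0, hε1, ?_, ?_, ?_⟩
    · rintro (i | j | j) k
      · show 0 ≤ if s i = some k then (0 : ℝ) else -(N i k) / ld N s i
        split_ifs with h
        · exact le_rfl
        · exact div_nonneg (by linarith [hNle i k h]) (hd i).le
      · exact le_rfl
      · show (0 : ℝ) ≤ if k = j then 1 else 0
        split_ifs <;> norm_num
    · rintro (i | j | j) k hr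
      · show (if s i = some k then (0 : ℝ) else -(N i k) / ld N s i) = 0 ∨
          ε ≤ if s i = some k then (0 : ℝ) else -(N i k) / ld N s i
        by_cases h : s i = some k
        · left
          rw [if_pos h]
        · rw [if_neg h]
          by_cases h0 : N i k = 0
          · left
            rw [h0]
            simp
          · right
            obtain ⟨l, hl⟩ := Option.ne_none_iff_exists'.1 (show s i ≠ none from hr)
            obtain ⟨h1, h2, h3⟩ := hs2 i l hl
            obtain ⟨h4, h5⟩ := h3 k (fun h' => h (by rw [hl, h'])) h0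
            rw [hd1 i l hl, le_div_iff₀ h1, hε, inv_mul_le_iff₀ (by positivity)]
            exact h5
      · exact Or.inl rfl
      · exact absurd rfl hr
    · rintro (i | j | j) hr
      · obtain ⟨l, hl⟩ := Option.ne_none_iff_exists'.1 (show s i ≠ none from hr)
        have h1 := hleak i l hl
        have h2 : 0 ≤ (∑ j, N i j) / ld N s i := div_nonneg (hs2 i l hl).2.1 (hd i).le
        linarith
      · show ∑ _k : Fin n, (0 : ℝ) ≤ 1
        simp
      · exact absurd rfl hr
  -- the network vector of an elementary vector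
  set K : ℕ := n + (2 * n + 1) * ρ with hK
  set Om : Finset ℝ := insert 1 ((Finset.univ : Finset (Fin m × Fin n)).image
    fun p => -(N p.1 p.2)) with hOm
  set Th : Finset ℝ := insert 1 ((Finset.univ : Finset (Fin m)).image
    fun i => (∑ j, N i j) / ld N s i) with hTh
  have hOmc : Om.card ≤ m * n + 1 := by
    refine (Finset.card_insert_le _ _).trans (Nat.succ_le_succ (Finset.card_image_le.trans ?_))
    simp
  have hThc : Th.card ≤ m + 1 := by
    refine (Finset.card_insert_le _ _).trans (Nat.succ_le_succ (Finset.card_image_le.trans ?_))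
    simp
  set φ : Fin m ⊕ Fin n → ℝ := Sum.elim (fun i => ld N s i) (fun j => |c j|) with hφ
  have hφ0 : ∀ a, 0 < φ a := by
    rintro (i | j)
    · exact hd i
    · exact abs_pos.2 (hc j)
  have key : ∀ y, Elem A y → ∃ τ : ℝ, 0 < τ ∧ ∀ a, ent A y a ≠ 0 → ∃ ω ∈ Om, ∃ θ ∈ Th,
      0 < ω ∧ 0 < θ ∧ φ a * |ent A y a| * θ ≤ 2 ^ K * (τ * ω) ∧
      τ * ω ≤ 2 ^ K * (φ a * |ent A y a| * θ) := by
    intro y hy
    obtain ⟨hy0, hyn, hym⟩ := hy
    set u : Fin n → ℝ := fun j => ∑ i, y i * N i j with hu
    have huA : ∀ j, u j = Matrix.vecMul y A j * c j := by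
      intro j
      show ∑ i, y i * (A i j * c j) = (∑ i, y i * A i j) * c j
      rw [Finset.sum_mul]
      exact Finset.sum_congr rfl fun i _ => by ring
    set v : Fin m ⊕ (Fin n ⊕ Fin n) → ℝ := Sum.elim (fun i => ld N s i * y i)
      (Sum.elim (fun j => max (-(u j)) 0) (fun j => max (u j) 0)) with hv
    have v1 : ∀ i, v (Sum.inl i) = ld N s i * y i := fun i => rfl
    have v2 : ∀ j, v (Sum.inr (Sum.inl j)) = max (-(u j)) 0 := fun j => rfl
    have v3 : ∀ j, v (Sum.inr (Sum.inr j)) = max (u j) 0 := fun j => rfl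
    have hMnl : Mnl (lσ s) (lQ N s) v := by
      refine ⟨?_, ?_, ?_, ?_⟩
      · intro h
        apply hy0
        funext i
        have h1 := congrFun h (Sum.inl i)
        rw [v1] at h1
        exact (mul_eq_zero.1 h1).resolve_left (hd i).ne'
      · rintro (i | j | j)
        · exact mul_nonneg (hd i).le (hyn i)
        · exact le_max_right _ _
        · exact le_max_right _ _
      · intro k
        rw [lM_sum N s hd, v2, v3]
        have h1 : ∑ i, v (Sum.inl i) / ld N s i * N i k = u k := by
          refine Finset.sum_congr rfl fun i _ => ?_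
          rw [v1, mul_div_cancel_left₀ _ (hd i).ne']
        rw [h1]
        rcases le_total (u k) 0 with h | h
        · rw [max_eq_left (by linarith), max_eq_right h]
          ring
        · rw [max_eq_right (by linarith), max_eq_left h]
          ring
      · intro z hz hsol
        set zy : Fin m → ℝ := fun i => z (Sum.inl i) / ld N s i with hzy
        have hzu : ∀ k, Matrix.vecMul zy A k * c k =
            z (Sum.inr (Sum.inr k)) - z (Sum.inr (Sum.inl k)) := by
          intro k
          have h1 := hsol k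
          rw [lM_sum N s hd] at h1
          have h2 : Matrix.vecMul zy A k * c k =
              ∑ i, z (Sum.inl i) / ld N s i * N i k := by
            show (∑ i, zy i * A i k) * c k = _
            rw [Finset.sum_mul]
            refine Finset.sum_congr rfl fun i _ => ?_
            simp only [hzy, hN]
            ring
          rw [h2]
          linarith
        obtain ⟨l, hl⟩ := hym zy (by
            intro i hi
            simp only [hzy]
            rw [hz (Sum.inl i) (by rw [v1, hi, mul_zero]), zero_div])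
          (by
            intro k hk
            have h1 : u k = 0 := by rw [huA, hk, zero_mul]
            have h2 := hzu k
            rw [hz (Sum.inr (Sum.inl k)) (by rw [v2, h1]; simp),
              hz (Sum.inr (Sum.inr k)) (by rw [v3, h1]; simp), sub_zero] at h2
            exact (mul_eq_zero.1 h2).resolve_right (hc k))
        have hzl : ∀ k, z (Sum.inr (Sum.inr k)) - z (Sum.inr (Sum.inl k)) = l * u k := by
          intro k
          rw [← hzu, hl, Matrix.smul_vecMul, huA]
          show l * Matrix.vecMul y A k * c k = _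
          ring
        refine ⟨l, ?_⟩
        funext r
        show z r = l * v r
        rcases r with i | k | k
        · have h1 : z (Sum.inl i) / ld N s i = l * y i := congrFun hl i
          rw [v1, div_eq_iff (hd i).ne'] at *
          rw [h1]
          ring
        · have h1 := hzl k
          rcases le_total (u k) 0 with h | h
          · rw [hz (Sum.inr (Sum.inr k)) (by rw [v3, max_eq_right h])] at h1
            rw [v2, max_eq_left (by linarith)]
            linarith
          · rw [hz (Sum.inr (Sum.inl k)) (by rw [v2, max_eq_right (by linarith)]), v2,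
              max_eq_right (by linarith), mul_zero]
        · have h1 := hzl k
          rcases le_total (u k) 0 with h | h
          · rw [hz (Sum.inr (Sum.inr k)) (by rw [v3, max_eq_right h]), v3,
              max_eq_right h, mul_zero]
          · rw [hz (Sum.inr (Sum.inl k)) (by rw [v2, max_eq_right (by linarith)])] at h1
            rw [v3, max_eq_left h]
            linarith
    obtain ⟨τ, hτ, hsz⟩ := hMnl.size hNet
    refine ⟨τ, hτ, fun a ha => ?_⟩
    have hra : ∃ r, v r ≠ 0 ∧ φ a * |ent A y a| = v r := by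
      rcases a with i | j
      · refine ⟨Sum.inl i, ?_, ?_⟩
        · rw [v1]
          exact mul_ne_zero (hd i).ne' ha
        · rw [v1]
          show ld N s i * |y i| = _
          rw [abs_of_nonneg (hyn i)]
      · have ha' : Matrix.vecMul y A j ≠ 0 := ha
        have hu0 : u j ≠ 0 := by
          rw [huA]
          exact mul_ne_zero ha' (hc j)
        have h1 : φ (Sum.inr j) * |ent A y (Sum.inr j)| = |u j| := by
          show |c j| * |Matrix.vecMul y A j| = _
          rw [huA, abs_mul, mul_comm]
        rw [h1]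
        rcases lt_or_gt_of_ne hu0 with h | h
        · refine ⟨Sum.inr (Sum.inl j), ?_, ?_⟩
          · rw [v2, max_eq_left (by linarith)]
            linarith
          · rw [v2, max_eq_left (by linarith), abs_of_neg h]
        · refine ⟨Sum.inr (Sum.inr j), ?_, ?_⟩
          · rw [v3, max_eq_left h.le]
            exact hu0
          · rw [v3, max_eq_left h.le, abs_of_pos h]
    obtain ⟨r, hr0, hr⟩ := hra
    obtain ⟨ω, θ, hω, hθ, h1, h2, h3, h4⟩ := hsz r hr0
    rw [hr]
    have hcard : Fintype.card (Fin n) = n := Fintype.card_fin n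
    rw [hcard] at h3 h4
    have hn2 : ((n : ℝ) + 1) ≤ 2 ^ n := by
      have : n + 1 ≤ 2 ^ n := Nat.lt_two_pow_self
      exact_mod_cast this
    have hεp : ε ^ (2 * n + 1) = (2 ^ ((2 * n + 1) * ρ))⁻¹ := by
      rw [hε, inv_pow, ← pow_mul, mul_comm ρ]
    have hK2 : (2 : ℝ) ^ K = 2 ^ n * 2 ^ ((2 * n + 1) * ρ) := by rw [hK, pow_add]
    have hvθ : 0 < v r * θ :=
      mul_pos (lt_of_le_of_ne (hMnl.nn r) (Ne.symm hr0)) hθ
    have hτω : 0 < τ * ω := mul_pos hτ hω
    refine ⟨ω, ?_, θ, ?_, hω, hθ, ?_, ?_⟩
    · rw [hOm, Finset.mem_insert]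
      rcases h1 with h | ⟨r', j, h5, h6⟩
      · exact Or.inl h
      · rcases r' with i | j' | j'
        · right
          rw [Finset.mem_image]
          refine ⟨(i, j), Finset.mem_univ _, ?_⟩
          have h5' : s i = none := h5
          rw [h6]
          show -(N i j) = if s i = some j then (0 : ℝ) else -(N i j) / ld N s i
          rw [if_neg (by rw [h5']; simp), hd0 i h5', div_one]
        · exact absurd h5 (by simp [lσ])
        · left
          have h7 : ω = if j = j' then 1 else 0 := h6
          split_ifs at h7 with h8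
          · exact h7
          · rw [h7] at hω
            exact absurd hω (lt_irrefl _)
    · rw [hTh, Finset.mem_insert]
      rcases h2 with h | ⟨r', h5, h6⟩
      · exact Or.inl h
      · rcases r' with i | j' | j'
        · right
          rw [Finset.mem_image]
          obtain ⟨l, hl⟩ := Option.ne_none_iff_exists'.1 (show s i ≠ none from h5)
          exact ⟨i, Finset.mem_univ _, by rw [h6, hleak i l hl]⟩
        · left
          rw [h6]
          show 1 - ∑ _k : Fin n, (0 : ℝ) = 1
          simp
        · exact absurd rfl h5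
    · rw [hεp, ← div_eq_mul_inv, div_le_iff₀ (by positivity)] at h3
      rw [hK2]
      calc v r * θ ≤ ((n : ℝ) + 1) * (τ * ω) * 2 ^ ((2 * n + 1) * ρ) := h3
        _ ≤ 2 ^ n * (τ * ω) * 2 ^ ((2 * n + 1) * ρ) := by
            apply mul_le_mul_of_nonneg_right _ (by positivity)
            exact mul_le_mul_of_nonneg_right hn2 hτω.le
        _ = _ := by ring
    · rw [hεp, inv_mul_le_iff₀ (by positivity)] at h4
      rw [hK2]
      calc τ * ω ≤ 2 ^ ((2 * n + 1) * ρ) * (((n : ℝ) + 1) * (v r * θ)) := h4
        _ ≤ 2 ^ ((2 * n + 1) * ρ) * (2 ^ n * (v r * θ)) := by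
            apply mul_le_mul_of_nonneg_left _ (by positivity)
            exact mul_le_mul_of_nonneg_right hn2 hvθ.le
        _ = _ := by ring
  -- the windows
  intro a b
  set W : Finset ((ℝ × ℝ) × (ℝ × ℝ)) := (Om ×ˢ Th) ×ˢ (Om ×ˢ Th) with hW
  set F : (ℝ × ℝ) × (ℝ × ℝ) → ℝ := fun q =>
    (q.1.1 / q.1.2) / (q.2.1 / q.2.2) * (φ b / φ a) / 2 ^ (2 * K) with hF
  refine ⟨(W.image F).filter fun x => 0 < x, ?_, ?_, ?_⟩
  · refine (Finset.card_filter_le _ _).trans (Finset.card_image_le.trans ?_)
    rw [hW, Finset.card_product, Finset.card_product]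
    have h1 : Om.card * Th.card ≤ (m * n + 1) * (m + 1) := Nat.mul_le_mul hOmc hThc
    have h2 := Nat.mul_le_mul h1 h1
    rw [pow_two]
    omega
  · intro x hx
    exact (Finset.mem_filter.1 hx).2
  · intro y hy ha hb
    obtain ⟨τ, hτ, hk⟩ := key y hy
    obtain ⟨ω, hω, θ, hθ, hω0, hθ0, h1, h2⟩ := hk a ha
    obtain ⟨ω', hω', θ', hθ', hω0', hθ0', h1', h2'⟩ := hk b hb
    have hφa := hφ0 a
    have hφb := hφ0 b
    have hea : 0 < |ent A y a| := abs_pos.2 ha
    have heb : 0 < |ent A y b| := abs_pos.2 hb
    have hFpos : 0 < F ((ω, θ), (ω', θ')) := by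
      simp only [hF]
      positivity
    refine ⟨F ((ω, θ), (ω', θ')), ?_, ?_, ?_⟩
    · rw [Finset.mem_filter]
      refine ⟨Finset.mem_image_of_mem _ ?_, hFpos⟩
      rw [hW, Finset.mem_product, Finset.mem_product, Finset.mem_product]
      exact ⟨⟨hω, hθ⟩, ⟨hω', hθ'⟩⟩
    · rw [abs_div]
      refine le_trans (le_of_eq ?_) (ratio_bd hφa hea hθ0 hω0 hτ hφb heb hθ0' hω0'
        (show (0 : ℝ) < 2 ^ K by positivity) h1 h2 h1' h2').1
      simp only [hF]
      rw [pow_mul, ← pow_mul, mul_comm 2 K, pow_mul]
    · rw [abs_div]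
      refine (ratio_bd hφa hea hθ0 hω0 hτ hφb heb hθ0' hω0'
        (show (0 : ℝ) < 2 ^ K by positivity) h1 h2 h1' h2').2.trans ?_
      have e : (ω / θ) / (ω' / θ') * (φ b / φ a) / (2 ^ K) ^ 2 = F ((ω, θ), (ω', θ')) := by
        simp only [hF]
        rw [mul_comm 2 K, pow_mul]
      rw [e, ← pow_mul]
      apply mul_le_mul_of_nonneg_right _ hFpos.le
      apply pow_le_pow_right₀ (by norm_num)
      rw [mul_comm K 4]
      exact Nat.le_add_left _ _

end Pool.Agent.V8H17.LP
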