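import Pool.Agent.V8H17.LP.Main2
import Pool.Agent.V8H17.LP.Leon

set_option autoImplicit false

/-!
# The class of all systems with few scales, and the Leontief substitution systems
-/

namespace Pool.Agent.V8H17.LP

open Pool.Agent.NPC Pool.Agent.H558R2 Pool.Agent.H622R3.SM Pool.Agent.W920.FC
  Pool.Agent.Y648.CS Pool.Agent.Y529.CS

theorem Scales.mono {r r' : ℕ} (h : r ≤ r') {m n : ℕ} {A : Matrix (Fin m) (Fin n) ℝ}
    (hA : Scales r A) : Scales r' A := by
  intro i j
  obtain ⟨S, h1, h2, h3⟩ := hA i j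
  refine ⟨S, h1.trans h, h2, fun y hy hi hj => ?_⟩
  obtain ⟨s, hs, h4, h5⟩ := h3 y hy hi hj
  refine ⟨s, hs, h4, h5.trans ?_⟩
  exact mul_le_mul_of_nonneg_right (pow_le_pow_right₀ (by norm_num) h) (h2 s hs).le

theorem run_succ {O : Set (List Bool)} {α : List Outcome → List Instr × Test} :
    ∀ (k : ℕ) (h : List Outcome) (ρ : Reg → ℝ) (x : Bool × List ℝ × ℕ),
      run O α k h ρ = some x → run O α (k + 1) h ρ = some x := by
  intro k
  induction k with
  | zero =>
    intro h ρ x hx
    simp [run] at hx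
  | succ k ih =>
    intro h ρ x hx
    rw [run] at hx ⊢
    cases he : exec (α h).1 ρ with
    | none => rw [he] at hx; simp at hx
    | some r =>
      rw [he] at hx
      simp only [Option.bind_some] at hx ⊢
      cases ht : (α h).2 with
      | answer a =>
        rw [ht] at hx
        exact hx
      | sign y =>
        rw [ht] at hx
        simp only [Option.map_eq_some_iff] at hx ⊢
        obtain ⟨q, hq, rfl⟩ := hx
        exact ⟨q, ih _ _ _ hq, rfl⟩
      | ask w =>
        rw [ht] at hx
        simp only [Option.map_eq_some_iff] at hx ⊢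
        obtain ⟨q, hq, rfl⟩ := hx
        exact ⟨q, ih _ _ _ hq, rfl⟩

theorem run_mono {O : Set (List Bool)} {α : List Outcome → List Instr × Test} {k k' : ℕ}
    (hk : k ≤ k') {h : List Outcome} {ρ : Reg → ℝ} {x : Bool × List ℝ × ℕ}
    (hx : run O α k h ρ = some x) : run O α k' h ρ = some x := by
  induction hk with
  | refl => exact hx
  | step _ ih => exact run_succ _ _ _ _ ih

/-- The bound for the number of scales, as a polynomial. -/
noncomputable def lP : Polynomial ℕ :=
  ((Polynomial.X * Polynomial.X + 1) * (Polynomial.X + 1)) ^ 2 +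
    4 * (Polynomial.X + (2 * Polynomial.X + 1) * Polynomial.X) + Polynomial.X

theorem lP_le (m n R : ℕ) : ((m * n + 1) * (m + 1)) ^ 2 + 4 * (n + (2 * n + 1) * R) ≤
    lP.eval (m + n + R) := by
  unfold lP
  simp only [Polynomial.eval_add, Polynomial.eval_mul, Polynomial.eval_X, Polynomial.eval_ofNat,
    Polynomial.eval_one, Polynomial.eval_pow]
  set x := m + n + R with hx
  have hm : m ≤ x := by omega
  have hn : n ≤ x := by omega
  have hR : R ≤ x := by omega
  have h1 : ((m * n + 1) * (m + 1)) ^ 2 ≤ ((x * x + 1) * (x + 1)) ^ 2 := by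
    gcongr
  have h2 : 4 * (n + (2 * n + 1) * R) ≤ 4 * (x + (2 * x + 1) * x) := by
    gcongr
  omega

theorem le_lP (m n R : ℕ) : R ≤ lP.eval (m + n + R) := by
  unfold lP
  simp only [Polynomial.eval_add, Polynomial.eval_mul, Polynomial.eval_X, Polynomial.eval_ofNat,
    Polynomial.eval_one, Polynomial.eval_pow]
  omega

open FN FL in
/-- The algorithm on the whole class. -/
theorem classN : PolyControl algN ∧ OracleFree algN ∧ ∃ p : Polynomial ℕ, ∀ m n : ℕ, 1 ≤ m →
    1 ≤ n → ∀ (A : Matrix (Fin m) (Fin n) ℝ) (b : Fin m → ℝ) (r : ℕ),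
    (Scales r A ∨ Leontief r A ∨ 2 ^ (m + n) ≤ r) →
    ∃ ans nums steps,
      run ∅ (algN m n) (p.eval (m + n + r)) [] (start A b) = some (ans, nums, steps) ∧
      (ans = true ↔ ∃ x : Fin n → ℝ, b ≤ A.mulVec x) ∧ steps ≤ p.eval (m + n + r) ∧
      ∀ (A' : Matrix (Fin m) (Fin n) ℚ) (b' : Fin m → ℚ), (∀ i j, ((A' i j : ℚ) : ℝ) = A i j) →
        (∀ i, ((b' i : ℚ) : ℝ) = b i) →
        ∀ v ∈ nums, ∃ q : ℚ, (q : ℝ) = v ∧ bitLength q ≤ p.eval (inputLength A' b' + r) := by
  obtain ⟨h1, h2, p, hp⟩ := mainN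
  refine ⟨h1, h2, p.comp (Polynomial.X + lP), ?_⟩
  intro m n hm hn A b r hA
  have hSc : Scales (lP.eval (m + n + r)) A := by
    rcases hA with hA | hA | hA
    · exact hA.mono (le_lP m n r)
    · exact (scales_leontief A hA).mono (lP_le m n r)
    · exact (scales_tot A).mono (hA.trans (le_lP m n r))
  obtain ⟨ans, nums, steps, g1, g2, g3, g4⟩ := hp m n hm hn A b _ hSc
  have hev : ∀ x, (p.comp (Polynomial.X + lP)).eval x = p.eval (x + lP.eval x) := fun x => by
    rw [Polynomial.eval_comp, Polynomial.eval_add, Polynomial.eval_X]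
  have hle : p.eval (m + n + lP.eval (m + n + r)) ≤ (p.comp (Polynomial.X + lP)).eval (m + n + r) := by
    rw [hev]
    exact pe_mono p (by omega)
  refine ⟨ans, nums, steps, run_mono hle g1, g2, g3.trans hle, fun A' b' hA' hb' v hv => ?_⟩
  obtain ⟨x, hx, hx2⟩ := g4 A' b' hA' hb' v hv
  refine ⟨x, hx, hx2.trans ?_⟩
  rw [hev]
  refine pe_mono p ?_
  have h5 := le_inputLength hm A' b'
  have h6 : lP.eval (m + n + r) ≤ lP.eval (inputLength A' b' + r) := pe_mono lP (by omega)
  omega

/-- Leontief substitution systems. -/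
theorem leontief_of {m k n R : ℕ} (h : Fin m → Fin n) (a : Matrix (Fin m) (Fin n) ℝ)
    (B : Matrix (Fin k) (Fin n) ℝ) (c : Fin n → ℝ) (hc : ∀ t, 0 < c t) (ha : ∀ i t, 0 ≤ a i t)
    (hr : ∀ i, ∑ t, a i t * c t ≤ c (h i))
    (hR : ∀ i t, a i t = 0 ∨ c (h i) ≤ 2 ^ R * (a i t * c t)) (hB : ∀ j t, 0 ≤ B j t) :
    Leontief R (Matrix.of (Fin.append (fun i t => (if t = h i then 1 else 0) - a i t)
      (fun j t => - B j t)) : Matrix (Fin (m + k)) (Fin n) ℝ) := by
  classical
  refine ⟨c, fun t => (hc t).ne', fun i => ?_⟩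
  refine Fin.addCases (fun i => ?_) (fun j => ?_) i
  · have e : ∀ t, (Matrix.of (Fin.append (fun i t => (if t = h i then (1 : ℝ) else 0) - a i t)
        (fun j t => - B j t)) : Matrix (Fin (m + k)) (Fin n) ℝ) (Fin.castAdd k i) t =
        (if t = h i then 1 else 0) - a i t := fun t => by
      rw [Matrix.of_apply, Fin.append_left]
    simp only [e]
    have hne : ∀ t, t ≠ h i → ((if t = h i then (1 : ℝ) else 0) - a i t) * c t =
        - (a i t * c t) := fun t ht => by
      rw [if_neg ht]
      ring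
    have hself : a i (h i) * c (h i) ≤ ∑ t, a i t * c t :=
      Finset.single_le_sum (f := fun t => a i t * c t)
        (fun t _ => mul_nonneg (ha i t) (hc t).le) (Finset.mem_univ _)
    by_cases h1 : a i (h i) < 1
    · right
      refine ⟨h i, ?_, ?_, ?_⟩
      · rw [if_pos rfl]
        exact mul_pos (by linarith) (hc _)
      · have h2 : ∑ t, ((if t = h i then (1 : ℝ) else 0) - a i t) * c t =
            c (h i) - ∑ t, a i t * c t := by
          simp only [sub_mul, ite_mul, one_mul, zero_mul]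
          rw [Finset.sum_sub_distrib]
          simp
        rw [h2]
        linarith [hr i]
      · intro t ht h0
        rw [if_neg ht, zero_sub, neg_ne_zero] at h0
        rw [hne t ht, if_pos rfl, neg_neg]
        have h3 := (hR i t).resolve_left h0
        have h4 : 0 < a i t := lt_of_le_of_ne (ha i t) (Ne.symm h0)
        refine ⟨neg_neg_of_pos (mul_pos h4 (hc t)), le_trans ?_ h3⟩
        have h5 : a i (h i) * c (h i) ≥ 0 := mul_nonneg (ha i _) (hc _).le
        linarith
    · left
      intro t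
      by_cases ht : t = h i
      · rw [if_pos ht, ht]
        exact mul_nonpos_of_nonpos_of_nonneg (by linarith) (hc _).le
      · rw [hne t ht]
        have := mul_nonneg (ha i t) (hc t).le
        linarith
  · left
    intro t
    rw [Matrix.of_apply, Fin.append_right]
    have := mul_nonneg (hB j t) (hc t).le
    linarith

end Pool.Agent.V8H17.LP
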