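import Pool.Agent.V8H17.LP.Leon2

set_option autoImplicit false

/-!
# Activities
-/

namespace Pool.Agent.V8H17.LP

/-- A positive multiple of `e_h - p`, with `p ≥ 0`, `∑ t, p t ≤ 1`, and each `p t` is zero or at least
`2 ^ (- R)`. -/
def Activity (R : ℕ) {n : ℕ} (a : Fin n → ℝ) : Prop :=
  ∃ (lam : ℝ) (h : Fin n) (p : Fin n → ℝ), 0 < lam ∧ (∀ t, p t = 0 ∨ 1 ≤ 2 ^ R * p t) ∧
    ∑ t, p t ≤ 1 ∧ ∀ v, a v = lam * ((if v = h then 1 else 0) - p v)

/-- After multiplying the columns by nonzero reals, all rows are activities or nonpositive. -/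
def LSys (R : ℕ) {m n : ℕ} (A : Matrix (Fin m) (Fin n) ℝ) : Prop :=
  ∃ c : Fin n → ℝ, (∀ j, c j ≠ 0) ∧
    ∀ i, Activity R (fun j => A i j * c j) ∨ ∀ j, A i j * c j ≤ 0

theorem leontief_of_lsys {R m n : ℕ} {A : Matrix (Fin m) (Fin n) ℝ} (hA : LSys R A) :
    Leontief R A := by
  obtain ⟨c, hc, hA⟩ := hA
  refine ⟨c, hc, fun i => ?_⟩
  rcases hA i with ⟨lam, h, p, hl, hp, hs, hv'⟩ | h0
  · have hv : ∀ v, A i v * c v = lam * ((if v = h then 1 else 0) - p v) := hv'
    have hp0 : ∀ t, 0 ≤ p t := by
      intro t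
      rcases hp t with h | h
      · exact h.ge
      · by_contra hn
        have h2 : (0 : ℝ) < 2 ^ R := by positivity
        nlinarith
    have hself : p h ≤ ∑ t, p t := Finset.single_le_sum (fun t _ => hp0 t) (Finset.mem_univ _)
    by_cases h1 : p h < 1
    · right
      refine ⟨h, ?_, ?_, ?_⟩
      · rw [hv h, if_pos rfl]
        exact mul_pos hl (by linarith)
      · have h2 : ∑ j, A i j * c j = lam * (1 - ∑ t, p t) := by
          rw [Finset.sum_congr rfl fun j _ => hv j, ← Finset.mul_sum, Finset.sum_sub_distrib]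
          simp
        rw [h2]
        exact mul_nonneg hl.le (by linarith)
      · intro j hj hj0
        have h3 : A i j * c j = - (lam * p j) := by
          rw [hv j, if_neg hj]
          ring
        have h4 : p j ≠ 0 := by
          intro h5
          rw [h5, mul_zero, neg_zero] at h3
          exact mul_ne_zero hj0 (hc j) h3
        have h6 := (hp j).resolve_left h4
        have h7 : 0 < p j := lt_of_le_of_ne (hp0 j) (Ne.symm h4)
        rw [h3, hv h, if_pos rfl, neg_neg]
        refine ⟨neg_neg_of_pos (mul_pos hl h7), ?_⟩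
        calc lam * (1 - p h) ≤ lam * 1 := by
              apply mul_le_mul_of_nonneg_left _ hl.le
              linarith [hp0 h]
          _ ≤ lam * (2 ^ R * p j) := mul_le_mul_of_nonneg_left h6 hl.le
          _ = _ := by ring
    · left
      intro j
      rw [hv j]
      apply mul_nonpos_of_nonneg_of_nonpos hl.le
      split_ifs with hj
      · rw [hj]
        linarith
      · linarith [hp0 j]
  · exact Or.inl h0

end Pool.Agent.V8H17.LP
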