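import Pool.Agent.V8H17.LP.Virt2

set_option autoImplicit false

/-!
# Computations on a virtual input: sizes, and the translation of runs
-/

namespace Pool.Agent.V8H17.LP

open Pool.Agent.NPC Pool.Agent.H558R2 Pool.Agent.H622R3.SM Pool.Agent.W920.FC
  Pool.Agent.W920.FC.TORD1 Pool.Agent.Y648.CS.TTUP

theorem qb_mono {β β' : ℕ} (h : β ≤ β') {v : ℝ} (hv : QB β v) : QB β' v := by
  obtain ⟨E, z, h1, h2, h3, h4⟩ := hv
  have hp : 2 ^ β ≤ 2 ^ β' := Nat.pow_le_pow_right (by norm_num) h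
  exact ⟨E, z, h1, h2.trans hp, h3.trans hp, h4⟩

theorem one_add_mul_le (m n k : ℕ) (hk : k ≤ m * n) : 1 + k ≤ 2 ^ (m + n) := by
  have h1 : m + 1 ≤ 2 ^ m := Nat.lt_two_pow_self
  have h2 : n + 1 ≤ 2 ^ n := Nat.lt_two_pow_self
  calc 1 + k ≤ (m + 1) * (n + 1) := by nlinarith
    _ ≤ 2 ^ m * 2 ^ n := Nat.mul_le_mul h1 h2
    _ = 2 ^ (m + n) := (pow_add 2 m n).symm

section

variable {m n : ℕ} (A : Fin m → Fin n → ℝ) (b : Fin m → ℝ) {lam D : ℕ}

theorem sum_int (hD2 : D ≤ 2 ^ lam)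
    (hD3 : ∀ r ∈ baseReg, ∃ z : ℤ, z.natAbs ≤ 2 ^ lam ∧ start A b r * D = z) (k : ℕ) :
    ∃ z : ℤ, z.natAbs ≤ (1 + k) * 2 ^ (2 * lam) ∧
      (1 + ∑ l ∈ Finset.range k, start A b [0, l / n, l % n] ^ 2) * ((D * D : ℕ) : ℝ) = z := by
  induction k with
  | zero =>
    refine ⟨((D * D : ℕ) : ℤ), ?_, ?_⟩
    · rw [Int.natAbs_natCast, Nat.add_zero, one_mul, two_mul, pow_add]
      exact Nat.mul_le_mul hD2 hD2
    · simp
  | succ k ih =>
    obtain ⟨z, h1, h2⟩ := ih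
    obtain ⟨y, h3, h4⟩ := hD3 [0, k / n, k % n] (by simp [baseReg])
    refine ⟨z + y * y, ?_, ?_⟩
    · refine (Int.natAbs_add_le _ _).trans ?_
      rw [Int.natAbs_mul]
      have h5 : y.natAbs * y.natAbs ≤ 2 ^ (2 * lam) := by
        rw [two_mul, pow_add]
        exact Nat.mul_le_mul h3 h3
      calc _ ≤ (1 + k) * 2 ^ (2 * lam) + 2 ^ (2 * lam) := Nat.add_le_add h1 h5
        _ = (1 + (k + 1)) * 2 ^ (2 * lam) := by ring
    · rw [Finset.sum_range_succ]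
      push_cast at h2 ⊢
      rw [← h2, ← h4]
      ring

theorem sq_int (hD3 : ∀ r ∈ baseReg, ∃ z : ℤ, z.natAbs ≤ 2 ^ lam ∧ start A b r * D = z) (i j : ℕ) :
    ∃ z : ℤ, z.natAbs ≤ 2 ^ (2 * lam) ∧ start A b [0, i, j] ^ 2 * ((D * D : ℕ) : ℝ) = z := by
  obtain ⟨y, h3, h4⟩ := hD3 [0, i, j] (by simp [baseReg])
  refine ⟨y * y, ?_, ?_⟩
  · rw [Int.natAbs_mul, two_mul, pow_add]
    exact Nat.mul_le_mul h3 h3
  · push_cast
    rw [← h4]
    ring

/-- The virtual base registers are small. -/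
theorem rb_virt (h : RB lam (start A b)) :
    RB (2 * lam + (m + n)) (start (vA A) (vb (n := n) b)) := by
  obtain ⟨D, hD1, hD2, hD3⟩ := h
  have hle : 2 ^ (2 * lam) ≤ 2 ^ (2 * lam + (m + n)) := Nat.pow_le_pow_right (by norm_num) (by omega)
  have hDD : D * D ≤ 2 ^ (2 * lam) := by
    rw [two_mul, pow_add]
    exact Nat.mul_le_mul hD2 hD2
  obtain ⟨zs, hz1, hz2⟩ := sum_int A b hD2 hD3 (m * n)
  have hs : (1 + ∑ l ∈ Finset.range (m * n), start A b [0, l / n, l % n] ^ 2) = sc A := valV_s A b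
  rw [hs] at hz2
  have hz3 : zs.natAbs ≤ 2 ^ (2 * lam + (m + n)) := by
    refine hz1.trans ?_
    rw [pow_add, Nat.mul_comm]
    exact Nat.mul_le_mul_left _ (one_add_mul_le m n _ le_rfl)
  refine ⟨D * D, Nat.mul_pos hD1 hD1, hDD.trans hle, fun r hr => ?_⟩
  rw [← vr_val A b hr]
  have hbase : ∀ r ∈ baseReg, ∃ z : ℤ, z.natAbs ≤ 2 ^ (2 * lam + (m + n)) ∧
      valV A b r * ((D * D : ℕ) : ℝ) = z := by
    intro r hr
    obtain ⟨z, h1, h2⟩ := hD3 r hr
    refine ⟨z * D, ?_, ?_⟩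
    · rw [Int.natAbs_mul, Int.natAbs_natCast]
      refine le_trans ?_ hle
      rw [two_mul, pow_add]
      exact Nat.mul_le_mul h1 hD2
    · rw [valV_base A b hr]
      push_cast
      rw [← h2]
      ring
  have hcases : vr m n r ∈ baseReg ∨ vr m n r = [90, m * n] ∨ vr m n r = [92] := by
    have h' : r.headD 0 < 4 := hr
    unfold vr
    split_ifs
    · exact Or.inl b2
    · omega
    · exact Or.inl hr
    · exact Or.inr (Or.inl rfl)
    · exact Or.inr (Or.inr rfl)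
    · exact Or.inl b3
    · exact Or.inl hr
    · exact Or.inl b3
  rcases hcases with h | h | h
  · exact hbase _ h
  · rw [h, valV_s]
    exact ⟨zs, hz3, hz2⟩
  · rw [h]
    refine ⟨- zs, ?_, ?_⟩
    · rw [Int.natAbs_neg]
      exact hz3
    · show (- sc A) * ((D * D : ℕ) : ℝ) = _
      push_cast at hz2 ⊢
      linarith

/-- The numbers of the program are small. -/
theorem qb_vP (h : RB lam (start A b)) : ∀ I ∈ vP m n, QB (2 * lam + (m + n)) (valV A b I.dst) := by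
  obtain ⟨D, hD1, hD2, hD3⟩ := h
  have hle : 2 ^ (2 * lam) ≤ 2 ^ (2 * lam + (m + n)) := Nat.pow_le_pow_right (by norm_num) (by omega)
  have hDD : D * D ≤ 2 ^ (2 * lam) := by
    rw [two_mul, pow_add]
    exact Nat.mul_le_mul hD2 hD2
  have hsum : ∀ k ≤ m * n, QB (2 * lam + (m + n)) (valV A b [90, k]) := by
    intro k hk
    obtain ⟨z, h1, h2⟩ := sum_int A b hD2 hD3 k
    refine ⟨D * D, z, Nat.mul_pos hD1 hD1, hDD.trans hle, ?_, h2⟩
    refine h1.trans ?_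
    rw [pow_add, Nat.mul_comm]
    exact Nat.mul_le_mul_left _ (one_add_mul_le m n _ hk)
  intro I hI
  have hw : I.dst ∈ wr (vP m n) := ⟨I, hI, rfl⟩
  rw [mem_wr_vP] at hw
  rcases hw with ⟨k, hk, h⟩ | ⟨k, hk, h⟩ | h
  · rw [h]
    exact hsum k hk
  · rw [h]
    obtain ⟨z, h1, h2⟩ := sq_int A b hD3 (k / n) (k % n)
    exact ⟨D * D, z, Nat.mul_pos hD1 hD1, hDD.trans hle, h1.trans hle, h2⟩
  · rw [h]
    obtain ⟨E, z, h1, h2, h3, h4⟩ := hsum (m * n) le_rfl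
    refine ⟨E, - z, h1, h2, by rwa [Int.natAbs_neg], ?_⟩
    rw [valV_s] at h4
    show (- sc A) * (E : ℝ) = _
    push_cast
    linarith

end

/-- Sizes relative to the virtual input. -/
theorem gd_virt {m n S' : ℕ} {q' : Polynomial ℕ} (A : Fin m → Fin n → ℝ) (b : Fin m → ℝ) {v : ℝ}
    (h : Gd q' S' (start (vA A) (vb (n := n) b)) v) {q : Polynomial ℕ} {S : ℕ}
    (hq : ∀ lam, q'.eval (S' + (2 * lam + (m + n))) ≤ q.eval (S + lam)) :
    Gd q S (start A b) v := fun lam hl =>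
  qb_mono (hq lam) (h _ (rb_virt A b hl))

/-- The translation of queries. -/
theorem hasVal_vq {m n S' : ℕ} {q' : Polynomial ℕ} (A : Fin m → Fin n → ℝ) (b : Fin m → ℝ)
    {q : Polynomial ℕ} {S : ℕ}
    (hq : ∀ lam, q'.eval (S' + (2 * lam + (m + n))) ≤ q.eval (S + lam))
    (hq2 : ∀ lam, 2 * lam + (m + n) ≤ q.eval (S + lam)) {Q : Qry} {v : ℝ}
    (h : HasVal (start (vA A) (vb (n := n) b)) (Gd q' S' (start (vA A) (vb (n := n) b))) Q v) :
    HasVal (start A b) (Gd q S (start A b)) (vq m n Q) v ∧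
      (vq m n Q).1.length ≤ Q.1.length + (2 * (m * n) + 2) := by
  refine ⟨?_, ?_⟩
  · refine hasVal_ren (V := valV A b) (g' := start (vA A) (vb (n := n) b)) (ord_vP m n) ?_
      (fun r hr => vr_base hr) (fun r hr => vr_not hr) (fun r hr => valV_base A b hr) ?_
      (fun r hr => vr_val A b hr) (hasVal_mono (fun v hv => gd_virt A b hv hq) h)
    · intro r hr
      rcases mem_wr_vP.1 hr with ⟨k, -, h⟩ | ⟨k, -, h⟩ | h
      · rw [h]; simp
      · rw [h]; simp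
      · rw [h]; simp
    · intro I hI
      exact ⟨eqn_vP A b I hI, fun lam hl =>
        qb_mono (hq2 lam) (qb_vP A b hl I hI)⟩
  · unfold vq
    rw [List.length_append, vP_len, List.length_map]
    omega

/-- Runs on the virtual input. -/
theorem runs_virt {β : Type} {m n S' : ℕ} {q' : Polynomial ℕ} (A : Fin m → Fin n → ℝ)
    (b : Fin m → ℝ) {q : Polynomial ℕ} {S : ℕ}
    (hq : ∀ lam, q'.eval (S' + (2 * lam + (m + n))) ≤ q.eval (S + lam))
    (hq2 : ∀ lam, 2 * lam + (m + n) ≤ q.eval (S + lam)) {T : TT β} {x : β} {c : ℕ}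
    (h : Runs (start (vA A) (vb (n := n) b)) (Gd q' S' (start (vA A) (vb (n := n) b))) T x c) :
    Runs (start A b) (Gd q S (start A b)) (mapT (vq m n) T) x ((2 * (m * n) + 2 + 1) * c) :=
  runs_mapT (fun _ _ hQ => hasVal_vq A b hq hq2 hQ) h

end Pool.Agent.V8H17.LP
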