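import Pool.Agent.V8H17.LP.Virt
import Pool.Agent.Y648.CS.T_QQ

set_option autoImplicit false

/-!
# Computations on a virtual input: polynomial time
-/

namespace Pool.Agent.V8H17.LP

open Pool.Agent.NPC Pool.Agent.H558R2 Pool.Agent.H622R3.SM Pool.Agent.W920.FC
  Pool.Agent.Y648.CS.TTUP Pool.Agent.Y648.CS.TQQ

variable {α : Type} [TEnc α]

theorem pvr {m n : α → ℕ} {r : α → Reg} (hm : Poly m) (hn : Poly n) (hr : Poly r) :
    Poly (fun a => vr (m a) (n a) (r a)) := by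
  have hh := pheadD hr
  have g1 : Poly (fun a => (r a).getD 1 0) := NPC.Poly.getD hr (NPC.Poly.const 1) (NPC.Poly.const 0)
  have g2 : Poly (fun a => (r a).getD 2 0) := NPC.Poly.getD hr (NPC.Poly.const 2) (NPC.Poly.const 0)
  have hl := NPC.Poly.length hr
  have k3 : Poly (fun _ : α => ([3] : Reg)) := NPC.Poly.const [3]
  unfold vr
  refine NPC.Poly.ite (NPC.Poly.dec_eq hr (NPC.Poly.const [2])) (NPC.Poly.const [2]) ?_
  refine NPC.Poly.ite (NPC.Poly.decide_le (NPC.Poly.const 4) hh)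
    (NPC.Poly.cons (NPC.Poly.const 93) hr) ?_
  refine NPC.Poly.ite (NPC.Poly.decide_and (NPC.Poly.dec_eq hl (NPC.Poly.const 3))
    (NPC.Poly.dec_eq hh (NPC.Poly.const 0))) ?_ ?_
  · refine NPC.Poly.ite (NPC.Poly.decide_lt g1 hm) hr ?_
    refine NPC.Poly.ite (NPC.Poly.decide_and (NPC.Poly.decide_lt g2 hn)
      (NPC.Poly.dec_eq g1 (NPC.Poly.add hm g2))) ?_ ?_
    · exact NPC.Poly.cons (NPC.Poly.const 90) (NPC.Poly.cons (NPC.Poly.mul hm hn)
        (NPC.Poly.const []))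
    · exact NPC.Poly.ite (NPC.Poly.decide_and (NPC.Poly.decide_lt g2 hn)
        (NPC.Poly.dec_eq g1 (NPC.Poly.add hm (NPC.Poly.add hn g2)))) (NPC.Poly.const [92]) k3
  · exact NPC.Poly.ite (NPC.Poly.decide_and (NPC.Poly.dec_eq hl (NPC.Poly.const 2))
      (NPC.Poly.decide_and (NPC.Poly.dec_eq hh (NPC.Poly.const 1)) (NPC.Poly.decide_lt g1 hm)))
      hr k3

theorem pvP {m n : α → ℕ} (hm : UPoly m) (hn : UPoly n) :
    Poly (fun a => vP (m a) (n a)) := by
  have hmn : UPoly (fun a => m a * n a) := UPoly.mul hm hn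
  have k2 : Poly (fun _ : α => ([2] : Reg)) := NPC.Poly.const [2]
  have k3 : Poly (fun _ : α => ([3] : Reg)) := NPC.Poly.const [3]
  unfold vP
  refine NPC.Poly.append (NPC.Poly.const _) (NPC.Poly.append ?_ ?_)
  · refine NPC.Poly.flatMap (F := fun a k => vblk (n a) k) hmn.range ?_
    unfold vblk
    have b : Poly (fun q : α × ℕ => q.1) := NPC.Poly.fst NPC.Poly.id
    have b2 : Poly (fun q : α × ℕ => q.2) := NPC.Poly.snd NPC.Poly.id
    have bn : Poly (fun q : α × ℕ => n q.1) := hn.toPoly.comp b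
    have e : Poly (fun q : α × ℕ => ([0, q.2 / n q.1, q.2 % n q.1] : Reg)) :=
      NPC.Poly.cons (NPC.Poly.const 0) (NPC.Poly.cons (NPC.Poly.div b2 bn)
        (NPC.Poly.cons (NPC.Poly.mod b2 bn) (NPC.Poly.const [])))
    have r1 : Poly (fun q : α × ℕ => ([91, q.2] : Reg)) :=
      NPC.Poly.cons (NPC.Poly.const 91) (NPC.Poly.cons b2 (NPC.Poly.const []))
    have r0 : Poly (fun q : α × ℕ => ([90, q.2] : Reg)) :=
      NPC.Poly.cons (NPC.Poly.const 90) (NPC.Poly.cons b2 (NPC.Poly.const []))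
    have r2 : Poly (fun q : α × ℕ => ([90, q.2 + 1] : Reg)) :=
      NPC.Poly.cons (NPC.Poly.const 90) (NPC.Poly.cons (NPC.Poly.succ b2) (NPC.Poly.const []))
    exact NPC.Poly.cons (TPM.pInstr _ r1 e e) (NPC.Poly.cons (TPM.pInstr _ r2 r0 r1)
      (NPC.Poly.const []))
  · refine NPC.Poly.cons (TPM.pInstr _ (NPC.Poly.const _) k3 ?_) (NPC.Poly.const [])
    exact NPC.Poly.cons (NPC.Poly.const 90) (NPC.Poly.cons hmn.toPoly (NPC.Poly.const []))

theorem pvq {m n : α → ℕ} {q : α → Qry} (hm : UPoly m) (hn : UPoly n) (hq : Poly q) :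
    Poly (fun a => vq (m a) (n a) (q a)) := by
  unfold vq
  refine NPC.Poly.pair (NPC.Poly.append (pvP hm hn) ?_) (pvr hm.toPoly hn.toPoly
    (NPC.Poly.snd hq))
  refine NPC.Poly.map (l := fun a => (q a).1) (F := fun a I => ren (vr (m a) (n a)) I)
    (NPC.Poly.fst hq) ?_
  unfold ren
  have b : Poly (fun p : α × Instr => p.1) := NPC.Poly.fst NPC.Poly.id
  have b2 : Poly (fun p : α × Instr => p.2) := NPC.Poly.snd NPC.Poly.id
  have bm : Poly (fun p : α × Instr => m p.1) := hm.toPoly.comp b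
  have bn : Poly (fun p : α × Instr => n p.1) := hn.toPoly.comp b
  exact pmk b2 (pvr bm bn (pdst b2)) (pvr bm bn (pfst b2)) (pvr bm bn (psnd b2))

/-- The computation on the virtual input in polynomial time. -/
theorem pt_virt {β : Type} [TEnc β] {m n : α → ℕ} {T : α → TT β} (hm : UPoly m) (hn : UPoly n)
    (hT : PT T) : PT (fun a => mapT (vq (m a) (n a)) (T a)) := by
  refine pt_mapT (φ := fun a q => vq (m a) (n a) q) ?_ hT
  exact pvq (UPoly.comp (n := m) hm (NPC.Poly.fst NPC.Poly.id))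
    (UPoly.comp (n := n) hn (NPC.Poly.fst NPC.Poly.id)) (NPC.Poly.snd NPC.Poly.id)

end Pool.Agent.V8H17.LP
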