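import Pool.Agent.V8H17.LP.Sc
import Pool.Agent.V8H17.LP.Virt3
import Pool.Agent.V8H17.LP.VirtP
import Pool.Agent.Y648.CW.All

set_option autoImplicit false

/-!
# The main theorem for the algorithm on the virtual input
-/

namespace Pool.Agent.V8H17.LP

open Pool.Agent.NPC Pool.Agent.H558R2 Pool.Agent.H622R3.SM Pool.Agent.W920.FC
  Pool.Agent.Y648.CS Pool.Agent.Y529.CS

theorem vM_pos {m n : ℕ} (hn : 1 ≤ n) : 1 ≤ vM m n := by
  unfold vM
  omega

open FN FL in
/-- The run on the virtual input. -/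
theorem runsN0 (hPHS : W.S_PHS) (hM : S_MOV) (hCM : W.S_CMPQ) (hPR : W.S_PR)
    (hCUT : W.S_CUTC) :
    ∃ q : Polynomial ℕ, ∀ m n : ℕ, 1 ≤ n → ∀ (A : Fin m → Fin n → ℝ)
      (b : Fin m → ℝ) (r : ℕ), Scales r A → ∃ ans : Bool,
      Runs (start (vA A) (vb (n := n) b)) (Gd q (vM m n + n + r)
        (start (vA A) (vb (n := n) b))) (TN0 m n) ans (q.eval (vM m n + n + r)) ∧
      (ans = true ↔ ∃ x : Fin n → ℝ, ∀ c, b c ≤ ∑ i, A c i * x i) := by
  obtain ⟨qn, hn⟩ := hCUT
  obtain ⟨qN, hqN⟩ : ∃ qN : Polynomial ℕ, ∀ x, qn.eval (x + 1) ≤ qN.eval x := by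
    refine ⟨qn.comp (Polynomial.X + 1), fun x => ?_⟩
    simp
  obtain ⟨q0, h0⟩ := hPHS (64 * (pD * pD) + qN)
  obtain ⟨q1, h1⟩ := hPHS (q0 + 64 * (pD * pD) + qN)
  obtain ⟨qc, hc⟩ := hCM 1
  obtain ⟨qp, hp⟩ := hPR 2
  obtain ⟨q, hq⟩ : ∃ q : Polynomial ℕ, q = (q0 + (q1 + (qc + qp))) + (Polynomial.X + (Polynomial.X *
    (Polynomial.X * (qc + 1)) + (qp + 1))) := ⟨_, rfl⟩
  have l0 : PLe q0 q := by
    rw [hq]; exact (ple_add_left _ _).trans (ple_add_left _ _)
  have l1 : PLe q1 q := by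
    rw [hq]; exact ((ple_add_left _ _).trans (ple_add_right _ _)).trans (ple_add_left _ _)
  have lc : PLe qc q := by
    rw [hq]
    exact (((ple_add_left _ _).trans (ple_add_right _ _)).trans (ple_add_right _ _)).trans
      (ple_add_left _ _)
  have lp : PLe qp q := by
    rw [hq]
    exact (((ple_add_right _ _).trans (ple_add_right _ _)).trans (ple_add_right _ _)).trans
      (ple_add_left _ _)
  refine ⟨q, fun m' n hn1 A b r hA => ?_⟩
  obtain ⟨hI0, hnn⟩ := beg0N hM A b
  have hS0 := scN0 A b hA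
  have hS1 : ∀ B : List Bool, ScOn (r + 1) (Lsp (vM m' n) n 1 (start (vA A) (vb (n := n) b))
      (dr1 (vM m' n) (B.take m'))) (Xc (vM m' n) (dr1 (vM m' n) (B.take m')))
      (vM m' n + vM m' n + 1) := fun B => scN1 A b hA (short_take m' B)
  have hB1 := fun E j W B₀ B hB hT => beg1N (E := E) (j := j) hM A b W B₀ B hB hT
  have hgb : ∀ j < vM m' n, start (vA A) (vb (n := n) b) [1, j] =
      if h : j < m' then b ⟨j, h⟩ else 0 := by
    intro j hj
    exact start1 (vA A) (vb (n := n) b) ⟨j, hj⟩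
  have hbase : Base (start (vA A) (vb (n := n) b)) := base_start _ _
  have hm : 1 ≤ vM m' n := vM_pos hn1
  have hcut : m' ≤ vM m' n := by unfold vM; omega
  unfold TN0
  generalize hd : drN m' n = dr at hI0 hnn hS0 hB1 ⊢
  generalize hgd : start (vA A) (vb (n := n) b) = g at hI0 hnn hS0 hS1 hB1 hgb hbase ⊢
  generalize hMd : vM m' n = m at hI0 hnn hS0 hS1 hB1 hgb hm hcut ⊢
  obtain ⟨S, hSd⟩ : ∃ S, S = m + n + r := ⟨_, rfl⟩
  have hS : m + n ≤ S := by omega
  rw [← hSd]
  have hqe : q.eval S = (q0.eval S + (q1.eval S + (qc.eval S +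
      qp.eval S))) + (S + (S * (S * (qc.eval S + 1)) +
        (qp.eval S + 1))) := by
    rw [hq]
    simp only [Polynomial.eval_add, Polynomial.eval_mul, Polynomial.eval_X, Polynomial.eval_one]
  have hK2 : 64 * (cD m n * cD m n) ≤ (64 * (pD * pD) : Polynomial ℕ).eval S := by
    simp only [Polynomial.eval_mul, Polynomial.eval_ofNat]
    exact Nat.mul_le_mul_left _ (Nat.mul_le_mul (W.pD_leS hS) (W.pD_leS hS))
  obtain ⟨N, hN⟩ : ∃ N, N = qn.eval (m + n + (r + 1)) := ⟨_, rfl⟩
  have hNS : N ≤ qN.eval S := by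
    rw [hN, hSd]
    exact hqN _
  obtain ⟨s, r0, hs⟩ := h0 m n 0 S N g dr (64 * (cD m n * cD m n)) moOne
    (List.replicate (m + m) moOne) [] hbase hS (by rw [Polynomial.eval_add]; omega)
    (by rw [Polynomial.eval_add]; omega) le_rfl hI0
    (fun T M hT => by rw [hN]; exact hn m n 0 (r + 1) g dr T M (by omega) hS0 hT)
  have hs2 : s.1 = 2 ∧ Trm m n 0 g dr (q0.eval S) s.2.2.1 s.2.2.2 := by
    rcases hs with ⟨-, x, hx1, hx2, hx3⟩ | h
    · exact absurd hx3 (not_lt.2 (hnn x hx1 hx2))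
    · exact h
  obtain ⟨hs1, hTrm⟩ := hs2
  -- the queries on `b`
  have hcmp : ∀ i j : ℕ, HasVal g (Gd qc S g) (cmpQ m n (t1 m n i) (t1 m n j))
      (cmV m n g (t1 m n i) (t1 m n j)) ∧
      (cmpQ m n (t1 m n i) (t1 m n j)).1.length ≤ qc.eval S := by
    intro i j
    have e1 : (1 : Polynomial ℕ).eval S = 1 := Polynomial.eval_one
    exact hc m n S g _ _ hbase hS (by rw [e1]; exact t1_sz m n i) (by rw [e1]; exact t1_sz m n j)
  have rb := runs_batch (W.bQs_valS fun i j => (hcmp i j).1)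
  have sb := bQs_len (m := m) (n := n) fun i j => (hcmp i j).2
  obtain ⟨o, ho⟩ : ∃ o, o = (bVals m n g).map signOut := ⟨_, rfl⟩
  rw [← ho] at rb
  have ho1 : ∀ j < m, o.getD j none = signOut (g [1, j]) := fun j hj => by rw [ho, bV1 g hj]
  have hmS : m ≤ S := by omega
  have hmc : m * (m * (qc.eval S + 1)) ≤ S * (S * (qc.eval S + 1)) :=
    Nat.mul_le_mul hmS (Nat.mul_le_mul_right _ hmS)
  by_cases hall : ((List.range m).all fun j => decide (o.getD j none ≠ some true)) = true
  · -- all entries of `b` are at most zero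
    refine ⟨true, ?_, ?_⟩
    · have r : Runs g (Gd q S g) (bnd (W.whl (itr m n 0 dr) (st0 m)) fun s =>
          W.TBW m n (cut m' s)) true
          (q0.eval S + (((bQs m n).map fun q => q.1.length + 1).sum + 0)) := by
        refine runs_bnd (runs_mono l0 le_rfl r0) ?_
        unfold W.TBW
        rw [if_neg (by
          show ¬ (s.1 ≠ 2)
          rw [hs1]; norm_num)]
        refine runs_bnd (runs_mono lc le_rfl rb) ?_
        rw [if_pos hall]
        exact runs_ret _
      refine t_TT.2.2.2 _ _ _ _ _ _ _ _ (fun _ h => h) ?_ r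
      rw [hqe]
      omega
    · refine ⟨fun _ => ⟨0, ?_⟩, fun _ => rfl⟩
      intro j
      simp only [Pi.zero_apply, mul_zero, Finset.sum_const_zero]
      rw [List.all_eq_true] at hall
      have hjm : (j : ℕ) < m := lt_of_lt_of_le j.2 hcut
      have h2 := hall j (List.mem_range.2 hjm)
      rw [decide_eq_true_eq, ho1 j hjm, Ne, signOut_true, not_lt, hgb j hjm, dif_pos j.2] at h2
      exact h2
  · -- the second phase
    have hval : ∀ i < m, |moV m n g (t1 m n i)| = |g [1, i]| := fun i hi => t1_val hM m n i hi g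
    have ht1ok : ∀ i, MoOK m n g (t1 m n i) := by
      intro i
      obtain ⟨-, -, -, -, -, -, -, -, hmin, -, -⟩ := hM m n g
      exact (hmin _).2
    obtain ⟨hbm, hbx⟩ := bMax_spec hm (fun i => |g [1, i]|) o (by
      intro i hi j hj
      rw [ho, bV2 g hi hj]
      obtain ⟨-, -, -, -, -, -, -, -, -, hcs, -⟩ := hM m n g
      rw [hcs _ _ (ht1ok i) (ht1ok j), hval i hi, hval j hj])
    obtain ⟨j, hj⟩ : ∃ j, j = bMax m o := ⟨_, rfl⟩
    rw [← hj] at hbm hbx
    have hne : g [1, j] ≠ 0 := by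
      rw [List.all_eq_true] at hall
      push Not at hall
      obtain ⟨i, hi, h2⟩ := hall
      have hi' := List.mem_range.1 hi
      rw [ho1 i hi'] at h2
      have h3 : signOut (g [1, i]) = some true := by
        by_contra h4
        exact h2 (decide_eq_true h4)
      rw [signOut_true] at h3
      have h4 := hbx i hi'
      rw [abs_of_pos h3] at h4
      intro h5
      rw [h5, abs_zero] at h4
      linarith
    have hfx : HasVal g (Gd qp S g) (fxQ m n (t1 m n j))
        (prV m n g 0 ((t1 m n j).2.1 ++ (t1 m n j).2.2)) ∧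
        (fxQ m n (t1 m n j)).1.length ≤ qp.eval S := by
      refine hp m n S g 0 _ hbase hS (Nat.zero_le _) ?_
      have e2 : (2 : Polynomial ℕ).eval S = 2 := Polynomial.eval_ofNat _ _
      rw [e2]
      simp [t1, moMin]
    have rf := runs_batch (List.Forall₂.cons hfx.1 List.Forall₂.nil)
    obtain ⟨o', ho'⟩ : ∃ o', o' = (List.map signOut
      [prV m n g 0 ((t1 m n j).2.1 ++ (t1 m n j).2.2)]) := ⟨_, rfl⟩
    rw [← ho'] at rf
    have ho'0 : o'.getD 0 none = signOut (prV m n g 0 ((t1 m n j).2.1 ++ (t1 m n j).2.2)) := by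
      rw [ho']; rfl
    obtain ⟨hb1, hb2, hb3⟩ := hB1 (q0.eval S + 64 * (cD m n * cD m n)) j
      s.2.2.1 s.2.2.2 (s.2.2.2.take m') rfl (hTrm.mono (Nat.le_add_right _ _))
    have hI1 := hb1 hbm hne hbx (o'.getD 0 none) ho'0
    obtain ⟨s', r1, hs'⟩ := h1 m n 1 S N g (dr1 m (s.2.2.2.take m'))
      (q0.eval S + 64 * (cD m n * cD m n))
      _ _ [] hbase hS (by simp only [Polynomial.eval_add]; omega)
      (by simp only [Polynomial.eval_add]; omega) (by omega) hI1
      (fun T M hT => by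
        rw [hN]; exact hn m n 1 (r + 1) g (dr1 m (s.2.2.2.take m')) T M (by omega) (hS1 _) hT)
    refine ⟨decide (s'.1 ≠ 1), ?_, ?_⟩
    · have r : Runs g (Gd q S g) (bnd (W.whl (itr m n 0 dr) (st0 m)) fun s =>
          W.TBW m n (cut m' s)) (decide (s'.1 ≠ 1))
          (q0.eval S + (((bQs m n).map fun q => q.1.length + 1).sum +
            ((([fxQ m n (t1 m n j)].map fun q => q.1.length + 1).sum) +
              (q1.eval S + 0)))) := by
        refine runs_bnd (runs_mono l0 le_rfl r0) ?_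
        unfold W.TBW
        rw [if_neg (by
          show ¬ (s.1 ≠ 2)
          rw [hs1]; norm_num)]
        refine runs_bnd (runs_mono lc le_rfl rb) ?_
        rw [if_neg hall, ← hj]
        refine runs_bnd (runs_mono lp le_rfl rf) ?_
        exact runs_bnd (runs_mono l1 le_rfl r1) (runs_ret _)
      refine t_TT.2.2.2 _ _ _ _ _ _ _ _ (fun _ h => h) ?_ r
      rw [hqe]
      have h6 : (([fxQ m n (t1 m n j)].map fun q => q.1.length + 1).sum) =
          (fxQ m n (t1 m n j)).1.length + 1 := by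
        simp
      rw [h6]
      have h7 := hfx.2
      omega
    · rcases hs' with ⟨h2, h3⟩ | ⟨h2, h3⟩
      · rw [h2]
        constructor
        · intro h4
          exact absurd h4 (by simp)
        · intro h4
          exact absurd h4 (hb2 h3)
      · rw [h2]
        constructor
        · intro _
          refine hb3 fun y hy => ?_
          exact (h3.2.1 y hy).2.2
        · intro _
          simp

end Pool.Agent.V8H17.LP
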