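import Pool.Agent.V8H17.LP.Main

set_option autoImplicit false

/-!
# The main theorem for the algorithm on the virtual input: polynomial time
-/

namespace Pool.Agent.V8H17.LP

open Pool.Agent.NPC Pool.Agent.H558R2 Pool.Agent.H622R3.SM Pool.Agent.W920.FC
  Pool.Agent.Y648.CS Pool.Agent.Y529.CS

theorem pt_TN : PT (fun a : List Unit × List Unit => TN a.1.length a.2.length) := by
  obtain ⟨hOUT, hCTRL⟩ := t_OUT
  obtain ⟨hPP3, hPP4⟩ := t_PP34
  have hQP := Pool.Agent.W920.FD.t_QP Pool.Agent.W920.FD.t_QF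
  have hm : UPoly (fun a : List Unit × List Unit => a.1.length) :=
    UPoly.length (NPC.Poly.fst NPC.Poly.id)
  have hn : UPoly (fun a : List Unit × List Unit => a.2.length) :=
    UPoly.length (NPC.Poly.snd NPC.Poly.id)
  have hM : UPoly (fun a : List Unit × List Unit => vM a.1.length a.2.length) :=
    UPoly.add hm (UPoly.add hn hn)
  unfold TN
  refine pt_virt hm hn ?_
  unfold TN0
  refine t_PT.2.1 (List Unit × List Unit) PS Bool
    (fun a => W.whl (itr (vM a.1.length a.2.length) a.2.length 0 (drN a.1.length a.2.length))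
      (st0 (vM a.1.length a.2.length)))
    (fun a s => W.TBW (vM a.1.length a.2.length) a.2.length (cut a.1.length s)) ?_ ?_
  · refine W.pt_whl hOUT t_PT t_PTITER hQP hPP4 0 hM hn ?_ ?_
    · unfold drN
      refine NPC.Poly.map (l := fun a : List Unit × List Unit =>
        List.range (vM a.1.length a.2.length + vM a.1.length a.2.length))
        (F := fun a c => !(decide (c < a.1.length) ||
          decide (vM a.1.length a.2.length + a.1.length ≤ c))) (UPoly.add hM hM).range ?_
      have b : Poly (fun q : (List Unit × List Unit) × ℕ => q.1) := NPC.Poly.fst NPC.Poly.id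
      have b2 : Poly (fun q : (List Unit × List Unit) × ℕ => q.2) := NPC.Poly.snd NPC.Poly.id
      exact NPC.Poly.not (NPC.Poly.or (NPC.Poly.decide_lt b2 (hm.toPoly.comp b))
        (NPC.Poly.decide_le (NPC.Poly.add (hM.toPoly.comp b) (hm.toPoly.comp b)) b2))
    · unfold st0
      refine NPC.Poly.pair (NPC.Poly.const 0) (NPC.Poly.pair (NPC.Poly.const _) (NPC.Poly.pair
        ?_ (NPC.Poly.const [])))
      exact (NPC.Poly.map (F := fun _ _ => moOne) (UPoly.add hM hM).range
        (NPC.Poly.const _)).congr fun a => by simp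
  · have b : Poly (fun q : (List Unit × List Unit) × PS => q.1) := NPC.Poly.fst NPC.Poly.id
    have b2 : Poly (fun q : (List Unit × List Unit) × PS => q.2) := NPC.Poly.snd NPC.Poly.id
    refine W.pt_TBW hOUT t_PT t_PTITER hQP hPP4
      (UPoly.comp (n := fun a : List Unit × List Unit => vM a.1.length a.2.length) hM b)
      (UPoly.comp (n := fun a : List Unit × List Unit => a.2.length) hn b) ?_
    unfold cut
    refine NPC.Poly.pair (NPC.Poly.fst b2) (NPC.Poly.pair (NPC.Poly.fst (NPC.Poly.snd b2))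
      (NPC.Poly.pair (NPC.Poly.fst (NPC.Poly.snd (NPC.Poly.snd b2))) ?_))
    exact NPC.Poly.take_length (NPC.Poly.snd (NPC.Poly.snd (NPC.Poly.snd b2)))
      (NPC.Poly.fst b)

open FN FL in
/-- The main theorem. -/
theorem mainN : PolyControl algN ∧ OracleFree algN ∧ ∃ p : Polynomial ℕ, ∀ m n : ℕ, 1 ≤ m →
    1 ≤ n → ∀ (A : Matrix (Fin m) (Fin n) ℝ) (b : Fin m → ℝ) (r : ℕ), Scales r A →
    ∃ ans nums steps,
      run ∅ (algN m n) (p.eval (m + n + r)) [] (start A b) = some (ans, nums, steps) ∧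
      (ans = true ↔ ∃ x : Fin n → ℝ, b ≤ A.mulVec x) ∧ steps ≤ p.eval (m + n + r) ∧
      ∀ (A' : Matrix (Fin m) (Fin n) ℚ) (b' : Fin m → ℚ), (∀ i j, ((A' i j : ℚ) : ℝ) = A i j) →
        (∀ i, ((b' i : ℚ) : ℝ) = b i) →
        ∀ v ∈ nums, ∃ q : ℚ, (q : ℝ) = v ∧ bitLength q ≤ p.eval (inputLength A' b' + r) := by
  obtain ⟨hCMPQ, hPR, hPHS, -, hCTRL⟩ := W.parts
  have hGRV := t_GRV t_GRD
  have hFST := Pool.Agent.Y721.CS.t_FST Pool.Agent.Y721.CS.t_DECO
  have hCUTC := W.t_CUTC t_LSP t_GRD hGRV hFST Pool.Agent.Y721.CS.t_CNT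
  obtain ⟨q', hq'⟩ := runsN0 hPHS t_MOV hCMPQ hPR hCUTC
  have hRUN := t_RUN
  have hBITS := t_BITS
  refine ⟨hCTRL TN pt_TN, ?_, ?_⟩
  · intro m n h w
    unfold algN algOf
    cases TN m n h <;> simp
  · obtain ⟨qs, hqs⟩ : ∃ qs : Polynomial ℕ, qs = q'.comp (4 * Polynomial.X) + 2 * Polynomial.X +
      (2 * (Polynomial.X * Polynomial.X) + 3) * q'.comp (4 * Polynomial.X) := ⟨_, rfl⟩
    have he : ∀ x, qs.eval x = q'.eval (4 * x) + 2 * x + (2 * (x * x) + 3) * q'.eval (4 * x) := by
      intro x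
      rw [hqs]
      simp only [Polynomial.eval_add, Polynomial.eval_mul, Polynomial.eval_comp,
        Polynomial.eval_X, Polynomial.eval_ofNat]
    refine ⟨qs + 1 + (2 * qs.comp (3 * Polynomial.X) + 3), ?_⟩
    intro m n hm hn A b r hC
    obtain ⟨ans, rr0, hans⟩ := hq' m n hn A b r hC
    have rr1 := runs_virt A b (q := qs) (S := m + n + r) (fun lam => by
        rw [he]
        have h1 := pe_mono q' (show vM m n + n + r + (2 * lam + (m + n)) ≤
          4 * (m + n + r + lam) by unfold vM; omega)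
        omega) (fun lam => by
        rw [he]
        omega) rr0
    have rr : Runs (start A b) (Gd qs (m + n + r) (start A b)) (TN m n) ans
        (qs.eval (m + n + r)) := by
      refine t_TT.2.2.2 _ _ _ _ _ _ _ _ (fun _ h => h) ?_ rr1
      rw [he]
      have h1 := pe_mono q' (show vM m n + n + r ≤ 4 * (m + n + r) by unfold vM; omega)
      have h2 : m * n ≤ (m + n + r) * (m + n + r) := Nat.mul_le_mul (by omega) (by omega)
      have h3 : (2 * (m * n) + 2 + 1) * q'.eval (vM m n + n + r) ≤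
          (2 * ((m + n + r) * (m + n + r)) + 3) * q'.eval (4 * (m + n + r)) :=
        Nat.mul_le_mul (by omega) h1
      omega
    have hfuel : qs.eval (m + n + r) + 1 ≤
        (qs + 1 + (2 * qs.comp (3 * Polynomial.X) + 3)).eval (m + n + r) := by
      simp only [Polynomial.eval_add, Polynomial.eval_one]
      omega
    obtain ⟨nums, steps, hrun, hsteps, hG⟩ := hRUN TN m n _ _ ans _ rr ∅ _ hfuel
    refine ⟨ans, nums, steps, hrun, hans, by omega, ?_⟩
    intro A' b' hA hb' v hv'
    have hA2 : (fun i j => ((A' i j : ℚ) : ℝ)) = (A : Fin m → Fin n → ℝ) := by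
      funext i j
      exact hA i j
    have hb2 : (fun i => ((b' i : ℚ) : ℝ)) = b := by
      funext i
      exact hb' i
    have hRB := hBITS.2 m n A' b'
    rw [hA2, hb2] at hRB
    have hQ := hG v hv' _ hRB
    obtain ⟨q, hq, hq2⟩ := hBITS.1 _ _ hQ
    refine ⟨q, hq, hq2.trans ?_⟩
    have hL := le_inputLength hm A' b'
    have hmono := pe_mono qs (show m + n + r + 2 * inputLength A' b' ≤
      3 * (inputLength A' b' + r) by omega)
    simp only [Polynomial.eval_add, Polynomial.eval_mul, Polynomial.eval_comp,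
      Polynomial.eval_X, Polynomial.eval_ofNat]
    omega

end Pool.Agent.V8H17.LP
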