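import Pool.Agent.V8H17.LP.Flow
import Mathlib.LinearAlgebra.FiniteDimensional.Lemmas
import Mathlib.LinearAlgebra.Matrix.ToLin

set_option autoImplicit false

/-!
# Elementary vectors of a network

A row `r` with `σ r = some j` consumes one unit at `j` and produces `Q r k` units at `k`; a row with
`σ r = none` is a source.
-/

namespace Pool.Agent.V8H17.LP

open Finset

variable {R S : Type} [Fintype R] [DecidableEq R] [Fintype S] [DecidableEq S]

/-- The matrix of the network. -/
def nM (σ : R → Option S) (Q : R → S → ℝ) (r : R) (j : S) : ℝ :=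
  (if σ r = some j then 1 else 0) - Q r j

/-- Networks: the outputs of the consumers are zero or at least `ε`, and their sum is at most
one. -/
structure Net (ε : ℝ) (σ : R → Option S) (Q : R → S → ℝ) : Prop where
  eps : 0 < ε
  eps1 : ε ≤ 1
  Q0 : ∀ r j, 0 ≤ Q r j
  zero_or : ∀ r j, σ r ≠ none → Q r j = 0 ∨ ε ≤ Q r j
  row : ∀ r, σ r ≠ none → ∑ j, Q r j ≤ 1

/-- Vectors with minimal support. -/
structure Mnl (σ : R → Option S) (Q : R → S → ℝ) (v : R → ℝ) : Prop where
  ne : v ≠ 0
  nn : ∀ r, 0 ≤ v r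
  sol : ∀ j, ∑ r, v r * nM σ Q r j = 0
  min : ∀ z : R → ℝ, (∀ r, v r = 0 → z r = 0) → (∀ j, ∑ r, z r * nM σ Q r j = 0) →
    ∃ l : ℝ, z = l • v

section

variable {ε : ℝ} {σ : R → Option S} {Q : R → S → ℝ} {v : R → ℝ}

theorem Mnl.cnt (hv : Mnl σ Q v) (V : Finset R) (hV : ∀ r, r ∈ V ↔ v r ≠ 0) (E : Finset S)
    (hE : ∀ z : R → ℝ, (∀ r, v r = 0 → z r = 0) → (∀ j ∈ E, ∑ r, z r * nM σ Q r j = 0) →
      ∀ j, ∑ r, z r * nM σ Q r j = 0) :
    V.card ≤ E.card + 1 := by
  classical
  by_contra hlt
  push Not at hlt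
  obtain ⟨a, ha⟩ : V.Nonempty := Finset.card_pos.1 (by omega)
  have hav : v a ≠ 0 := (hV a).1 ha
  let N : Matrix (Option E) V ℝ := fun o r =>
    match o with
    | none => if (r : R) = a then 1 else 0
    | some j => nM σ Q r j
  have hker : LinearMap.ker N.mulVecLin ≠ ⊥ := by
    apply LinearMap.ker_ne_bot_of_finrank_lt
    rw [Module.finrank_pi, Module.finrank_pi, Fintype.card_option, Fintype.card_coe,
      Fintype.card_coe]
    exact hlt
  obtain ⟨x, hx, hx0⟩ := Submodule.exists_mem_ne_zero_of_ne_bot hker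
  have hx' : N.mulVec x = 0 := by
    have := LinearMap.mem_ker.1 hx
    rwa [Matrix.mulVecLin_apply] at this
  set z : R → ℝ := fun r => if h : r ∈ V then x ⟨r, h⟩ else 0 with hz
  have hzV : ∀ r, v r = 0 → z r = 0 := by
    intro r hr
    simp only [hz]
    rw [dif_neg]
    rw [hV]
    tauto
  have hsum : ∀ F : R → ℝ, ∑ r, z r * F r = ∑ r : V, F r * x r := by
    intro F
    have h1 : ∑ r, z r * F r = ∑ r ∈ V, z r * F r := by
      symm
      refine Finset.sum_subset (Finset.subset_univ _) fun r _ hr => ?_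
      simp only [hz]
      rw [dif_neg hr, zero_mul]
    rw [h1, ← Finset.sum_coe_sort V]
    refine Finset.sum_congr rfl fun r _ => ?_
    simp only [hz]
    rw [dif_pos r.2, mul_comm]
  have hzE : ∀ j ∈ E, ∑ r, z r * nM σ Q r j = 0 := by
    intro j hj
    rw [hsum]
    exact congrFun hx' (some ⟨j, hj⟩)
  obtain ⟨l, hl⟩ := hv.min z hzV (hE z hzV hzE)
  have hza : z a = 0 := by
    have h1 := congrFun hx' none
    have h2 : ∑ r : V, (if (r : R) = a then 1 else 0) * x r = 0 := h1
    rw [Finset.sum_eq_single (⟨a, ha⟩ : V)] at h2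
    · simp only [if_true, one_mul] at h2
      simp only [hz]
      rw [dif_pos ha, h2]
    · intro r _ hr
      rw [if_neg, zero_mul]
      intro h
      exact hr (Subtype.ext h)
    · intro h
      exact absurd (Finset.mem_univ _) h
  have hl0 : l = 0 := by
    have h1 : z a = l * v a := by rw [hl]; rfl
    rw [hza] at h1
    rcases mul_eq_zero.1 h1.symm with h | h
    · exact h
    · exact absurd h hav
  apply hx0
  funext r
  have h1 : z r = 0 := by rw [hl, hl0, zero_smul]; rfl
  simp only [hz] at h1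
  rw [dif_pos r.2] at h1
  exact h1

/-- The structure of a vector of minimal support. -/
theorem Mnl.inj (hN : Net ε σ Q) (hv : Mnl σ Q v) :
    (∀ r r', v r ≠ 0 → v r' ≠ 0 → σ r = σ r' → r = r') := by
  classical
  set V := Finset.univ.filter fun r => v r ≠ 0 with hV
  set Vc := V.filter fun r => σ r ≠ none with hVc
  set Vs := V.filter fun r => σ r = none with hVs
  set J : Finset S := Finset.univ.filter fun j => ∃ r, v r ≠ 0 ∧ σ r = some j with hJ
  have mV : ∀ r, r ∈ V ↔ v r ≠ 0 := fun r => by simp [hV]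
  have mJ : ∀ j, j ∈ J ↔ ∃ r, v r ≠ 0 ∧ σ r = some j := fun j => by simp [hJ]
  have hcard : Vs.card + Vc.card = V.card := by
    rw [hVs, hVc]
    exact Finset.card_filter_add_card_filter_not (s := V) (fun r => σ r = none)
  have himg : Vc.image σ = J.image some := by
    ext o
    rw [Finset.mem_image, Finset.mem_image]
    constructor
    · rintro ⟨r, hr, rfl⟩
      rw [hVc, Finset.mem_filter, mV] at hr
      obtain ⟨j, hj⟩ := Option.ne_none_iff_exists'.1 hr.2
      exact ⟨j, (mJ j).2 ⟨r, hr.1, hj⟩, hj.symm⟩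
    · rintro ⟨j, hj, rfl⟩
      obtain ⟨r, h1, h2⟩ := (mJ j).1 hj
      refine ⟨r, ?_, h2⟩
      rw [hVc, Finset.mem_filter, mV, h2]
      exact ⟨h1, by simp⟩
  have hJc : J.card = (Vc.image σ).card := by
    rw [himg, Finset.card_image_of_injective _ (Option.some_injective _)]
  have hle : J.card ≤ Vc.card := by
    rw [hJc]
    exact Finset.card_image_le
  have hinj : Vc.card ≤ J.card → ∀ r r', v r ≠ 0 → v r' ≠ 0 → σ r ≠ none → σ r = σ r' →
      r = r' := by
    intro h r r' hr hr' hn hσ
    have h1 : (Vc.image σ).card = Vc.card := by omega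
    have h2 := Finset.card_image_iff.1 h1
    refine h2 ?_ ?_ hσ
    · rw [Finset.mem_coe, hVc, Finset.mem_filter, mV]
      exact ⟨hr, hn⟩
    · rw [Finset.mem_coe, hVc, Finset.mem_filter, mV]
      exact ⟨hr', hσ ▸ hn⟩
  -- inactive states
  have hout : ∀ j, j ∉ J → ∀ r, v r ≠ 0 → nM σ Q r j = 0 := by
    intro j hj r hr
    have hn : ∀ r, v r ≠ 0 → σ r ≠ some j := fun r hr h => hj ((mJ j).2 ⟨r, hr, h⟩)
    have h1 := hv.sol j
    have h2 : ∑ r, v r * Q r j = 0 := by
      rw [← neg_eq_zero, ← h1, ← Finset.sum_neg_distrib]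
      refine Finset.sum_congr rfl fun r _ => ?_
      by_cases h : v r = 0
      · rw [h, zero_mul, zero_mul, neg_zero]
      · unfold nM
        rw [if_neg (hn r h)]
        ring
    have h3 := (Finset.sum_eq_zero_iff_of_nonneg
      (fun r _ => mul_nonneg (hv.nn r) (hN.Q0 r j))).1 h2 r (Finset.mem_univ r)
    rcases mul_eq_zero.1 h3 with h | h
    · exact absurd h hr
    · unfold nM
      rw [if_neg (hn r hr), h, sub_zero]
  have hout2 : ∀ z : R → ℝ, (∀ r, v r = 0 → z r = 0) → ∀ j, j ∉ J →
      ∑ r, z r * nM σ Q r j = 0 := by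
    intro z hz j hj
    refine Finset.sum_eq_zero fun r _ => ?_
    by_cases h : v r = 0
    · rw [hz r h, zero_mul]
    · rw [hout j hj r h, mul_zero]
  by_cases hs : Vs.card = 0
  · -- no sources
    rw [Finset.card_eq_zero] at hs
    have hns : ∀ r, v r ≠ 0 → σ r ≠ none := by
      intro r hr h
      have : r ∈ Vs := by rw [hVs, Finset.mem_filter, mV]; exact ⟨hr, h⟩
      rw [hs] at this
      simp at this
    have hsw : ∀ z : R → ℝ, (∀ r, v r = 0 → z r = 0) →
        ∑ j, ∑ r, z r * nM σ Q r j = ∑ r, z r * (1 - ∑ j, Q r j) := by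
      intro z hz
      rw [Finset.sum_comm]
      refine Finset.sum_congr rfl fun r _ => ?_
      by_cases h : v r = 0
      · rw [hz r h]
        simp
      · obtain ⟨j, hj⟩ := Option.ne_none_iff_exists'.1 (hns r h)
        rw [← Finset.mul_sum]
        unfold nM
        rw [Finset.sum_sub_distrib, hj]
        simp
    have hleak : ∀ r, v r ≠ 0 → 1 - ∑ j, Q r j = 0 := by
      have h1 : ∑ r, v r * (1 - ∑ j, Q r j) = 0 := by
        rw [← hsw v (fun _ h => h)]
        exact Finset.sum_eq_zero fun j _ => hv.sol j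
      have h0 : ∀ r, 0 ≤ v r * (1 - ∑ j, Q r j) := by
        intro r
        by_cases h : v r = 0
        · rw [h, zero_mul]
        · have := hN.row r (hns r h)
          exact mul_nonneg (hv.nn r) (by linarith)
      intro r hr
      have h2 := (Finset.sum_eq_zero_iff_of_nonneg (fun r _ => h0 r)).1 h1 r (Finset.mem_univ r)
      exact (mul_eq_zero.1 h2).resolve_left hr
    obtain ⟨a, ha⟩ : ∃ a, v a ≠ 0 := by
      by_contra h
      push Not at h
      exact hv.ne (funext h)
    obtain ⟨j₀, hj₀⟩ := Option.ne_none_iff_exists'.1 (hns a ha)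
    have hj₀J : j₀ ∈ J := (mJ j₀).2 ⟨a, ha, hj₀⟩
    have hc := hv.cnt V mV (J.erase j₀) (by
      intro z hz hzE
      have hne : ∀ j, j ≠ j₀ → ∑ r, z r * nM σ Q r j = 0 := by
        intro j hj
        by_cases h : j ∈ J
        · exact hzE j (Finset.mem_erase.2 ⟨hj, h⟩)
        · exact hout2 z hz j h
      intro j
      by_cases h : j = j₀
      · subst h
        have h1 := hsw z hz
        rw [Finset.sum_eq_single j (fun k _ hk => hne k hk)
          (fun h => absurd (Finset.mem_univ _) h)] at h1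
        rw [h1]
        refine Finset.sum_eq_zero fun r _ => ?_
        by_cases h : v r = 0
        · rw [hz r h, zero_mul]
        · rw [hleak r h, mul_zero]
      · exact hne j h)
    rw [Finset.card_erase_of_mem hj₀J] at hc
    have hJ1 : 0 < J.card := Finset.card_pos.2 ⟨j₀, hj₀J⟩
    rw [hs, Finset.card_empty] at hcard
    intro r r' hr hr' hσ
    exact hinj (by omega) r r' hr hr' (hns r hr) hσ
  · have hc := hv.cnt V mV J (fun z hz hzE j => by
      by_cases h : j ∈ J
      · exact hzE j h
      · exact hout2 z hz j h)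
    intro r r' hr hr' hσ
    by_cases hn : σ r = none
    · have hs1 : Vs.card ≤ 1 := by omega
      refine Finset.card_le_one.1 hs1 r ?_ r' ?_
      · rw [hVs, Finset.mem_filter, mV]
        exact ⟨hr, hn⟩
      · rw [hVs, Finset.mem_filter, mV]
        exact ⟨hr', hσ ▸ hn⟩
    · exact hinj (by omega) r r' hr hr' hn hσ

end

end Pool.Agent.V8H17.LP
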