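import Pool.Agent.V8H17.LP.Beg2

set_option autoImplicit false

/-!
# The scales of the elementary vectors in both phases
-/

namespace Pool.Agent.V8H17.LP

open Pool.Agent.NPC Pool.Agent.H558R2 Pool.Agent.H622R3.SM Pool.Agent.W920.FC
  Pool.Agent.Y648.CS Pool.Agent.Y529.CS

/-- The nonnegative vectors `y` for which the support of `(y, y A)` is minimal. -/
def Elem {m n : ℕ} (A : Matrix (Fin m) (Fin n) ℝ) (y : Fin m → ℝ) : Prop :=
  y ≠ 0 ∧ (∀ i, 0 ≤ y i) ∧ ∀ z : Fin m → ℝ, (∀ i, y i = 0 → z i = 0) →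
    (∀ j, Matrix.vecMul y A j = 0 → Matrix.vecMul z A j = 0) → ∃ l : ℝ, z = l • y

/-- The entries of `(y, y A)`. -/
def ent {m n : ℕ} (A : Matrix (Fin m) (Fin n) ℝ) (y : Fin m → ℝ) : Fin m ⊕ Fin n → ℝ :=
  Sum.elim y (Matrix.vecMul y A)

/-- For any two coordinates, the ratios of the entries of the vectors `(y, y A)` for elementary `y`
lie in at most `r` intervals `[s, 2 ^ r s]`. -/
def Scales (r : ℕ) {m n : ℕ} (A : Matrix (Fin m) (Fin n) ℝ) : Prop :=
  ∀ a b : Fin m ⊕ Fin n, ∃ S : Finset ℝ, S.card ≤ r ∧ (∀ s ∈ S, 0 < s) ∧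
    ∀ y, Elem A y → ent A y a ≠ 0 → ent A y b ≠ 0 →
      ∃ s ∈ S, s ≤ |ent A y a / ent A y b| ∧ |ent A y a / ent A y b| ≤ 2 ^ r * s

theorem vecMul_eq {m n : ℕ} (A : Matrix (Fin m) (Fin n) ℝ) (y : Fin m → ℝ) (j : Fin n) :
    Matrix.vecMul y A j = ∑ i, A i j * y i := by
  show ∑ i, y i * A i j = _
  exact Finset.sum_congr rfl fun i _ => mul_comm _ _

/-- The coordinate of `(y, y A)` for a coordinate of the first phase, and the scaling factor. -/
def Cod {m n : ℕ} (A : Fin m → Fin n → ℝ) (c : ℕ) (a : Fin m ⊕ Fin n) (f : ℝ) : Prop :=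
  (∃ d : Fin m, c = d ∧ a = Sum.inl d ∧ f = 1) ∨
  (∃ k : Fin n, c = vM m n + (m + k) ∧ a = Sum.inr k ∧ f = sc A) ∨
  (∃ k : Fin n, c = vM m n + (m + (n + k)) ∧ a = Sum.inr k ∧ f = sc A)

theorem cod_ex {m n : ℕ} (A : Fin m → Fin n → ℝ) {c : ℕ} (h : c ∈ Xc (vM m n) (drN m n)) :
    ∃ a f, Cod A c a f := by
  rcases XcN_cases h with ⟨d, rfl⟩ | ⟨k, rfl⟩ | ⟨k, rfl⟩
  · exact ⟨_, _, Or.inl ⟨d, rfl, rfl, rfl⟩⟩
  · exact ⟨_, _, Or.inr (Or.inl ⟨k, rfl, rfl, rfl⟩)⟩
  · exact ⟨_, _, Or.inr (Or.inr ⟨k, rfl, rfl, rfl⟩)⟩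

theorem cod_pos {m n : ℕ} {A : Fin m → Fin n → ℝ} {c : ℕ} {a : Fin m ⊕ Fin n} {f : ℝ}
    (h : Cod A c a f) : 0 < f := by
  rcases h with ⟨d, -, -, rfl⟩ | ⟨k, -, -, rfl⟩ | ⟨k, -, -, rfl⟩
  · exact one_pos
  · exact sc_pos A
  · exact sc_pos A

theorem scN0 {r m n : ℕ} (A : Fin m → Fin n → ℝ) (b : Fin m → ℝ) (hA : Scales r A) :
    ScOn (r + 1) (Lsp (vM m n) n 0 (start (vA A) (vb (n := n) b)) (drN m n))
      (Xc (vM m n) (drN m n)) (vM m n + vM m n + 1) := by
  classical
  intro i hi j hj
  obtain ⟨a, f, haf⟩ := cod_ex A hi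
  obtain ⟨a', f', haf'⟩ := cod_ex A hj
  have hf := cod_pos haf
  have hf' := cod_pos haf'
  obtain ⟨S, hS1, hS2, hS3⟩ := hA a a'
  have hsc := sc_pos A
  refine ⟨insert 1 (S.image fun s => s * (f' / f)), ?_, ?_, ?_⟩
  · exact (Finset.card_insert_le _ _).trans
      (Nat.succ_le_succ (Finset.card_image_le.trans hS1))
  · intro s hs
    rw [Finset.mem_insert, Finset.mem_image] at hs
    rcases hs with rfl | ⟨s, hs, rfl⟩
    · exact one_pos
    · exact mul_pos (hS2 s hs) (div_pos hf' hf)
  intro v hv hvi hvj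
  obtain ⟨hvL, hv0, hvn, hvm⟩ := hv
  rw [mem_LspN] at hvL
  obtain ⟨hL1, hL2, hL3⟩ := hvL
  by_cases hc : ∃ k : Fin n, v (vM m n + (m + k)) ≠ 0 ∧ v (vM m n + (m + (n + k))) ≠ 0
  · -- a trivial vector
    obtain ⟨k, hk1, hk2⟩ := hc
    set w : Fin n → ℝ := fun e => if e = k then 1 else 0 with hw
    obtain ⟨l, hl⟩ := hvm (mk3 (0 : Fin m → ℝ) w w (∑ e, (w e + w e)) (∑ e, (w e + w e)))
      (by
        rw [mem_LspN]
        refine ⟨fun i => ?_, ?_, ?_⟩
        · rw [mk3_u, mk3_v, sub_self, mul_zero]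
          refine Finset.sum_eq_zero fun c _ => ?_
          rw [mk3_y]
          simp
        · rw [mk3_q]
          exact Finset.sum_congr rfl fun e _ => by rw [mk3_u, mk3_v]
        · rw [mk3_nu, Finset.sum_eq_zero (s := (Finset.univ : Finset (Fin m))), zero_add]
          · exact Finset.sum_congr rfl fun e _ => by rw [mk3_u, mk3_v]
          · intro c _
            rw [mk3_y]
            rfl)
      (by
        intro c hc hvc
        rcases XcN_cases hc with ⟨d, rfl⟩ | ⟨e, rfl⟩ | ⟨e, rfl⟩
        · rw [mk3_y]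
          rfl
        · rw [mk3_u]
          simp only [hw]
          rw [if_neg]
          rintro rfl
          exact hk1 hvc
        · rw [mk3_v]
          simp only [hw]
          rw [if_neg]
          rintro rfl
          exact hk2 hvc)
    have hl0 : l ≠ 0 := by
      rintro rfl
      have h2 := hl _ (XcN_u (m := m) k)
      rw [mk3_u, zero_mul] at h2
      simp only [hw, if_true] at h2
      exact one_ne_zero h2
    have hl1 : ∀ d ∈ Xc (vM m n) (drN m n), v d ≠ 0 → 1 = l * v d := by
      intro d hd hvd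
      have h1 := hl d hd
      rcases XcN_cases hd with ⟨d', rfl⟩ | ⟨e, rfl⟩ | ⟨e, rfl⟩
      · rw [mk3_y] at h1
        exact absurd h1.symm (mul_ne_zero hl0 hvd)
      · rw [mk3_u] at h1
        simp only [hw] at h1
        split_ifs at h1 with h
        · exact h1
        · exact absurd h1.symm (mul_ne_zero hl0 hvd)
      · rw [mk3_v] at h1
        simp only [hw] at h1
        split_ifs at h1 with h
        · exact h1
        · exact absurd h1.symm (mul_ne_zero hl0 hvd)
    have hij : v i = v j := mul_left_cancel₀ hl0 ((hl1 i hi hvi).symm.trans (hl1 j hj hvj))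
    refine ⟨1, Finset.mem_insert_self _ _, ?_, ?_⟩
    · rw [hij, div_self hvj]
    · rw [hij, div_self hvj, mul_one]
      exact one_le_pow₀ (by norm_num)
  · -- an elementary vector
    push Not at hc
    have hex : ∀ k : Fin n, v (vM m n + (m + k)) = 0 ∨ v (vM m n + (m + (n + k))) = 0 :=
      fun k => by
        by_cases h : v (vM m n + (m + k)) = 0
        · exact Or.inl h
        · exact Or.inr (hc k h)
    obtain ⟨y, hy⟩ : ∃ y : Fin m → ℝ, y = fun c : Fin m => v (c : ℕ) := ⟨_, rfl⟩
    have hyv : ∀ c, y c = v c := fun c => by rw [hy]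
    have hyA : ∀ k : Fin n, Matrix.vecMul y (A : Matrix (Fin m) (Fin n) ℝ) k =
        sc A * (v (vM m n + (m + k)) - v (vM m n + (m + (n + k)))) := by
      intro k
      rw [vecMul_eq, ← hL1 k]
      exact Finset.sum_congr rfl fun c _ => by rw [hyv]
    have habs : ∀ (c : ℕ) (a : Fin m ⊕ Fin n) (f : ℝ), c ∈ Xc (vM m n) (drN m n) →
        Cod A c a f → v c ≠ 0 → |ent A y a| = f * v c := by
      intro c a f hc haf hvc
      have h0 := hv0 c hc
      rcases haf with ⟨d, rfl, rfl, rfl⟩ | ⟨k, rfl, rfl, rfl⟩ | ⟨k, rfl, rfl, rfl⟩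
      · show |y d| = _
        rw [hyv, abs_of_nonneg h0, one_mul]
      · show |Matrix.vecMul y (A : Matrix (Fin m) (Fin n) ℝ) k| = _
        rw [hyA, (hex k).resolve_left hvc, sub_zero, abs_of_nonneg (mul_nonneg hsc.le h0)]
      · show |Matrix.vecMul y (A : Matrix (Fin m) (Fin n) ℝ) k| = _
        rw [hyA, (hex k).resolve_right hvc, zero_sub, mul_neg, abs_neg,
          abs_of_nonneg (mul_nonneg hsc.le h0)]
    have hel : Elem A y := by
      refine ⟨?_, ?_, ?_⟩
      · intro hy0
        have h1 : ∀ k : Fin n, v (vM m n + (m + k)) - v (vM m n + (m + (n + k))) = 0 := by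
          intro k
          have h2 := hyA k
          rw [hy0, Matrix.zero_vecMul] at h2
          rcases mul_eq_zero.1 h2.symm with h3 | h3
          · exact absurd h3 hsc.ne'
          · exact h3
        have h2 : ∀ k : Fin n, v (vM m n + (m + k)) = 0 ∧ v (vM m n + (m + (n + k))) = 0 := by
          intro k
          have := h1 k
          rcases hex k with h | h
          · rw [h] at this
            exact ⟨h, by linarith⟩
          · rw [h] at this
            exact ⟨by linarith, h⟩
        apply hvi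
        rcases XcN_cases hi with ⟨d, rfl⟩ | ⟨e, rfl⟩ | ⟨e, rfl⟩
        · rw [← hyv, hy0]
          rfl
        · exact (h2 e).1
        · exact (h2 e).2
      · intro c
        rw [hyv]
        exact hv0 _ (XcN_y c)
      · intro z hz1 hz2
        set u : Fin n → ℝ := fun k => if v (vM m n + (m + k)) = 0 then 0 else
          Matrix.vecMul z (A : Matrix (Fin m) (Fin n) ℝ) k / sc A with hu
        set w : Fin n → ℝ := fun k => if v (vM m n + (m + (n + k))) = 0 then 0 else
          - (Matrix.vecMul z (A : Matrix (Fin m) (Fin n) ℝ) k / sc A) with hw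
        have huw : ∀ k, sc A * (u k - w k) =
            Matrix.vecMul z (A : Matrix (Fin m) (Fin n) ℝ) k := by
          intro k
          simp only [hu, hw]
          rcases hex k with h | h
          · rw [if_pos h]
            by_cases h' : v (vM m n + (m + (n + k))) = 0
            · rw [if_pos h', sub_zero, mul_zero]
              exact (hz2 k (by rw [hyA, h, h', sub_zero, mul_zero])).symm
            · rw [if_neg h']
              field_simp
              ring
          · rw [if_pos h, sub_zero]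
            by_cases h' : v (vM m n + (m + k)) = 0
            · rw [if_pos h', mul_zero]
              exact (hz2 k (by rw [hyA, h, h', sub_zero, mul_zero])).symm
            · rw [if_neg h']
              field_simp
        obtain ⟨l, hl⟩ := hvm (mk3 z u w (∑ e, (u e + w e)) (∑ c, z c + ∑ e, (u e + w e)))
          (by
            rw [mem_LspN]
            refine ⟨fun i => ?_, ?_, ?_⟩
            · rw [mk3_u, mk3_v, huw, vecMul_eq]
              exact Finset.sum_congr rfl fun c _ => by rw [mk3_y]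
            · rw [mk3_q]
              exact Finset.sum_congr rfl fun e _ => by rw [mk3_u, mk3_v]
            · rw [mk3_nu]
              congr 1
              · exact Finset.sum_congr rfl fun c _ => by rw [mk3_y]
              · exact Finset.sum_congr rfl fun e _ => by rw [mk3_u, mk3_v])
          (by
            intro c hc hvc
            rcases XcN_cases hc with ⟨d, rfl⟩ | ⟨e, rfl⟩ | ⟨e, rfl⟩
            · rw [mk3_y]
              exact hz1 d (by rw [hyv]; exact hvc)
            · rw [mk3_u]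
              simp only [hu]
              rw [if_pos hvc]
            · rw [mk3_v]
              simp only [hw]
              rw [if_pos hvc])
        refine ⟨l, ?_⟩
        funext c
        have h1 := hl c (XcN_y c)
        rw [mk3_y] at h1
        show z c = l * y c
        rw [h1, hyv]
    have hi' := habs i a f hi haf hvi
    have hj' := habs j a' f' hj haf' hvj
    have hi0 : 0 < v i := lt_of_le_of_ne (hv0 i hi) (Ne.symm hvi)
    have hj0 : 0 < v j := lt_of_le_of_ne (hv0 j hj) (Ne.symm hvj)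
    have hna : ent A y a ≠ 0 := abs_pos.1 (by rw [hi']; exact mul_pos hf hi0)
    have hna' : ent A y a' ≠ 0 := abs_pos.1 (by rw [hj']; exact mul_pos hf' hj0)
    obtain ⟨s, hs, hs1, hs2⟩ := hS3 y hel hna hna'
    rw [abs_div, hi', hj'] at hs1 hs2
    have hff : 0 < f' / f := div_pos hf' hf
    have hspos := hS2 s hs
    have key : v i / v j = f * v i / (f' * v j) * (f' / f) := by
      field_simp
    refine ⟨s * (f' / f), Finset.mem_insert_of_mem (Finset.mem_image_of_mem _ hs), ?_, ?_⟩
    · rw [key]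
      exact mul_le_mul_of_nonneg_right hs1 hff.le
    · rw [key]
      calc f * v i / (f' * v j) * (f' / f) ≤ 2 ^ r * s * (f' / f) :=
            mul_le_mul_of_nonneg_right hs2 hff.le
        _ = 2 ^ r * (s * (f' / f)) := by ring
        _ ≤ 2 ^ (r + 1) * (s * (f' / f)) := by
            apply mul_le_mul_of_nonneg_right _ (by positivity)
            exact pow_le_pow_right₀ (by norm_num) (by omega)

theorem scN1 {r m n : ℕ} (A : Fin m → Fin n → ℝ) (b : Fin m → ℝ) (hA : Scales r A)
    {B : List Bool} (hB : Short m B) :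
    ScOn (r + 1) (Lsp (vM m n) n 1 (start (vA A) (vb (n := n) b)) (dr1 (vM m n) B))
      (Xc (vM m n) (dr1 (vM m n) B)) (vM m n + vM m n + 1) := by
  classical
  intro i hi j hj
  have hi2 := (mem_XcB hB).1 hi
  have hj2 := (mem_XcB hB).1 hj
  obtain ⟨S, hS1, hS2, hS3⟩ := hA (Sum.inl ⟨i, hi2.1⟩) (Sum.inl ⟨j, hj2.1⟩)
  refine ⟨S, by omega, hS2, ?_⟩
  intro v hv hvi hvj
  obtain ⟨hvL, hv0, hvn, hvm⟩ := hv
  rw [mem_LspB A b hB] at hvL
  obtain ⟨hL1, hL2, hL3⟩ := hvL
  have hCi : rsN B v (⟨i, hi2.1⟩ : Fin m) = v i := by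
    unfold rsN
    rw [if_pos hi2.2]
  have hCj : rsN B v (⟨j, hj2.1⟩ : Fin m) = v j := by
    unfold rsN
    rw [if_pos hj2.2]
  obtain ⟨y, hy⟩ : ∃ y : Fin m → ℝ, y = rsN B v := ⟨_, rfl⟩
  have hyA : ∀ k : Fin n, Matrix.vecMul y (A : Matrix (Fin m) (Fin n) ℝ) k = 0 := by
    intro k
    rw [vecMul_eq, hy]
    exact hL1 k
  have hel : Elem A y := by
    refine ⟨fun h => hvi (by rw [← hCi, ← hy, h]; rfl), ?_, ?_⟩
    · intro c
      rw [hy]
      unfold rsN
      split_ifs with h
      · exact hv0 c ((mem_XcB hB).2 ⟨c.2, h⟩)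
      · exact le_rfl
    · intro z hz1 hz2
      have hz : (rsN B (mk3 (n := n) z 0 0 (- ∑ c, b c * z c) (∑ c, z c)) : Fin m → ℝ) = z := by
        funext c
        unfold rsN
        split_ifs with h
        · rw [mk3_y]
        · exact (hz1 c (by rw [hy]; unfold rsN; rw [if_neg h])).symm
      obtain ⟨l, hl⟩ := hvm (mk3 (n := n) z 0 0 (- ∑ c, b c * z c) (∑ c, z c))
        (by
          rw [mem_LspB A b hB, hz]
          refine ⟨fun k => ?_, mk3_q _ _ _ _ _, mk3_nu _ _ _ _ _⟩
          rw [← vecMul_eq]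
          exact hz2 k (hyA k))
        (by
          intro d hd hvd
          have hd2 := (mem_XcB hB).1 hd
          have h1 := mk3_y (n := n) z 0 0 (- ∑ c, b c * z c) (∑ c, z c) (⟨d, hd2.1⟩ : Fin m)
          refine Eq.trans h1 ?_
          apply hz1
          rw [hy]
          unfold rsN
          rw [if_pos hd2.2]
          exact hvd)
      refine ⟨l, ?_⟩
      funext c
      show z c = l * y c
      by_cases h : B.getD c false = true
      · have h1 := hl c ((mem_XcB hB).2 ⟨c.2, h⟩)
        rw [mk3_y] at h1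
        rw [h1, hy]
        unfold rsN
        rw [if_pos h]
      · have h2 : y c = 0 := by
          rw [hy]
          unfold rsN
          rw [if_neg h]
        rw [h2, hz1 c h2, mul_zero]
  have hei : ent A y (Sum.inl ⟨i, hi2.1⟩) = v i := by
    show y _ = _
    rw [hy, hCi]
  have hej : ent A y (Sum.inl ⟨j, hj2.1⟩) = v j := by
    show y _ = _
    rw [hy, hCj]
  obtain ⟨s, hs, hs1, hs2⟩ := hS3 y hel (by rw [hei]; exact hvi) (by rw [hej]; exact hvj)
  have hnn : 0 ≤ v i / v j := div_nonneg (hv0 i hi) (hv0 j hj)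
  rw [hei, hej, abs_of_nonneg hnn] at hs1 hs2
  refine ⟨s, hs, hs1, hs2.trans ?_⟩
  apply mul_le_mul_of_nonneg_right _ (hS2 s hs).le
  exact pow_le_pow_right₀ (by norm_num) (by omega)

/-- There are at most `2 ^ (m + n)` supports. -/
theorem scales_tot {m n : ℕ} (A : Matrix (Fin m) (Fin n) ℝ) : Scales (2 ^ (m + n)) A := by
  classical
  intro i j
  set P : Finset (Fin m ⊕ Fin n) → (Fin m → ℝ) → Prop := fun U y =>
    Elem A y ∧ (∀ c, ent A y c ≠ 0 ↔ c ∈ U) with hP
  set ra : Finset (Fin m ⊕ Fin n) → ℝ := fun U =>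
    if h : ∃ y, P U y then |ent A h.choose i / ent A h.choose j| else 1 with hra
  refine ⟨((Finset.univ : Finset (Finset (Fin m ⊕ Fin n))).image ra).filter fun s => 0 < s,
    ?_, ?_, ?_⟩
  · refine (Finset.card_filter_le _ _).trans (Finset.card_image_le.trans ?_)
    simp
  · intro s hs
    exact (Finset.mem_filter.1 hs).2
  · intro y hy hi hj
    set U : Finset (Fin m ⊕ Fin n) := Finset.univ.filter fun c => ent A y c ≠ 0 with hU
    have hPU : P U y := ⟨hy, fun c => by simp [hU]⟩
    have hex : ∃ y, P U y := ⟨y, hPU⟩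
    have hch := hex.choose_spec
    set y' := hex.choose with hy'
    obtain ⟨hc1, hc2⟩ := hch
    have hsupp : ∀ c, ent A y c = 0 → ent A y' c = 0 := by
      intro c hc
      by_contra h
      have h1 := (hc2 c).1 h
      rw [hU, Finset.mem_filter] at h1
      exact h1.2 hc
    obtain ⟨l, hl⟩ := hy.2.2 y' (fun c hc => hsupp (Sum.inl c) hc)
      (fun k hk => hsupp (Sum.inr k) hk)
    have hl0 : l ≠ 0 := by
      rintro rfl
      exact hc1.1 (by rw [hl, zero_smul])
    have hent : ∀ c, ent A y' c = l * ent A y c := by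
      rintro (c | k)
      · show y' c = l * y c
        rw [hl]
        rfl
      · show Matrix.vecMul y' A k = l * Matrix.vecMul y A k
        rw [hl, Matrix.smul_vecMul]
        rfl
    have hval : ra U = |ent A y i / ent A y j| := by
      simp only [hra]
      rw [dif_pos hex]
      change |ent A y' i / ent A y' j| = _
      rw [hent, hent, mul_div_mul_left _ _ hl0]
    have hpos : 0 < |ent A y i / ent A y j| := abs_pos.2 (div_ne_zero hi hj)
    refine ⟨|ent A y i / ent A y j|, ?_, le_rfl, ?_⟩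
    · rw [Finset.mem_filter]
      refine ⟨?_, hpos⟩
      rw [Finset.mem_image]
      exact ⟨U, Finset.mem_univ _, hval⟩
    · exact le_mul_of_one_le_left hpos.le (one_le_pow₀ (by norm_num))

end Pool.Agent.V8H17.LP
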