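import Pool.Agent.Y648.CW.T_PTW
import Pool.Agent.Y648.CS.T_TUP
import Pool.Agent.W920.FC.T_TT

set_option autoImplicit false

/-!
# Computations on a virtual input

The queries of an adaptive computation for the matrix `[A; s I; - s I]` are translated to queries
for the matrix `A`. Here `s` is `1` plus the sum of the squares of the entries of `A`.
-/

namespace Pool.Agent.V8H17.LP

open Pool.Agent.NPC Pool.Agent.H558R2 Pool.Agent.H622R3.SM Pool.Agent.W920.FC
  Pool.Agent.W920.FC.TORD1 Pool.Agent.Y648.CS.TTUP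

/-! ### Translation of the queries of an adaptive computation -/

/-- The queries are translated by `φ`. -/
def mapT {β : Type} (φ : Qry → Qry) (T : TT β) : TT β := fun h =>
  match T h with
  | Sum.inl p => Sum.inl p
  | Sum.inr q => Sum.inr (φ q)

theorem runs_mapT {β : Type} {g g' : Reg → ℝ} {G G' : ℝ → Prop} {φ : Qry → Qry} {d : ℕ}
    (hφ : ∀ q v, HasVal g' G' q v → HasVal g G (φ q) v ∧ (φ q).1.length ≤ q.1.length + d)
    {T : TT β} {b : β} {c : ℕ} (h : Runs g' G' T b c) : Runs g G (mapT φ T) b ((d + 1) * c) := by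
  induction h with
  | done T b c h =>
    refine Runs.done _ _ _ fun l => ?_
    show (match T l with
      | Sum.inl p => Sum.inl p
      | Sum.inr q => Sum.inr (φ q) : (β × List Outcome) ⊕ Qry) = _
    rw [h l]
  | step T b c q v h1 h2 h3 ih =>
    obtain ⟨h4, h5⟩ := hφ q v h2
    have h6 : Runs g G (mapT φ T) b ((d + 1) * c + (φ q).1.length + 1) := by
      refine Runs.step _ _ _ (φ q) v ?_ h4 ?_
      · show (match T [] with
          | Sum.inl p => Sum.inl p
          | Sum.inr q => Sum.inr (φ q) : (β × List Outcome) ⊕ Qry) = _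
        rw [h1]
      · exact ih
    refine t_TT.2.2.2 _ _ _ _ _ _ _ _ (fun _ h => h) ?_ h6
    nlinarith

theorem pt_mapT {α β : Type} [TEnc α] [TEnc β] {φ : α → Qry → Qry} {T : α → TT β}
    (hφ : Poly (fun p : α × Qry => φ p.1 p.2)) (hT : PT T) : PT (fun a => mapT (φ a) (T a)) := by
  refine (Poly.sumCases (o := fun p : α × List Outcome => T p.1 p.2)
    (g := fun _ q => (Sum.inl q : (β × List Outcome) ⊕ Qry))
    (h := fun p q => Sum.inr (φ p.1 q)) hT (Poly.inl (Poly.snd Poly.id)) ?_).congr fun p => ?_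
  · exact Poly.inr (hφ.comp (f := fun r : (α × List Outcome) × Qry => (r.1.1, r.2))
      (Poly.pair (Poly.fst (Poly.fst Poly.id)) (Poly.snd Poly.id)))
  · show _ = mapT (φ p.1) (T p.1) p.2
    unfold mapT
    cases T p.1 p.2 <;> rfl

/-! ### Renaming of the base registers -/

/-- A query for other base registers, computed by a program. -/
theorem hasVal_ren {g g' : Reg → ℝ} {G : ℝ → Prop} {P : List Instr} {ρ : Reg → Reg}
    {V : Reg → ℝ} (hP : Ord baseReg P) (hwr : ∀ r ∈ wr P, r.headD 0 ≠ 93)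
    (hρb : ∀ r ∈ baseReg, ρ r ∈ baseReg ∪ wr P) (hρn : ∀ r, r ∉ baseReg → ρ r = 93 :: r)
    (hV1 : ∀ r ∈ baseReg, V r = g r) (hV2 : ∀ I ∈ P, Eqn V I ∧ G (V I.dst))
    (hV3 : ∀ r ∈ baseReg, V (ρ r) = g' r) {q : Qry} {v : ℝ} (h : HasVal g' G q v) :
    HasVal g G (P ++ q.1.map (ren ρ), ρ q.2) v := by
  obtain ⟨qord, V', q1, q2, q3, q4⟩ := h
  set T : Set Reg := baseReg ∪ wr P with hT
  have hTh : ∀ r ∈ T, r.headD 0 ≠ 93 := by
    rintro r (h | h)
    · have : r.headD 0 < 4 := h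
      omega
    · exact hwr r h
  set U : Reg → ℝ := fun r => match r with
    | 93 :: r => V' r
    | r => V r with hU
  have U_ne : ∀ {r : Reg}, r.headD 0 ≠ 93 → U r = V r := by
    intro r h
    simp only [hU]
    split
    · rename_i r'
      exact absurd rfl h
    · rfl
  have hval : ∀ r, U (ρ r) = V' r := by
    intro r
    by_cases hr : r ∈ baseReg
    · rw [U_ne (hTh _ (hρb r hr)), hV3 r hr, q1 r hr]
    · rw [hρn r hr]
      rfl
  refine ⟨?_, U, ?_, ?_, ?_, (hval q.2).trans q4⟩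
  · change Ord baseReg (P ++ q.1.map (ren ρ))
    rw [ord_append]
    refine ⟨hP, ?_⟩
    refine ord_ren ρ q.1 baseReg T hρb ?_ ?_ qord
    · intro r hr h
      rw [hρn r hr] at h
      exact hTh _ h rfl
    · intro r hr r' hr' h
      rw [hρn r hr, hρn r' hr'] at h
      simpa using h
  · intro r hr
    rw [U_ne (hTh r (Or.inl hr)), hV1 r hr]
  · intro I hI
    change I ∈ P ++ q.1.map (ren ρ) at hI
    rcases List.mem_append.1 hI with hI | hI
    · obtain ⟨f1, f2⟩ := ord_opr _ _ hP I hI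
      obtain ⟨⟨e1, e2⟩, e3⟩ := hV2 I hI
      rw [U_ne (hTh _ f1), U_ne (hTh _ f2), U_ne (hTh I.dst (Or.inr ⟨I, hI, rfl⟩))]
      exact ⟨e1, e2, e3⟩
    · obtain ⟨J, hJ, rfl⟩ := List.mem_map.1 hI
      obtain ⟨e1, e2, e3⟩ := q2 J hJ
      change U (ρ J.dst) = J.op.eval (U (ρ J.fst)) (U (ρ J.snd)) ∧
        (J.op = Op.div → U (ρ J.snd) ≠ 0) ∧ G (U (ρ J.dst))
      rw [hval, hval, hval]
      exact ⟨e1, e2, e3⟩
  · rcases q3 with h | ⟨J, hJ, h⟩
    · rcases hρb _ h with h | ⟨I, hI, h⟩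
      · exact Or.inl h
      · exact Or.inr ⟨I, List.mem_append_left _ hI, h⟩
    · right
      refine ⟨ren ρ J, List.mem_append_right _ (List.mem_map.2 ⟨J, hJ, rfl⟩), ?_⟩
      change ρ J.dst = ρ q.2
      rw [h]

theorem hasVal_mono {g : Reg → ℝ} {G G' : ℝ → Prop} (hG : ∀ v, G v → G' v) {q : Qry} {v : ℝ}
    (h : HasVal g G q v) : HasVal g G' q v := by
  obtain ⟨h1, V, h2, h3, h4⟩ := h
  exact ⟨h1, V, h2, fun I hI => ⟨(h3 I hI).1, (h3 I hI).2.1, hG _ (h3 I hI).2.2⟩, h4⟩

/-! ### The virtual input -/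

/-- The number of rows of the virtual matrix. -/
def vM (m n : ℕ) : ℕ := m + (n + n)

/-- One step of the program. -/
def vblk (n k : ℕ) : List Instr :=
  [(⟨Op.mul, [91, k], [0, k / n, k % n], [0, k / n, k % n]⟩ : Instr),
    (⟨Op.add, [90, k + 1], [90, k], [91, k]⟩ : Instr)]

/-- The program computing the scale `s` in `[90, m n]`, and `- s` in `[92]`. -/
def vP (m n : ℕ) : List Instr :=
  [(⟨Op.add, [90, 0], [2], [3]⟩ : Instr)] ++ ((List.range (m * n)).flatMap (vblk n) ++
    [(⟨Op.sub, [92], [3], [90, m * n]⟩ : Instr)])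

/-- The renaming. -/
def vr (m n : ℕ) (r : Reg) : Reg :=
  if r = [2] then [2]
  else if 4 ≤ r.headD 0 then 93 :: r
  else if r.length = 3 ∧ r.headD 0 = 0 then
    (if r.getD 1 0 < m then r
      else if r.getD 2 0 < n ∧ r.getD 1 0 = m + r.getD 2 0 then [90, m * n]
      else if r.getD 2 0 < n ∧ r.getD 1 0 = m + (n + r.getD 2 0) then [92]
      else [3])
  else if r.length = 2 ∧ r.headD 0 = 1 ∧ r.getD 1 0 < m then r
  else [3]

/-- The translation of the queries. -/
def vq (m n : ℕ) (q : Qry) : Qry := (vP m n ++ q.1.map (ren (vr m n)), vr m n q.2)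

/-- The scale. -/
noncomputable def sc {m n : ℕ} (A : Fin m → Fin n → ℝ) : ℝ := 1 + ∑ i, ∑ j, A i j ^ 2

/-- The virtual matrix. -/
noncomputable def vA {m n : ℕ} (A : Fin m → Fin n → ℝ) : Fin (vM m n) → Fin n → ℝ := fun c i =>
  if h : (c : ℕ) < m then A ⟨c, h⟩ i
  else if (c : ℕ) = m + i then sc A
  else if (c : ℕ) = m + (n + i) then - sc A
  else 0

/-- The virtual right-hand side. -/
def vb {m n : ℕ} (b : Fin m → ℝ) : Fin (vM m n) → ℝ := fun c =>
  if h : (c : ℕ) < m then b ⟨c, h⟩ else 0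

theorem vP_len (m n : ℕ) : (vP m n).length = 2 * (m * n) + 2 := by
  unfold vP vblk
  rw [List.length_append, List.length_append, List.length_flatMap]
  simp
  omega

theorem mem_wr_vblk {n k : ℕ} {r : Reg} : r ∈ wr (vblk n k) ↔ r = [91, k] ∨ r = [90, k + 1] := by
  unfold vblk
  rw [wr_cons, wr_cons, wr_nil]
  simp [or_comm]

theorem mem_wr_vP {m n : ℕ} {r : Reg} : r ∈ wr (vP m n) ↔ (∃ k ≤ m * n, r = [90, k]) ∨
    (∃ k < m * n, r = [91, k]) ∨ r = [92] := by
  unfold vP
  rw [wr_append, wr_append, wr_cons, wr_cons, wr_nil]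
  simp only [Set.mem_union, Set.mem_singleton_iff, Set.mem_empty_iff_false, or_false,
    mem_wr_range, mem_wr_vblk]
  constructor
  · rintro (h | ⟨k, hk, h | h⟩ | h)
    · exact Or.inl ⟨0, Nat.zero_le _, h⟩
    · exact Or.inr (Or.inl ⟨k, hk, h⟩)
    · exact Or.inl ⟨k + 1, hk, h⟩
    · exact Or.inr (Or.inr h)
  · rintro (⟨k, hk, h⟩ | ⟨k, hk, h⟩ | h)
    · rcases k with _ | k
      · exact Or.inl h
      · exact Or.inr (Or.inl ⟨k, hk, Or.inr h⟩)
    · exact Or.inr (Or.inl ⟨k, hk, Or.inl h⟩)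
    · exact Or.inr (Or.inr h)

theorem ord_vP (m n : ℕ) : Ord baseReg (vP m n) := by
  have hb : ∀ a b : ℕ, ([0, a, b] : Reg) ∈ baseReg := fun a b => by simp [baseReg]
  unfold vP
  rw [ord_append, ord_append]
  refine ⟨?_, ?_, ?_⟩
  · rw [ord_cons]
    refine ⟨b2, b3, by simp [baseReg], ?_⟩
    trivial
  · refine ord_range _ _ _ fun i hi => ?_
    unfold vblk
    rw [ord_cons, ord_cons]
    simp only [wr_cons, wr_nil, Set.mem_union, Set.mem_singleton_iff, Set.mem_empty_iff_false,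
      or_false, Set.mem_ofPred_eq]
    refine ⟨Or.inl (Or.inl (hb _ _)), Or.inl (Or.inl (hb _ _)), ?_, ?_, ?_, ?_, trivial⟩
    · rintro ((h | h) | ⟨j, hj, h⟩)
      · simp [baseReg] at h
      · simp at h
      · simp at h
        omega
    · rcases i with _ | i
      · exact Or.inl (Or.inl (Or.inr rfl))
      · exact Or.inl (Or.inr ⟨i, by omega, by simp⟩)
    · simp
    · rintro (((h | h) | ⟨j, hj, h⟩) | h)
      · simp [baseReg] at h
      · simp at h
      · simp at h
        omega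
      · simp at h
  · rw [ord_cons]
    refine ⟨Or.inl (Or.inl b3), ?_, ?_, trivial⟩
    · simp only [wr_cons, wr_nil, Set.mem_union, Set.mem_singleton_iff, Set.mem_empty_iff_false,
        or_false, mem_wr_range, mem_wr_vblk]
      rcases h : m * n with _ | k
      · exact Or.inl (Or.inr rfl)
      · exact Or.inr ⟨k, by omega, Or.inr rfl⟩
    · simp only [wr_cons, wr_nil, Set.mem_union, Set.mem_singleton_iff, Set.mem_empty_iff_false,
        or_false, mem_wr_range, mem_wr_vblk]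
      rintro ((h | h) | ⟨j, hj, h | h⟩)
      · simp [baseReg] at h
      · simp at h
      · simp at h
      · simp at h

end Pool.Agent.V8H17.LP
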