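import Pool.Agent.V8H17.LP.Virt

set_option autoImplicit false

/-!
# Computations on a virtual input: values and sizes
-/

namespace Pool.Agent.V8H17.LP

open Pool.Agent.NPC Pool.Agent.H558R2 Pool.Agent.H622R3.SM Pool.Agent.W920.FC
  Pool.Agent.W920.FC.TORD1 Pool.Agent.Y648.CS.TTUP

theorem sum_divmod (m n : ℕ) (F : ℕ → ℕ → ℝ) :
    ∑ l ∈ Finset.range (m * n), F (l / n) (l % n) =
      ∑ i ∈ Finset.range m, ∑ j ∈ Finset.range n, F i j := by
  rcases Nat.eq_zero_or_pos n with rfl | hn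
  · simp
  induction m with
  | zero => simp
  | succ m ih =>
    rw [Nat.succ_mul, Finset.sum_range_add, ih, Finset.sum_range_succ]
    congr 1
    refine Finset.sum_congr rfl fun j hj => ?_
    have hj' := Finset.mem_range.1 hj
    rw [Nat.mul_comm m n, Nat.mul_add_div hn, Nat.div_eq_of_lt hj', Nat.add_zero,
      Nat.mul_add_mod, Nat.mod_eq_of_lt hj']

theorem sc_ge_one {m n : ℕ} (A : Fin m → Fin n → ℝ) : 1 ≤ sc A := by
  unfold sc
  have : 0 ≤ ∑ i, ∑ j, A i j ^ 2 := Finset.sum_nonneg fun i _ => Finset.sum_nonneg fun j _ =>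
    sq_nonneg _
  linarith

theorem sc_pos {m n : ℕ} (A : Fin m → Fin n → ℝ) : 0 < sc A := lt_of_lt_of_le one_pos (sc_ge_one A)

theorem abs_le_sc {m n : ℕ} (A : Fin m → Fin n → ℝ) (i : Fin m) (j : Fin n) : |A i j| ≤ sc A := by
  have h1 : A i j ^ 2 ≤ ∑ i, ∑ j, A i j ^ 2 := by
    refine (Finset.single_le_sum (f := fun j => A i j ^ 2) (fun j _ => sq_nonneg _)
      (Finset.mem_univ j)).trans ?_
    exact Finset.single_le_sum (f := fun i => ∑ j, A i j ^ 2)
      (fun i _ => Finset.sum_nonneg fun j _ => sq_nonneg _) (Finset.mem_univ i)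
  unfold sc
  have h2 : A i j ^ 2 = |A i j| ^ 2 := (sq_abs _).symm
  nlinarith [sq_nonneg (|A i j| - 1), abs_nonneg (A i j)]

/-- The values of the registers. -/
noncomputable def valV {m n : ℕ} (A : Fin m → Fin n → ℝ) (b : Fin m → ℝ) : Reg → ℝ
  | [90, k] => 1 + ∑ l ∈ Finset.range k, start A b [0, l / n, l % n] ^ 2
  | [91, k] => start A b [0, k / n, k % n] ^ 2
  | [92] => - sc A
  | r => start A b r

theorem valV_s {m n : ℕ} (A : Fin m → Fin n → ℝ) (b : Fin m → ℝ) :
    valV A b [90, m * n] = sc A := by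
  show 1 + ∑ l ∈ Finset.range (m * n), start A b [0, l / n, l % n] ^ 2 = sc A
  rw [sum_divmod m n (fun i j => start A b [0, i, j] ^ 2)]
  unfold sc
  congr 1
  rw [Finset.sum_range]
  refine Finset.sum_congr rfl fun i _ => ?_
  rw [Finset.sum_range]
  refine Finset.sum_congr rfl fun j _ => ?_
  simp [start]

theorem valV_base {m n : ℕ} (A : Fin m → Fin n → ℝ) (b : Fin m → ℝ) {r : Reg}
    (h : r ∈ baseReg) : valV A b r = start A b r := by
  have h' : r.headD 0 < 4 := h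
  unfold valV
  split
  · simp at h'
  · simp at h'
  · simp at h'
  · rfl

theorem vr_not {m n : ℕ} {r : Reg} (h : r ∉ baseReg) : vr m n r = 93 :: r := by
  have h' : ¬ r.headD 0 < 4 := h
  unfold vr
  rw [if_neg, if_pos (by omega)]
  rintro rfl
  simp at h'

theorem reg3 {r : Reg} (h1 : r.length = 3) (h2 : r.headD 0 = 0) :
    r = [0, r.getD 1 0, r.getD 2 0] := by
  match r, h1, h2 with
  | [a, b, c], _, h2 =>
    have : a = 0 := h2
    subst this
    rfl

theorem reg2 {r : Reg} (h1 : r.length = 2) (h2 : r.headD 0 = 1) :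
    r = [1, r.getD 1 0] := by
  match r, h1, h2 with
  | [a, b], _, h2 =>
    have : a = 1 := h2
    subst this
    rfl

theorem vr_base {m n : ℕ} {r : Reg} (h : r ∈ baseReg) :
    vr m n r ∈ baseReg ∪ wr (vP m n) := by
  have h' : r.headD 0 < 4 := h
  unfold vr
  split_ifs with h1 h2 h3 h4 h5 h6 h7
  · exact Or.inl b2
  · omega
  · exact Or.inl h
  · exact Or.inr (mem_wr_vP.2 (Or.inl ⟨_, le_rfl, rfl⟩))
  · exact Or.inr (mem_wr_vP.2 (Or.inr (Or.inr rfl)))
  · exact Or.inl b3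
  · exact Or.inl h
  · exact Or.inl b3

theorem start_other {m n : ℕ} (A : Fin m → Fin n → ℝ) (b : Fin m → ℝ) {r : Reg} (h1 : r ≠ [2])
    (h2 : ¬ (r.length = 3 ∧ r.headD 0 = 0)) (h3 : ¬ (r.length = 2 ∧ r.headD 0 = 1)) :
    start A b r = 0 := by
  unfold start
  split
  · exact absurd ⟨rfl, rfl⟩ h2
  · exact absurd ⟨rfl, rfl⟩ h3
  · exact absurd rfl h1
  · rfl

theorem vr_val {m n : ℕ} (A : Fin m → Fin n → ℝ) (b : Fin m → ℝ) {r : Reg}
    (h : r ∈ baseReg) : valV A b (vr m n r) = start (vA A) (vb (n := n) b) r := by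
  have h' : r.headD 0 < 4 := h
  have z3 : valV A b [3] = 0 := by
    rw [valV_base A b b3]
    rfl
  unfold vr
  split_ifs with h1 h2 h3 h4 h5 h6 h7
  · rw [h1, valV_base A b b2]
    rfl
  · omega
  · rw [valV_base A b h, reg3 h3.1 h3.2]
    have hlt : r.getD 1 0 < vM m n := by unfold vM; omega
    show (if h : r.getD 1 0 < m ∧ r.getD 2 0 < n then A ⟨r.getD 1 0, h.1⟩ ⟨r.getD 2 0, h.2⟩ else 0)
      = if h : r.getD 1 0 < vM m n ∧ r.getD 2 0 < n then
        vA A ⟨r.getD 1 0, h.1⟩ ⟨r.getD 2 0, h.2⟩ else 0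
    by_cases hn : r.getD 2 0 < n
    · rw [dif_pos ⟨h4, hn⟩, dif_pos ⟨hlt, hn⟩]
      unfold vA
      rw [dif_pos h4]
    · rw [dif_neg (by tauto), dif_neg (by tauto)]
  · rw [valV_s, reg3 h3.1 h3.2]
    have hlt : r.getD 1 0 < vM m n := by unfold vM; omega
    show _ = if h : r.getD 1 0 < vM m n ∧ r.getD 2 0 < n then
        vA A ⟨r.getD 1 0, h.1⟩ ⟨r.getD 2 0, h.2⟩ else 0
    rw [dif_pos ⟨hlt, h5.1⟩]
    unfold vA
    rw [dif_neg h4, if_pos h5.2]
  · rw [reg3 h3.1 h3.2]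
    have hlt : r.getD 1 0 < vM m n := by unfold vM; omega
    show - sc A = if h : r.getD 1 0 < vM m n ∧ r.getD 2 0 < n then
        vA A ⟨r.getD 1 0, h.1⟩ ⟨r.getD 2 0, h.2⟩ else 0
    rw [dif_pos ⟨hlt, h6.1⟩]
    unfold vA
    rw [dif_neg h4, if_neg (fun h7 => h5 ⟨h6.1, h7⟩), if_pos h6.2]
  · rw [z3, reg3 h3.1 h3.2]
    show _ = if h : r.getD 1 0 < vM m n ∧ r.getD 2 0 < n then
        vA A ⟨r.getD 1 0, h.1⟩ ⟨r.getD 2 0, h.2⟩ else 0
    by_cases hn : r.getD 1 0 < vM m n ∧ r.getD 2 0 < n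
    · rw [dif_pos hn]
      unfold vA
      rw [dif_neg h4, if_neg (fun h7 => h5 ⟨hn.2, h7⟩), if_neg (fun h7 => h6 ⟨hn.2, h7⟩)]
    · rw [dif_neg hn]
  · rw [valV_base A b h, reg2 h7.1 h7.2.1]
    have hlt : r.getD 1 0 < vM m n := by unfold vM; omega
    show (if h : r.getD 1 0 < m then b ⟨r.getD 1 0, h⟩ else 0)
      = if h : r.getD 1 0 < vM m n then vb (n := n) b ⟨r.getD 1 0, h⟩ else 0
    rw [dif_pos h7.2.2, dif_pos hlt]
    unfold vb
    rw [dif_pos h7.2.2]
  · rw [z3]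
    by_cases h8 : r.length = 2 ∧ r.headD 0 = 1
    · rw [reg2 h8.1 h8.2]
      show _ = if h : r.getD 1 0 < vM m n then vb (n := n) b ⟨r.getD 1 0, h⟩ else 0
      have h9 : ¬ r.getD 1 0 < m := fun h9 => h7 ⟨h8.1, h8.2, h9⟩
      split_ifs
      · unfold vb
        rw [dif_neg h9]
      · rfl
    · exact (start_other _ _ h1 h3 h8).symm

theorem eqn_vP {m n : ℕ} (A : Fin m → Fin n → ℝ) (b : Fin m → ℝ) :
    ∀ I ∈ vP m n, Eqn (valV A b) I := by
  have v2 : valV A b [2] = 1 := by rw [valV_base A b b2]; rfl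
  have v3 : valV A b [3] = 0 := by rw [valV_base A b b3]; rfl
  intro I hI
  unfold vP at hI
  rw [List.mem_append, List.mem_append, List.mem_flatMap] at hI
  rcases hI with hI | ⟨k, hk, hI⟩ | hI
  · rw [List.mem_singleton] at hI
    subst hI
    refine ⟨?_, fun h => absurd h (by simp)⟩
    show valV A b [90, 0] = valV A b [2] + valV A b [3]
    rw [v2, v3]
    show 1 + ∑ l ∈ Finset.range 0, start A b [0, l / n, l % n] ^ 2 = 1 + 0
    simp
  · unfold vblk at hI
    rw [List.mem_cons, List.mem_singleton] at hI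
    rcases hI with rfl | rfl
    · refine ⟨?_, fun h => absurd h (by simp)⟩
      show valV A b [91, k] = valV A b [0, k / n, k % n] * valV A b [0, k / n, k % n]
      rw [valV_base A b (by simp [baseReg] : ([0, k / n, k % n] : Reg) ∈ baseReg)]
      show start A b [0, k / n, k % n] ^ 2 = _
      ring
    · refine ⟨?_, fun h => absurd h (by simp)⟩
      show valV A b [90, k + 1] = valV A b [90, k] + valV A b [91, k]
      show 1 + ∑ l ∈ Finset.range (k + 1), start A b [0, l / n, l % n] ^ 2 =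
        (1 + ∑ l ∈ Finset.range k, start A b [0, l / n, l % n] ^ 2) +
          start A b [0, k / n, k % n] ^ 2
      rw [Finset.sum_range_succ]
      ring
  · rw [List.mem_singleton] at hI
    subst hI
    refine ⟨?_, fun h => absurd h (by simp)⟩
    show valV A b [92] = valV A b [3] - valV A b [90, m * n]
    rw [v3, valV_s]
    show - sc A = 0 - sc A
    ring

end Pool.Agent.V8H17.LP
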